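import Mathlib

/-! Filtered group algebras: abstract part 1 (coordinates, the filtration F). -/

namespace Cd3

/-- A group with coordinates `a i`, as for `1 + y F_p[[y]]` under the twisted product. -/
structure NG (p : ℕ) (Γ : Type) [Group Γ] where
  a : ℕ → Γ → ZMod p
  a_zero : ∀ x, a 0 x = 0
  a_one : ∀ i, a i 1 = 0
  mulR : ∀ d c x i, (∀ j < d, a j c = 0) → i ≤ d → a i (x * c) = a i x + a i c
  mulL : ∀ d c x i, (∀ j < d, a j c = 0) → i ≤ d → a i (c * x) = a i x + a i c
  surj : ∀ t : ℕ → ZMod p, t 0 = 0 → ∃ u, ∀ i, a i u = t i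

variable {p : ℕ} {Γ : Type} [Group Γ]

namespace NG

variable (S : NG p Γ)

def D (d : ℕ) (c : Γ) : Prop := ∀ j < d, S.a j c = 0

def Eqv (K : ℕ) (u v : Γ) : Prop := ∀ i < K, S.a i u = S.a i v

variable {S}

lemma D_one (d : ℕ) : S.D d 1 := fun j _ => S.a_one j

lemma D.anti {d d' : ℕ} {c : Γ} (h : S.D d c) (hd : d' ≤ d) : S.D d' c :=
  fun j hj => h j (by omega)

lemma D_all (c : Γ) : S.D 1 c := fun j hj => by
  have : j = 0 := by omega
  subst this; exact S.a_zero c

lemma D.a_mul {d : ℕ} {c : Γ} (h : S.D d c) (x : Γ) {i : ℕ} (hi : i ≤ d) :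
    S.a i (x * c) = S.a i x + S.a i c := S.mulR d c x i h hi

lemma D.a_mulL {d : ℕ} {c : Γ} (h : S.D d c) (x : Γ) {i : ℕ} (hi : i ≤ d) :
    S.a i (c * x) = S.a i x + S.a i c := S.mulL d c x i h hi

lemma D.mul {d : ℕ} {c c' : Γ} (h : S.D d c) (h' : S.D d c') : S.D d (c * c') := fun j hj => by
  rw [h'.a_mul c hj.le, h j hj, h' j hj, add_zero]

lemma D.a_inv {d : ℕ} {c : Γ} (h : S.D d c) {i : ℕ} (hi : i ≤ d) : S.a i c⁻¹ = - S.a i c := by
  have := h.a_mul c⁻¹ hi
  rw [inv_mul_cancel, S.a_one] at this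
  linear_combination -this

lemma D.inv {d : ℕ} {c : Γ} (h : S.D d c) : S.D d c⁻¹ := fun j hj => by
  rw [h.a_inv hj.le, h j hj, neg_zero]

lemma D.pow {d : ℕ} {c : Γ} (h : S.D d c) (n : ℕ) : S.D d (c ^ n) := by
  induction n with
  | zero => simpa using D_one d
  | succ n ih => rw [pow_succ]; exact ih.mul h

lemma D.succ {d : ℕ} {c : Γ} (h : S.D d c) (h0 : S.a d c = 0) : S.D (d + 1) c := fun j hj => by
  rcases Nat.lt_succ_iff_lt_or_eq.1 hj with h1 | h1
  · exact h j h1
  · rw [h1, h0]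

lemma eqv_iff_R {K : ℕ} {u v : Γ} : S.Eqv K u v ↔ S.D K (u⁻¹ * v) := by
  constructor
  · intro h
    have : ∀ n ≤ K, S.D n (u⁻¹ * v) := by
      intro n
      induction n with
      | zero => intro _ j hj; omega
      | succ n ih =>
        intro hn
        have h1 := ih (by omega)
        refine h1.succ ?_
        have h2 := h1.a_mul u (le_refl n)
        rw [mul_inv_cancel_left, h n (by omega)] at h2
        linear_combination -h2
    exact this K le_rfl
  · intro h i hi
    have h2 := h.a_mul u hi.le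
    rw [mul_inv_cancel_left, h i hi, add_zero] at h2
    exact h2.symm

lemma eqv_iff_L {K : ℕ} {u v : Γ} : S.Eqv K u v ↔ S.D K (v * u⁻¹) := by
  constructor
  · intro h
    have : ∀ n ≤ K, S.D n (v * u⁻¹) := by
      intro n
      induction n with
      | zero => intro _ j hj; omega
      | succ n ih =>
        intro hn
        have h1 := ih (by omega)
        refine h1.succ ?_
        have h2 := h1.a_mulL u (le_refl n)
        rw [inv_mul_cancel_right, h n (by omega)] at h2
        linear_combination -h2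
    exact this K le_rfl
  · intro h i hi
    have h2 := h.a_mulL u hi.le
    rw [inv_mul_cancel_right, h i hi, add_zero] at h2
    exact h2.symm

lemma D.conj {d : ℕ} {c : Γ} (h : S.D d c) (x : Γ) : S.D d (x * c * x⁻¹) := by
  have : S.Eqv d x (x * c) := eqv_iff_R.2 (by simpa using h)
  exact eqv_iff_L.1 this

lemma Eqv.refl (K : ℕ) (u : Γ) : S.Eqv K u u := fun _ _ => rfl

lemma Eqv.symm {K : ℕ} {u v : Γ} (h : S.Eqv K u v) : S.Eqv K v u := fun i hi => (h i hi).symm

lemma Eqv.trans {K : ℕ} {u v w : Γ} (h : S.Eqv K u v) (h' : S.Eqv K v w) : S.Eqv K u w :=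
  fun i hi => (h i hi).trans (h' i hi)

lemma Eqv.anti {K K' : ℕ} {u v : Γ} (h : S.Eqv K u v) (hK : K' ≤ K) : S.Eqv K' u v :=
  fun i hi => h i (by omega)

lemma Eqv.mul_left {K : ℕ} {u v : Γ} (h : S.Eqv K u v) (x : Γ) : S.Eqv K (x * u) (x * v) := by
  rw [eqv_iff_R] at h ⊢
  simpa [mul_assoc] using h

lemma Eqv.mul_right {K : ℕ} {u v : Γ} (h : S.Eqv K u v) (x : Γ) : S.Eqv K (u * x) (v * x) := by
  rw [eqv_iff_L] at h ⊢
  simpa [mul_assoc] using h

lemma Eqv.mul {K : ℕ} {u v u' v' : Γ} (h : S.Eqv K u v) (h' : S.Eqv K u' v') :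
    S.Eqv K (u * u') (v * v') := (h.mul_right u').trans (h'.mul_left v)

lemma Eqv.inv {K : ℕ} {u v : Γ} (h : S.Eqv K u v) : S.Eqv K u⁻¹ v⁻¹ := by
  have h1 := eqv_iff_L.1 h.symm
  rw [eqv_iff_R]
  simpa using h1

lemma D.eqv_mul {K : ℕ} {c : Γ} (h : S.D K c) (x : Γ) : S.Eqv K (x * c) x := fun i hi => by
  rw [h.a_mul x hi.le, h i hi, add_zero]

variable (S) in
/-- the standard element `1 + y^d` -/
noncomputable def g (d : ℕ) : Γ :=
  Classical.choose (S.surj (fun i => if i = d ∧ i ≠ 0 then 1 else 0) (by simp))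

lemma a_g {d : ℕ} (hd : 1 ≤ d) (i : ℕ) : S.a i (S.g d) = if i = d then 1 else 0 := by
  have := Classical.choose_spec (S.surj (fun i => if i = d ∧ i ≠ 0 then 1 else 0) (by simp)) i
  unfold g
  rw [this]
  by_cases h : i = d
  · have : i ≠ 0 := by omega
    simp [h, show d ≠ 0 by omega]
  · simp [h]

lemma D_g {d : ℕ} (hd : 1 ≤ d) : S.D d (S.g d) := fun j hj => by
  rw [a_g hd, if_neg (by omega)]

lemma a_g_self {d : ℕ} (hd : 1 ≤ d) : S.a d (S.g d) = 1 := by rw [a_g hd, if_pos rfl]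

end NG

variable [Fact p.Prime]

abbrev Alg (p : ℕ) (Γ : Type) [Group Γ] := MonoidAlgebra (ZMod p) Γ

noncomputable def o (g : Γ) : Alg p Γ := MonoidAlgebra.of (ZMod p) Γ g

lemma o_mul (g h : Γ) : (o (g * h) : Alg p Γ) = o g * o h := map_mul _ _ _

lemma o_one : (o (1 : Γ) : Alg p Γ) = 1 := map_one _

lemma o_pow (g : Γ) (n : ℕ) : (o (g ^ n) : Alg p Γ) = o g ^ n := map_pow _ _ _

section lin

variable {V : Type} [AddCommGroup V] [Module (ZMod p) V]

/-- linear extension to the group algebra -/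
noncomputable def lin (f : Γ → V) : Alg p Γ →ₗ[ZMod p] V :=
  (MonoidAlgebra.basis Γ (ZMod p)).constr (ZMod p) f

lemma basis_eq (g : Γ) : MonoidAlgebra.basis Γ (ZMod p) g = o g := by
  rw [MonoidAlgebra.basis_apply]; rfl

@[simp] lemma lin_o (f : Γ → V) (g : Γ) : lin (p := p) f (o g) = f g := by
  rw [← basis_eq]; exact Module.Basis.constr_basis _ _ _ _

lemma lin_one (f : Γ → V) : lin (p := p) f 1 = f 1 := by rw [← o_one, lin_o]

lemma lin_ext {f f' : Alg p Γ →ₗ[ZMod p] V} (h : ∀ g, f (o g) = f' (o g)) : f = f' :=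
  (MonoidAlgebra.basis Γ (ZMod p)).ext fun g => by rw [basis_eq]; exact h g

lemma alg_ind {P : Alg p Γ → Prop} (h0 : P 0) (ho : ∀ g, P (o g))
    (hadd : ∀ x y, P x → P y → P (x + y)) (hs : ∀ (c : ZMod p) x, P x → P (c • x)) (x : Alg p Γ) :
    P x := by
  have : x ∈ Submodule.span (ZMod p) (Set.range (MonoidAlgebra.basis Γ (ZMod p))) := by
    rw [Module.Basis.span_eq]; trivial
  induction this using Submodule.span_induction with
  | mem x hx => obtain ⟨g, rfl⟩ := hx; rw [basis_eq]; exact ho g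
  | zero => exact h0
  | add x y _ _ hx hy => exact hadd x y hx hy
  | smul c x _ hx => exact hs c x hx

end lin

/-- The filtration of the group algebra of `U = D N` by total depth. -/
inductive F (S : NG p Γ) (N : ℕ) : ℕ → Alg p Γ → Prop
  | one : F S N 0 1
  | step {δ : ℕ} {x : Alg p Γ} {d : ℕ} {h : Γ} :
      F S N δ x → N ≤ d → S.D d h → F S N (δ + d) (x * (o h - 1))
  | mono {δ δ' : ℕ} {x : Alg p Γ} : F S N δ x → δ' ≤ δ → F S N δ' x
  | zero (δ : ℕ) : F S N δ 0
  | add {δ : ℕ} {x y : Alg p Γ} : F S N δ x → F S N δ y → F S N δ (x + y)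
  | smul {δ : ℕ} {x : Alg p Γ} (c : ZMod p) : F S N δ x → F S N δ (c • x)

variable {S : NG p Γ} {N : ℕ}

namespace F

lemma neg {δ : ℕ} {x : Alg p Γ} (h : F S N δ x) : F S N δ (-x) := by
  have := h.smul (-1); simpa using this

lemma sub {δ : ℕ} {x y : Alg p Γ} (h : F S N δ x) (h' : F S N δ y) : F S N δ (x - y) := by
  rw [sub_eq_add_neg]; exact h.add h'.neg

lemma mul {a b : ℕ} {x y : Alg p Γ} (hx : F S N a x) (hy : F S N b y) :
    F S N (a + b) (x * y) := by
  induction hy with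
  | one => simpa using hx
  | step _ hd hh ih => rw [← mul_assoc, ← add_assoc]; exact ih.step hd hh
  | mono _ hle ih => exact ih.mono (by omega)
  | zero => rw [mul_zero]; exact zero _
  | add _ _ ih ih' => rw [mul_add]; exact ih.add ih'
  | smul c _ ih => rw [mul_smul_comm]; exact ih.smul c

lemma mul' {a b c : ℕ} {x y : Alg p Γ} (hx : F S N a x) (hy : F S N b y) (h : c ≤ a + b) :
    F S N c (x * y) := (hx.mul hy).mono h

lemma of_sub {d : ℕ} {h : Γ} (hd : N ≤ d) (hh : S.D d h) : F S N d (o h - 1) := by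
  have := (one (S := S) (N := N)).step hd hh
  simpa using this

lemma of_o {h : Γ} (hh : S.D N h) : F S N 0 (o h) := by
  have := one.add ((of_sub le_rfl hh).mono (Nat.zero_le _))
  simpa using this

lemma pos {δ : ℕ} {x : Alg p Γ} (hx : F S N δ x) (hδ : 1 ≤ δ) : F S N N x := by
  induction hx with
  | one => omega
  | step hx hd hh _ => exact (hx.mono (Nat.zero_le _)).mul' (of_sub hd hh) (by omega)
  | mono _ hle ih => exact ih (by omega)
  | zero => exact zero _
  | add _ _ ih ih' => exact (ih hδ).add (ih' hδ)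
  | smul c _ ih => exact (ih hδ).smul c

lemma max {δ : ℕ} {x : Alg p Γ} (hx : F S N δ x) (hδ : 1 ≤ δ) : F S N (max δ N) x := by
  rcases le_total δ N with h | h
  · rw [max_eq_right h]; exact hx.pos hδ
  · rw [max_eq_left h]; exact hx

variable {V : Type} [AddCommGroup V] [Module (ZMod p) V]

/-- a linear map vanishing on `U` vanishes on the filtration -/
lemma kill {δ : ℕ} {x : Alg p Γ} (hx : F S N δ x) (L : Alg p Γ →ₗ[ZMod p] V)
    (hL : ∀ u, S.D N u → L (o u) = 0) : L x = 0 := by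
  induction hx generalizing L with
  | one => rw [← o_one]; exact hL 1 (NG.D_one _)
  | @step δ x d h _ hd hh ih =>
    refine ih (L ∘ₗ LinearMap.mulRight (ZMod p) (o h - 1)) ?_
    intro u hu
    simp only [LinearMap.comp_apply, LinearMap.mulRight_apply, mul_sub, mul_one, map_sub, ← o_mul]
    rw [hL u hu, hL _ (hu.mul (hh.anti hd)), sub_zero]
  | mono _ _ ih => exact ih L hL
  | zero => simp
  | add _ _ ih ih' => rw [map_add, ih L hL, ih' L hL, add_zero]
  | smul c _ ih => rw [map_smul, ih L hL, smul_zero]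

/-- filtered right actions -/
lemma act (R : Alg p Γ →ₗ[ZMod p] (V →ₗ[ZMod p] V)) (R1 : ∀ v, R 1 v = v)
    (Rmul : ∀ x y v, R (x * y) v = R y (R x v)) (𝒱 : ℕ → Submodule (ZMod p) V)
    (hanti : ∀ n n', n' ≤ n → 𝒱 n ≤ 𝒱 n') (lam : ℕ)
    (hstep : ∀ d h n v, N ≤ d → S.D d h → v ∈ 𝒱 n → R (o h - 1) v ∈ 𝒱 (n + lam * d))
    {δ : ℕ} {x : Alg p Γ} (hx : F S N δ x) {n : ℕ} {v : V} (hv : v ∈ 𝒱 n) :
    R x v ∈ 𝒱 (n + lam * δ) := by
  induction hx with
  | one => simpa [R1] using hv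
  | step _ hd hh ih =>
    rw [Rmul, mul_add, ← add_assoc]; exact hstep _ _ _ _ hd hh ih
  | mono _ hle ih => exact hanti _ _ (by gcongr) ih
  | zero => simp
  | add _ _ ih ih' => rw [map_add]; exact add_mem ih ih'
  | smul c _ ih => rw [map_smul]; exact Submodule.smul_mem _ c ih

end F

/-- augmentation -/
noncomputable def eps : Alg p Γ →ₗ[ZMod p] ZMod p := lin fun _ => 1

lemma eps_step (x : Alg p Γ) (h : Γ) : eps (x * (o h - 1)) = 0 := by
  have : (eps ∘ₗ LinearMap.mulRight (ZMod p) (o h - 1) : Alg p Γ →ₗ[ZMod p] ZMod p) = 0 := by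
    refine lin_ext fun g => ?_
    simp [mul_sub, ← o_mul, eps]
  exact LinearMap.congr_fun this x

lemma F.eps {δ : ℕ} {x : Alg p Γ} (hx : F S N δ x) (hδ : 1 ≤ δ) : eps x = 0 := by
  induction hx with
  | one => omega
  | step hx hd hh _ => exact eps_step _ _
  | mono _ hle ih => exact ih (by omega)
  | zero => simp
  | add _ _ ih ih' => rw [map_add, ih hδ, ih' hδ, add_zero]
  | smul c _ ih => rw [map_smul, ih hδ, smul_zero]

section rep

variable {V : Type} [AddCommGroup V] [Module (ZMod p) V]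

lemma lin_rep_mul (ρ : Γ → V →ₗ[ZMod p] V) (hρ : ∀ g h v, ρ (g * h) v = ρ h (ρ g v))
    (x y : Alg p Γ) (v : V) : lin (p := p) ρ (x * y) v = lin (p := p) ρ y (lin (p := p) ρ x v) := by
  induction x using alg_ind with
  | h0 => simp
  | hadd x x' hx hx' => simp [add_mul, hx, hx']
  | hs c x hx => simp [hx]
  | ho g =>
    induction y using alg_ind with
    | h0 => simp
    | hadd y y' hy hy' => simp only [mul_add, map_add, LinearMap.add_apply, hy, hy']
    | hs c y hy => simp only [mul_smul_comm, map_smul, LinearMap.smul_apply, hy]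
    | ho h => rw [← o_mul]; simp [hρ]

end rep

end Cd3
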