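import Pool.Agent.P.MP_013f39_al.A1

/-! Filtered group algebras: abstract part 2 (straightening, finite level, descent lemma). -/

namespace Cd3

variable {p : ℕ} {Γ : Type} [Group Γ] [hp : Fact p.Prime]

/-- commutator, power and level properties -/
structure Good (S : NG p Γ) (q : ℕ) : Prop where
  hq : 2 ≤ q
  comm : ∀ i j u v, 1 ≤ j → j < i → S.D i u → S.D j v →
    S.D (i + q * j) ((v * u)⁻¹ * (u * v)) ∧
      S.a (i + q * j) ((v * u)⁻¹ * (u * v)) = i * S.a i u * S.a j v
  pow : ∀ d u, 1 ≤ d → S.D d u → S.D (p * d) (u ^ p) ∧ S.a (p * d) (u ^ p) = S.a d u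
  lev : ∀ N d x, 1 ≤ N → F S N (d + 1) x → lin (S.a d) x = 0

variable {S : NG p Γ} {N q : ℕ}

variable (S) in
noncomputable def e (d : ℕ) : Alg p Γ := o (S.g d) - 1

variable (S) in
noncomputable def E (l : List ℕ) : Alg p Γ := (l.map (e S)).prod

@[simp] lemma E_nil : E S [] = 1 := rfl

@[simp] lemma E_cons (d : ℕ) (l : List ℕ) : E S (d :: l) = e S d * E S l := by simp [E]

lemma E_append (l l' : List ℕ) : E S (l ++ l') = E S l * E S l' := by simp [E]

lemma F_e (hN : 1 ≤ N) {d : ℕ} (hd : N ≤ d) : F S N d (e S d) :=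
  F.of_sub hd (NG.D_g (by omega))

lemma F_E (hN : 1 ≤ N) {l : List ℕ} (hl : ∀ d ∈ l, N ≤ d) : F S N l.sum (E S l) := by
  induction l with
  | nil => exact F.one
  | cons d l ih =>
    rw [E_cons, List.sum_cons]
    exact (F_e hN (hl d (by simp))).mul (ih fun d hd => hl d (by simp [hd]))

lemma sub_lead (hN : 1 ≤ N) {d : ℕ} (hd : N ≤ d) {h : Γ} (hh : S.D d h) :
    F S N (d + 1) (o h - 1 - S.a d h • e S d) := by
  have key : ∀ m : ℕ, ∀ h, S.D d h → S.a d h = m → F S N (d + 1) (o h - 1 - (m : ZMod p) • e S d) := by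
    intro m
    induction m with
    | zero =>
      intro h hh h0
      simpa using F.of_sub (by omega) (hh.succ (by simpa using h0))
    | succ m ih =>
      intro h hh hm
      have hg := NG.D_g (S := S) (d := d) (by omega)
      have h1 : S.D d (h * (S.g d)⁻¹) := hh.mul hg.inv
      have h2 : S.a d (h * (S.g d)⁻¹) = m := by
        rw [hg.inv.a_mul h le_rfl, hg.a_inv le_rfl, NG.a_g_self (by omega), hm]; push_cast; ring
      have h3 := ih _ h1 h2
      have h4 : F S N (d + 1) ((o (h * (S.g d)⁻¹) - 1) * e S d) :=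
        (F.of_sub hd h1).mul' (F_e hN hd) (by omega)
      have h5 : (o h : Alg p Γ) = o (h * (S.g d)⁻¹) * o (S.g d) := by rw [← o_mul]; simp
      convert h3.add h4 using 1
      rw [h5, e]; push_cast; rw [add_smul, one_smul]; noncomm_ring
  have := key (S.a d h).val h hh (by simp)
  simpa using this

section K0

variable {V : Type} [AddCommGroup V] [Module (ZMod p) V]

lemma F.mono_red (hN : 1 ≤ N) {δ : ℕ} {x : Alg p Γ} (hx : F S N δ x) (L : Alg p Γ →ₗ[ZMod p] V)
    (h1 : ∀ y, F S N (δ + 1) y → L y = 0)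
    (h2 : ∀ l : List ℕ, (∀ d ∈ l, N ≤ d) → l.sum = δ → L (E S l) = 0) : L x = 0 := by
  induction hx generalizing L with
  | one => exact h2 [] (by simp) rfl
  | @step δ x d h hx hd hh ih =>
    have h3 := sub_lead hN hd hh
    have h4 : x * (o h - 1) = x * (o h - 1 - S.a d h • e S d) + S.a d h • (x * e S d) := by
      rw [mul_sub x (o h - 1), mul_smul_comm]; abel
    rw [h4, map_add, h1 _ (hx.mul' h3 (by omega)), zero_add, map_smul]
    have := ih (L ∘ₗ LinearMap.mulRight (ZMod p) (e S d))
      (fun y hy => h1 _ (hy.mul' (F_e hN hd) (by omega)))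
      (fun l hl hs => by
        have := h2 (l ++ [d]) (by
          intro d' hd'
          rcases List.mem_append.1 hd' with h | h
          · exact hl d' h
          · simp at h; omega) (by simp [hs])
        simpa [E_append] using this)
    simp only [LinearMap.comp_apply, LinearMap.mulRight_apply] at this
    rw [this, smul_zero]
  | @mono δ δ' x hx hle ih =>
    rcases hle.eq_or_lt with rfl | hlt
    · exact ih L h1 h2
    · exact h1 _ (hx.mono hlt)
  | zero => simp
  | add _ _ ih ih' => rw [map_add, ih L h1 h2, ih' L h1 h2, add_zero]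
  | smul c _ ih => rw [map_smul, ih L h1 h2, smul_zero]

end K0

lemma F_comm_exact (G : Good S q) (hN : 1 ≤ N) {i j : ℕ} (hj : N ≤ j) (hij : j < i) :
    F S N (i + q * j + 1) (e S i * e S j - e S j * e S i - (i : ZMod p) • e S (i + q * j)) := by
  have hgi := NG.D_g (S := S) (d := i) (by omega)
  have hgj := NG.D_g (S := S) (d := j) (by omega)
  obtain ⟨h1, h2⟩ := G.comm i j _ _ (by omega) hij hgi hgj
  rw [NG.a_g_self (by omega), NG.a_g_self (by omega), mul_one, mul_one] at h2
  set c := (S.g j * S.g i)⁻¹ * (S.g i * S.g j) with hc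
  have hle : N ≤ i + q * j := by omega
  have h3 := sub_lead hN hle h1
  rw [h2] at h3
  have h4 : F S N (i + q * j + 1) ((o (S.g j * S.g i) - 1) * (o c - 1)) :=
    (F.of_sub le_rfl ((hgj.anti hj).mul (hgi.anti (by omega)))).mul' (F.of_sub hle h1) (by omega)
  have h5 : (o (S.g j * S.g i) : Alg p Γ) * o c = o (S.g i) * o (S.g j) := by
    rw [← o_mul, ← o_mul, hc, mul_inv_cancel_left]
  convert h3.add h4 using 1
  rw [sub_mul (o (S.g j * S.g i)), mul_sub (o (S.g j * S.g i)), h5, o_mul (S.g j)]
  unfold e; noncomm_ring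

lemma F_comm_deep (G : Good S q) (hN : 1 ≤ N) {i j : ℕ} (hj : N ≤ j) (hij : j < i) :
    F S N (i + q * j) (e S i * e S j - e S j * e S i) := by
  have h1 := (F_comm_exact G hN hj hij).mono (Nat.le_succ _)
  have h2 := (F_e (S := S) hN (show N ≤ i + q * j by omega)).smul (i : ZMod p)
  simpa using h1.add h2

lemma F_comm (G : Good S q) (hN : 1 ≤ N) {i j : ℕ} (hi : N ≤ i) (hj : N ≤ j) :
    F S N (i + j + 1) (e S i * e S j - e S j * e S i) := by
  have hq := G.hq
  rcases lt_trichotomy i j with h | rfl | h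
  · have := (F_comm_deep G hN hi h).neg
    rw [neg_sub] at this
    exact this.mono (by nlinarith)
  · simpa using F.zero _
  · exact (F_comm_deep G hN hj h).mono (by nlinarith)

lemma F_perm (G : Good S q) (hN : 1 ≤ N) {l l' : List ℕ} (h : l.Perm l') (hl : ∀ d ∈ l, N ≤ d) :
    F S N (l.sum + 1) (E S l - E S l') := by
  induction h with
  | nil => simpa using F.zero _
  | cons d _ ih =>
    rw [E_cons, E_cons, ← mul_sub, List.sum_cons]
    exact (F_e hN (hl d (by simp))).mul' (ih fun d hd => hl d (by simp [hd])) (by omega)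
  | swap i j l =>
    have := (F_comm G hN (hl j (by simp)) (hl i (by simp))).mul
      (F_E hN (l := l) fun d hd => hl d (by simp [hd]))
    simp only [E_cons, List.sum_cons]
    rw [sub_mul, mul_assoc, mul_assoc] at this
    exact this.mono (by omega)
  | trans h1 h2 ih ih' =>
    have h3 := ih' fun d hd => hl d (h1.mem_iff.2 hd)
    rw [← h1.sum_eq] at h3
    simpa using (ih hl).add h3

lemma F_pow (G : Good S q) (hN : 1 ≤ N) {d : ℕ} (hd : N ≤ d) :
    F S N (p * d + 1) (E S (List.replicate p d) - e S (p * d)) := by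
  have : CharP (Alg p Γ) p := charP_of_injective_algebraMap' (ZMod p) p
  have h1 : E S (List.replicate p d) = o (S.g d ^ p) - 1 := by
    unfold E
    rw [List.map_replicate, List.prod_replicate, e, sub_pow_char_of_commute _ (Commute.one_right _),
      one_pow, o_pow]
  obtain ⟨h2, h3⟩ := G.pow d _ (by omega) (NG.D_g (S := S) (d := d) (by omega))
  have hp1 := hp.out.one_le
  have := sub_lead hN (show N ≤ p * d by nlinarith) h2
  rw [h3, NG.a_g_self (by omega), one_smul] at this
  rw [h1]; exact this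

/-- the multiset of a restricted exponent vector -/
def ms {n : ℕ} (N : ℕ) (s : Fin n → Fin p) : Multiset ℕ :=
  ∑ i, Multiset.replicate (s i) (N + i)

omit hp in
lemma mem_ms {n : ℕ} {s : Fin n → Fin p} {d : ℕ} (h : d ∈ ms N s) : N ≤ d ∧ d < N + n := by
  simp only [ms, Multiset.mem_sum, Multiset.mem_replicate] at h
  obtain ⟨i, -, -, rfl⟩ := h
  have := i.2
  omega

lemma list_red {V : Type} [Zero V] (δ n : ℕ) (v : List ℕ → V)
    (hperm : ∀ l l' : List ℕ, l.Perm l' → (∀ d ∈ l, N ≤ d) → l.sum = δ → v l = v l')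
    (hpow : ∀ d l, N ≤ d → (∀ d ∈ l, N ≤ d) → p * d + l.sum = δ →
      v (List.replicate p d ++ l) = v (p * d :: l))
    (hbig : ∀ d l, N + n ≤ d → (∀ d ∈ l, N ≤ d) → d + l.sum = δ → v (d :: l) = 0)
    (hres : ∀ s : Fin n → Fin p, (ms N s).sum = δ → v (ms N s).toList = 0) :
    ∀ l : List ℕ, (∀ d ∈ l, N ≤ d) → l.sum = δ → v l = 0 := by
  have hp2 := hp.out.two_le
  intro l
  induction hlen : l.length using Nat.strong_induction_on generalizing l with
  | _ m ih =>
  intro hl hs
  by_cases h1 : ∃ d ∈ l, N + n ≤ d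
  · obtain ⟨d, hd, hd'⟩ := h1
    have hpm := List.perm_cons_erase hd
    rw [hperm _ _ hpm hl hs]
    refine hbig d _ hd' (fun d' h' => hl d' (List.mem_of_mem_erase h')) ?_
    rw [← hs, hpm.sum_eq, List.sum_cons]
  by_cases h2 : ∃ d, p ≤ l.count d
  · obtain ⟨d, hd⟩ := h2
    have hdl : d ∈ l := List.count_pos_iff.1 (by omega)
    obtain ⟨l', hl'⟩ : ∃ l', l.Perm (List.replicate p d ++ l') := by
      have := (List.replicate_sublist_iff.2 hd)
      obtain ⟨l', h⟩ := this.exists_perm_append
      exact ⟨l', h⟩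
    have hv : ∀ d ∈ l', N ≤ d := fun d' h' => hl d' (hl'.mem_iff.2 (by simp [h']))
    have hsum : p * d + l'.sum = δ := by rw [← hs, hl'.sum_eq]; simp
    rw [hperm _ _ hl' hl hs, hpow d l' (hl d hdl) hv hsum]
    refine ih _ ?_ _ rfl ?_ (by simpa using hsum)
    · rw [← hlen, hl'.length_eq]; simp; omega
    · intro d' h'
      rcases List.mem_cons.1 h' with rfl | h'
      · have := hl d hdl; nlinarith
      · exact hv d' h'
  push Not at h1 h2
  let s : Fin n → Fin p := fun i => ⟨l.count (N + i), h2 _⟩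
  have hms : ms N s = (l : Multiset ℕ) := by
    ext d
    simp only [ms, Multiset.count_sum', Multiset.count_replicate, Multiset.coe_count, s]
    by_cases hd : d ∈ l
    · have h3 := hl d hd
      have h4 := h1 d hd
      rw [Finset.sum_eq_single (⟨d - N, by omega⟩ : Fin n)]
      · simp only; rw [if_pos (by omega)]; congr 1; omega
      · intro i _ hi
        rw [if_neg]
        intro h; apply hi; ext; simp only; omega
      · simp
    · rw [List.count_eq_zero.2 hd]
      refine Finset.sum_eq_zero fun i _ => ?_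
      split_ifs with h
      · rw [h]; exact List.count_eq_zero.2 hd
      · rfl
  have hpm : l.Perm (ms N s).toList := by
    rw [← Multiset.coe_eq_coe, Multiset.coe_toList, hms]
  rw [hperm _ _ hpm hl hs]
  exact hres s (by rw [hms]; simpa using hs)

end Cd3
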