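import Pool.Agent.P.MP_013f39_al.A2

/-! Filtered group algebras: abstract part 3 (finite level, interpolation, descent lemma). -/

namespace Cd3

variable {p : ℕ} {Γ : Type} [Group Γ] [hp : Fact p.Prime]
variable {S : NG p Γ} {N q : ℕ}

section linlem
variable {V : Type} [AddCommGroup V] [Module (ZMod p) V]

lemma lin_add (f g : Γ → V) : lin (p := p) (f + g) = lin f + lin g := map_add _ _ _

lemma lin_smul (c : ZMod p) (f : Γ → V) : lin (p := p) (c • f) = c • lin f := map_smul _ _ _

lemma lin_mul_o (f : Γ → V) (x : Alg p Γ) (h : Γ) :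
    lin f (x * o h) = lin (fun g => f (g * h)) x := by
  have : lin f ∘ₗ LinearMap.mulRight (ZMod p) (o h) = lin (p := p) (fun g => f (g * h)) :=
    lin_ext fun g => by simp [← o_mul]
  exact LinearMap.congr_fun this x

lemma lin_step (f : Γ → V) (x : Alg p Γ) (h : Γ) :
    lin f (x * (o h - 1)) = lin (fun g => f (g * h) - f g) x := by
  have : lin f ∘ₗ LinearMap.mulRight (ZMod p) (o h - 1) =
      lin (p := p) (fun g => f (g * h) - f g) :=
    lin_ext fun g => by simp [mul_sub, ← o_mul]
  exact LinearMap.congr_fun this x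

end linlem

variable (S N) in
def SL (δ : ℕ) (f : Γ → ZMod p) : Prop := ∀ x, F S N δ x → lin f x = 0

lemma SL.mono {δ δ' : ℕ} {f : Γ → ZMod p} (h : SL S N δ f) (hδ : δ ≤ δ') : SL S N δ' f :=
  fun x hx => h x (hx.mono hδ)

lemma leibniz {δ : ℕ} {x : Alg p Γ} (hx : F S N δ x) : ∀ (a b : ℕ) (f g : Γ → ZMod p),
    (a + b ≤ δ ∨ a = 0 ∨ b = 0) → SL S N a f → SL S N b g → lin (f * g) x = 0 := by
  induction hx with
  | one =>
    intro a b f g hab hf hg
    rw [lin_one, Pi.mul_apply]
    have : a = 0 ∨ b = 0 := by omega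
    rcases this with rfl | rfl
    · have := hf 1 F.one; rw [lin_one] at this; rw [this, zero_mul]
    · have := hg 1 F.one; rw [lin_one] at this; rw [this, mul_zero]
  | @step δ x d h hx hd hh ih =>
    intro a b f g hab hf hg
    have e1 : (fun u => (f * g) (u * h) - (f * g) u) =
        (fun u => f (u * h) - f u) * (fun u => g (u * h)) + f * (fun u => g (u * h) - g u) := by
      ext u; simp only [Pi.mul_apply, Pi.add_apply]; ring
    rw [lin_step, e1, lin_add, LinearMap.add_apply, ih (a - d) b _ _ (by omega), ih a (b - d) _ _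
      (by omega) hf, add_zero]
    · intro y hy; rw [← lin_step]; exact hg _ ((hy.step hd hh).mono (by omega))
    · intro y hy; rw [← lin_step]; exact hf _ ((hy.step hd hh).mono (by omega))
    · intro y hy; rw [← lin_mul_o]; exact hg _ (hy.mul' (F.of_o (hh.anti hd)) (by omega))
  | mono _ hle ih => intro a b f g hab hf hg; exact ih a b f g (by omega) hf hg
  | zero => intros; simp
  | add _ _ ih ih' =>
    intro a b f g hab hf hg; rw [map_add, ih a b f g hab hf hg, ih' a b f g hab hf hg, add_zero]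
  | smul c _ ih => intro a b f g hab hf hg; rw [map_smul, ih a b f g hab hf hg, smul_zero]

variable (S N) in
/-- functions of finite level -/
def FL : Subalgebra (ZMod p) (Γ → ZMod p) where
  carrier := {f | ∃ δ, SL S N δ f}
  mul_mem' := by
    rintro f g ⟨a, hf⟩ ⟨b, hg⟩
    exact ⟨a + b, fun x hx => leibniz hx a b f g (Or.inl le_rfl) hf hg⟩
  add_mem' := by
    rintro f g ⟨a, hf⟩ ⟨b, hg⟩
    refine ⟨a + b, fun x hx => ?_⟩
    rw [lin_add, LinearMap.add_apply, hf x (hx.mono (by omega)), hg x (hx.mono (by omega)), add_zero]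
  algebraMap_mem' := by
    intro c
    refine ⟨1, fun x hx => ?_⟩
    have : algebraMap (ZMod p) (Γ → ZMod p) c = c • fun _ => 1 := by ext; simp
    rw [this, lin_smul, LinearMap.smul_apply]
    have := hx.eps le_rfl
    unfold eps at this
    rw [this, smul_zero]

variable (S N) in
def tr (n : ℕ) (g : Γ) : Fin n → ZMod p := fun i => S.a (N + i) g

lemma exists_level (G : Good S q) (hN : 1 ≤ N) (n : ℕ) :
    ∃ δ, ∀ Ψ : (Fin n → ZMod p) → ZMod p, SL S N δ (Ψ ∘ tr S N n) := by
  classical
  have h1 : ∀ t : Fin n → ZMod p, ∃ δ, SL S N δ (fun g => if tr S N n g = t then 1 else 0) := by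
    intro t
    have e1 : (fun g => if tr S N n g = t then (1 : ZMod p) else 0) =
        ∏ i : Fin n, (1 - (S.a (N + i) - algebraMap (ZMod p) (Γ → ZMod p) (t i)) ^ (p - 1)) := by
      ext g
      simp only [Finset.prod_apply, Pi.sub_apply, Pi.one_apply, Pi.pow_apply, Pi.algebraMap_apply,
        Algebra.algebraMap_self, RingHom.id_apply]
      split_ifs with h
      · refine (Finset.prod_eq_one fun i _ => ?_).symm
        have : S.a (N + i) g = t i := congrFun h i
        rw [this, sub_self, zero_pow (by have := hp.out.two_le; omega), sub_zero]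
      · obtain ⟨i, hi⟩ := Function.ne_iff.1 h
        refine (Finset.prod_eq_zero (Finset.mem_univ i) ?_).symm
        have hi' : S.a (N + i) g - t i ≠ 0 := sub_ne_zero.2 hi
        rw [ZMod.pow_card_sub_one_eq_one hi', sub_self]
    have : (fun g => if tr S N n g = t then (1 : ZMod p) else 0) ∈ FL S N := by
      rw [e1]
      refine prod_mem fun i _ => sub_mem (one_mem _) (pow_mem (sub_mem ?_ ?_) _)
      · exact ⟨N + i + 1, fun x hx => G.lev N _ x hN hx⟩
      · exact Subalgebra.algebraMap_mem _ _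
    exact this
  choose δ hδ using h1
  refine ⟨Finset.univ.sup δ, fun Ψ x hx => ?_⟩
  have e2 : Ψ ∘ tr S N n = ∑ t, Ψ t • (fun g => if tr S N n g = t then (1 : ZMod p) else 0) := by
    ext g; simp
  rw [e2]
  have e3 : ∀ (s : Finset (Fin n → ZMod p)) (f : (Fin n → ZMod p) → Γ → ZMod p),
      lin (p := p) (∑ t ∈ s, f t) = ∑ t ∈ s, lin (f t) := fun s f => map_sum _ _ _
  rw [e3, LinearMap.sum_apply]
  refine Finset.sum_eq_zero fun t _ => ?_
  rw [lin_smul, LinearMap.smul_apply, hδ t x (hx.mono (Finset.le_sup (Finset.mem_univ t))),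
    smul_zero]

lemma exists_tr (hN : 1 ≤ N) (n : ℕ) (t : Fin n → ZMod p) : ∃ u, S.D N u ∧ tr S N n u = t := by
  obtain ⟨u, hu⟩ := S.surj (fun i => if h : N ≤ i ∧ i - N < n then t ⟨i - N, h.2⟩ else 0)
    (by rw [dif_neg (by omega)])
  refine ⟨u, fun j hj => by rw [hu, dif_neg (by omega)], ?_⟩
  ext i
  rw [tr, hu, dif_pos ⟨by omega, by have := i.2; omega⟩]
  congr 1; ext; simp

lemma unif_level (G : Good S q) (hN : 1 ≤ N) (K : ℕ) : ∃ δ, ∀ f : Γ → ZMod p,
    (∀ u v, S.Eqv K u v → f u = f v) → SL S N δ f := by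
  obtain ⟨δ, hδ⟩ := exists_level G hN K
  refine ⟨δ, fun f hf x hx => ?_⟩
  choose u hu hu' using exists_tr (S := S) hN K
  have h1 := hδ (fun t => f (u t)) x hx
  have h2 := hx.kill (lin f - lin ((fun t => f (u t)) ∘ tr S N K)) (by
    intro v hv
    simp only [LinearMap.sub_apply, lin_o, Function.comp]
    rw [sub_eq_zero]
    refine hf _ _ fun i hi => ?_
    by_cases h : i < N
    · rw [hv i h, hu _ i h]
    · have := congrFun (hu' (tr S N K v)) ⟨i - N, by omega⟩
      simp only [tr] at this
      rw [show N + (i - N) = i by omega] at this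
      exact this.symm)
  rw [LinearMap.sub_apply, h1, sub_zero] at h2
  exact h2

lemma SL_of_res (G : Good S q) (hN : 1 ≤ N) {n : ℕ} (Ψ : (Fin n → ZMod p) → ZMod p) (δ1 : ℕ)
    (h : ∀ s : Fin n → Fin p, δ1 ≤ (ms N s).sum →
      lin (Ψ ∘ tr S N n) (E S (ms N s).toList) = 0) : SL S N δ1 (Ψ ∘ tr S N n) := by
  obtain ⟨δ0, hδ0⟩ := exists_level G hN n
  have key : ∀ m δ, δ1 ≤ δ → δ0 ≤ δ + m → SL S N δ (Ψ ∘ tr S N n) := by
    intro m
    induction m with
    | zero => intro δ _ h2; exact (hδ0 Ψ).mono h2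
    | succ m ih =>
      intro δ h1 h2 x hx
      have h3 := ih (δ + 1) (by omega) (by omega)
      have hperm : ∀ l l' : List ℕ, l.Perm l' → (∀ d ∈ l, N ≤ d) → l.sum = δ →
          lin (Ψ ∘ tr S N n) (E S l) = lin (Ψ ∘ tr S N n) (E S l') := by
        intro l l' hp hl hs
        rw [← sub_eq_zero, ← map_sub]
        exact h3 _ (hs ▸ F_perm G hN hp hl)
      refine hx.mono_red hN _ h3 (list_red (p := p) δ n _ hperm ?_ ?_ fun s hs => h s (by omega))
      · intro d l hd hl hs
        rw [← sub_eq_zero, ← map_sub, E_append, E_cons, ← sub_mul]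
        exact h3 _ ((F_pow G hN hd).mul' (F_E hN hl) (by omega))
      · intro d l hd hl hs
        rw [hperm _ (l ++ [d]) (List.perm_append_singleton d l).symm
          (by intro d' h'; rcases List.mem_cons.1 h' with rfl | h'; exacts [by omega, hl d' h'])
          (by simpa using hs), E_append, E_cons, E_nil, mul_one, e, lin_step]
        have : (fun g => (Ψ ∘ tr S N n) (g * S.g d) - (Ψ ∘ tr S N n) g) = (0 : ZMod p) • fun _ => 0 := by
          ext g
          simp only [Function.comp, zero_smul, Pi.zero_apply]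
          rw [sub_eq_zero]; congr 1; ext i
          exact (NG.D_g (S := S) (d := d) (by omega)).eqv_mul g _ (by have := i.2; omega)
        rw [this, lin_smul, zero_smul, LinearMap.zero_apply]
  exact key δ0 δ1 le_rfl (by omega)

lemma exists_nu (G : Good S q) (hN : 1 ≤ N) (W n : ℕ) (val : List ℕ → ZMod p) :
    ∃ ν : Alg p Γ →ₗ[ZMod p] ZMod p, (∀ y, F S N (W + 1) y → ν y = 0) ∧
      ∀ s : Fin n → Fin p, (ms N s).sum = W → ν (E S (ms N s).toList) = val (ms N s).toList := by
  let Θ : ((Fin n → ZMod p) → ZMod p) →ₗ[ZMod p] ((Fin n → Fin p) → ZMod p) :=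
    { toFun := fun Ψ s => lin (Ψ ∘ tr S N n) (E S (ms N s).toList)
      map_add' := fun Ψ Ψ' => by
        ext s
        have : (Ψ + Ψ') ∘ tr S N n = Ψ ∘ tr S N n + Ψ' ∘ tr S N n := rfl
        simp only [this, lin_add, LinearMap.add_apply, Pi.add_apply]
      map_smul' := fun c Ψ => by
        ext s
        have : (c • Ψ) ∘ tr S N n = c • (Ψ ∘ tr S N n) := rfl
        simp only [this, lin_smul, LinearMap.smul_apply, Pi.smul_apply, RingHom.id_apply] }
  have hinj : Function.Injective Θ := by
    rw [injective_iff_map_eq_zero]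
    intro Ψ hΨ
    have h1 := SL_of_res G hN Ψ 0 fun s _ => congrFun hΨ s
    ext t
    obtain ⟨u, hu, rfl⟩ := exists_tr (S := S) hN n t
    simpa using h1 _ (F.of_o hu)
  have hsurj : Function.Surjective Θ :=
    (LinearMap.injective_iff_surjective_of_finrank_eq_finrank (by simp [ZMod.card])).1 hinj
  obtain ⟨Ψ, hΨ⟩ := hsurj fun s => if (ms N s).sum = W then val (ms N s).toList else 0
  refine ⟨lin (Ψ ∘ tr S N n), SL_of_res G hN Ψ (W + 1) fun s hs => ?_, fun s hs => ?_⟩
  · have := congrFun hΨ s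
    rw [if_neg (by omega)] at this; exact this
  · have := congrFun hΨ s
    rw [if_pos hs] at this; exact this

abbrev Bil (p : ℕ) (Γ : Type) [Group Γ] [Fact p.Prime] :=
  Alg p Γ →ₗ[ZMod p] Alg p Γ →ₗ[ZMod p] ZMod p

variable (S N) in
def Lev (η : Bil p Γ) (W : ℕ) : Prop :=
  ∀ a b x y, 1 ≤ a → 1 ≤ b → W < a + b → F S N a x → F S N b y → η x y = 0

variable (p N) in
def Letter (d : ℕ) : Prop := ∀ d', d = p * d' → d' < N

lemma sum_pos (hN : 1 ≤ N) {l : List ℕ} (hl : ∀ d ∈ l, N ≤ d) (h : l ≠ []) : 1 ≤ l.sum := by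
  obtain ⟨d, l, rfl⟩ := List.exists_cons_of_ne_nil h
  have := hl d (by simp)
  simp; omega

open Classical in
variable (S N) in
noncomputable def val (η : Bil p Γ) : List ℕ → ZMod p
  | [] => 0
  | [d] => if p ∣ d ∧ N ≤ d / p then η (e S (d / p)) (E S (List.replicate (p - 1) (d / p))) else 0
  | d :: d' :: l => η (e S d) (E S (d' :: l))

lemma val_cons (η : Bil p Γ) (d : ℕ) {l : List ℕ} (h : l ≠ []) :
    val S N η (d :: l) = η (e S d) (E S l) := by
  obtain ⟨d', l, rfl⟩ := List.exists_cons_of_ne_nil h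
  rfl

theorem descent (G : Good S q) (hN : 1 ≤ N) {W : ℕ} (η : Bil p Γ) (hL : Lev S N η W)
    (hd : ∀ a b c x y z, 1 ≤ a → 1 ≤ b → 1 ≤ c → W ≤ a + b + c → F S N a x → F S N b y →
      F S N c z → η (x * y) z = η x (y * z))
    (hsym : ∀ i j, N ≤ i → N ≤ j → i + j = W → Letter p N i → Letter p N j →
      η (e S i) (e S j) = η (e S j) (e S i)) :
    ∃ ν : Alg p Γ →ₗ[ZMod p] ZMod p, ∀ a b x y, 1 ≤ a → 1 ≤ b → W ≤ a + b → F S N a x →
      F S N b y → η x y = ν (x * y) := by
  have hp2 := hp.out.two_le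
  have congR : ∀ a b x y y', 1 ≤ a → W ≤ a + b → F S N a x → F S N (b + 1) (y - y') →
      η x y = η x y' := by
    intro a b x y y' ha hW hx hy
    rw [← sub_eq_zero, ← map_sub]
    exact hL a (b + 1) _ _ ha (by omega) (by omega) hx hy
  have congL : ∀ a b x x' y, 1 ≤ b → W ≤ a + b → F S N (a + 1) (x - x') → F S N b y →
      η x y = η x' y := by
    intro a b x x' y hb hW hx hy
    rw [← sub_eq_zero, ← LinearMap.sub_apply, ← map_sub]
    exact hL (a + 1) b _ _ (by omega) hb (by omega) hx hy
  have swap : ∀ i j l, N ≤ i → N ≤ j → (∀ d ∈ l, N ≤ d) → l ≠ [] → i + j + l.sum = W →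
      η (e S i) (E S (j :: l)) = η (e S j) (E S (i :: l)) := by
    intro i j l hi hj hl hne hs
    have h1 := sum_pos hN hl hne
    rw [E_cons, E_cons, ← hd i j l.sum _ _ _ (by omega) (by omega) h1 (by omega) (F_e hN hi)
      (F_e hN hj) (F_E hN hl), ← hd j i l.sum _ _ _ (by omega) (by omega) h1 (by omega) (F_e hN hj)
      (F_e hN hi) (F_E hN hl)]
    exact congL (i + j) l.sum _ _ _ h1 (by omega) (F_comm G hN hi hj) (F_E hN hl)
  have hrep : ∀ d : ℕ, List.replicate p d = d :: List.replicate (p - 1) d := by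
    intro d
    conv_lhs => rw [show p = (p - 1) + 1 by omega, List.replicate_succ]
  have hne : ∀ d : ℕ, List.replicate (p - 1) d ≠ [] := by
    intro d h; rw [List.replicate_eq_nil_iff] at h; omega
  have hrv : ∀ d, N ≤ d → ∀ d' ∈ List.replicate (p - 1) d, N ≤ d' := by
    intro d hd d' h; rw [List.eq_of_mem_replicate h]; exact hd
  have hrs : ∀ d : ℕ, d + (List.replicate (p - 1) d).sum = p * d := by
    intro d; rw [← List.sum_cons, ← hrep]; simp
  have symN : ∀ d j, N ≤ d → N ≤ j → p * d + j = W →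
      η (e S (p * d)) (e S j) = η (e S j) (e S (p * d)) := by
    intro d j hd' hj hs
    have h1 := sum_pos hN (hrv d hd') (hne d)
    have h2 := hrs d
    have h3 := F_pow G hN hd'
    rw [← congL (p * d) j _ _ _ (by omega) (by omega) h3 (F_e hN hj),
      ← congR j (p * d) _ _ _ (by omega) (by omega) (F_e hN hj) h3, hrep, ← swap d j _ hd' hj
        (hrv d hd') (hne d) (by omega), E_cons, hd d _ j _ _ _ (by omega) h1 (by omega) (by omega)
        (F_e hN hd') (F_E hN (hrv d hd')) (F_e hN hj)]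
    have h4 := F_perm G hN (List.perm_append_singleton j (List.replicate (p - 1) d)) (by
      intro d' h'
      rcases List.mem_append.1 h' with h | h
      · exact hrv d hd' d' h
      · simp at h; omega)
    rw [E_append, E_cons, E_nil, mul_one] at h4
    refine congR d _ _ _ _ (by omega) ?_ (F_e hN hd') h4
    rw [List.sum_append]; simp only [List.sum_cons, List.sum_nil]; omega
  have sym : ∀ i j, N ≤ i → N ≤ j → i + j = W → η (e S i) (e S j) = η (e S j) (e S i) := by
    intro i j hi hj hs
    by_cases h1 : Letter p N i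
    · by_cases h2 : Letter p N j
      · exact hsym i j hi hj hs h1 h2
      · simp only [Letter, not_forall, not_lt] at h2
        obtain ⟨d, rfl, h⟩ := h2
        exact (symN d i h hi (by omega)).symm
    · simp only [Letter, not_forall, not_lt] at h1
      obtain ⟨d, rfl, h⟩ := h1
      exact symN d j h hj hs
  have vperm : ∀ l l' : List ℕ, l.Perm l' → (∀ d ∈ l, N ≤ d) → l.sum = W →
      val S N η l = val S N η l' := by
    intro l l' h
    induction h with
    | nil => intros; rfl
    | @cons d l l' h _ =>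
      intro hl hs
      by_cases h0 : l = []
      · subst h0; rw [h.nil_eq]
      · have h0' : l' ≠ [] := fun h' => h0 (by subst h'; exact h.eq_nil)
        rw [val_cons _ _ h0, val_cons _ _ h0']
        have := hl d (by simp)
        exact congR d l.sum _ _ _ (by omega) (by simp at hs; omega) (F_e hN this)
          (F_perm G hN h fun d hd => hl d (by simp [hd]))
    | swap i j l =>
      intro hl hs
      rw [val_cons _ _ (List.cons_ne_nil _ _), val_cons _ _ (List.cons_ne_nil _ _)]
      by_cases h0 : l = []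
      · subst h0
        simp only [E_cons, E_nil, mul_one]
        exact sym _ _ (hl _ (by simp)) (hl _ (by simp)) (by simpa using hs)
      · exact swap _ _ _ (hl _ (by simp)) (hl _ (by simp)) (fun d hd => hl d (by simp [hd])) h0
          (by simp at hs; omega)
    | trans h1 h2 ih ih' =>
      intro hl hs
      rw [ih hl hs, ih' (fun d hd => hl d (h1.mem_iff.2 hd)) (by rw [← h1.sum_eq, hs])]
  have vpow : ∀ d l, N ≤ d → (∀ d ∈ l, N ≤ d) → p * d + l.sum = W →
      val S N η (List.replicate p d ++ l) = val S N η (p * d :: l) := by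
    intro d l hd' hl hs
    rw [hrep, List.cons_append, val_cons _ _ (by simp [hne d])]
    by_cases h0 : l = []
    · subst h0
      have : p * d / p = d := Nat.mul_div_cancel_left d (by omega)
      simp only [val, this, List.append_nil]
      rw [if_pos ⟨dvd_mul_right _ _, hd'⟩]
    · have h1 := sum_pos hN (hrv d hd') (hne d)
      have h2 := hrs d
      have h3 := sum_pos hN hl h0
      rw [val_cons _ _ h0, E_append, ← hd d _ l.sum _ _ _ (by omega) h1 h3 (by omega)
        (F_e hN hd') (F_E hN (hrv d hd')) (F_E hN hl), ← E_cons, ← hrep]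
      exact congL (p * d) l.sum _ _ _ h3 (by omega) (F_pow G hN hd') (F_E hN hl)
  obtain ⟨ν, hν1, hν2⟩ := exists_nu G hN W (W + 1) (val S N η)
  have hν : ∀ l : List ℕ, (∀ d ∈ l, N ≤ d) → l.sum = W → ν (E S l) - val S N η l = 0 := by
    refine list_red (p := p) W (W + 1) (fun l => ν (E S l) - val S N η l) ?_ ?_ ?_ ?_
    · intro l l' h hl hs
      rw [vperm l l' h hl hs]; congr 1
      rw [← sub_eq_zero, ← map_sub]
      exact hν1 _ (hs ▸ F_perm G hN h hl)
    · intro d l hd' hl hs
      rw [vpow d l hd' hl hs]; congr 1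
      rw [← sub_eq_zero, ← map_sub, E_append, E_cons, ← sub_mul]
      exact hν1 _ ((F_pow G hN hd').mul' (F_E hN hl) (by omega))
    · intro d l hd' hl hs; omega
    · intro s hs; rw [hν2 s hs, sub_self]
  refine ⟨ν, fun a b x y ha hb hW hx hy => ?_⟩
  rcases hW.eq_or_lt with hW | hW
  swap
  · rw [hL a b x y ha hb hW hx hy, hν1 _ (hx.mul' hy hW)]
  rw [← sub_eq_zero]
  refine hx.mono_red hN (η.flip y - ν ∘ₗ LinearMap.mulRight (ZMod p) y) ?_ ?_
  · intro x' hx'
    simp only [LinearMap.sub_apply, LinearMap.flip_apply, LinearMap.comp_apply,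
      LinearMap.mulRight_apply]
    rw [hL (a + 1) b _ _ (by omega) hb (by omega) hx' hy, hν1 _ (hx'.mul' hy (by omega)), sub_zero]
  intro l1 hl1 hs1
  have hx1 := F_E (S := S) hN hl1
  rw [hs1] at hx1
  refine hy.mono_red hN (η (E S l1) - ν ∘ₗ LinearMap.mulLeft (ZMod p) (E S l1)) ?_ ?_
  · intro y' hy'
    simp only [LinearMap.sub_apply, LinearMap.comp_apply, LinearMap.mulLeft_apply]
    rw [hL a (b + 1) _ _ ha (by omega) (by omega) hx1 hy', hν1 _ (hx1.mul' hy' (by omega)), sub_zero]
  intro l2 hl2 hs2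
  simp only [LinearMap.sub_apply, LinearMap.comp_apply, LinearMap.mulLeft_apply]
  have h1 := hν (l1 ++ l2) (by
    intro d h; rcases List.mem_append.1 h with h | h; exacts [hl1 d h, hl2 d h]) (by simp; omega)
  have h2 : l2 ≠ [] := by rintro rfl; simp at hs2; omega
  obtain ⟨d, l, rfl⟩ := List.exists_cons_of_ne_nil (l := l1) (by rintro rfl; simp at hs1; omega)
  rw [E_append, List.cons_append, val_cons _ _ (by simp [h2]), sub_eq_zero] at h1
  rw [h1, sub_eq_zero, E_append, E_cons]
  by_cases h0 : l = []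
  · subst h0; simp
  · have hl : ∀ d ∈ l, N ≤ d := fun d h => hl1 d (by simp [h])
    have := hl1 d (by simp)
    exact hd d l.sum l2.sum _ _ _ (by omega) (sum_pos hN hl h0) (by omega) (by simp at hs1; omega)
      (F_e hN this) (F_E hN hl) (F_E hN hl2)

end Cd3
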