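import Pool.Agent.P.MP_013f39_al.D2

/-! Power series: the substitution `y ↦ y v(y)^q` and its effect on coefficients. -/

namespace Cd3

open PowerSeries

variable {p : ℕ} [hp : Fact p.Prime]

abbrev PS (p : ℕ) := PowerSeries (ZMod p)

lemma frob (s : ℕ) (f : PS p) : f ^ p ^ s = expand (p ^ s) (pow_ne_zero s hp.out.ne_zero) f := by
  have h := MvPowerSeries.map_iterateFrobenius_expand p hp.out.ne_zero f s
  have h2 : iterateFrobenius (ZMod p) p s = RingHom.id _ := by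
    ext x; simp [iterateFrobenius_def, ZMod.pow_card_pow]
  rw [h2, MvPowerSeries.map_id] at h
  exact h.symm

lemma coeff_lead {a b : ℕ} {f g : PS p} (hf : X ^ a ∣ f) (hg : X ^ b ∣ g) :
    coeff (a + b) (f * g) = coeff a f * coeff b g := by
  obtain ⟨f, rfl⟩ := hf
  obtain ⟨g, rfl⟩ := hg
  have e : X ^ a * f * (X ^ b * g) = X ^ (a + b) * (f * g) := by ring
  have h1 := coeff_X_pow_mul (f * g) (a + b) 0
  have h2 := coeff_X_pow_mul f a 0
  have h3 := coeff_X_pow_mul g b 0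
  rw [zero_add] at h1 h2 h3
  rw [e, h1, h2, h3]; simp

lemma dvd_mul_ord {a b c : ℕ} {f g : PS p} (hf : X ^ a ∣ f) (hg : X ^ b ∣ g) (h : c ≤ a + b) :
    X ^ c ∣ f * g := (pow_dvd_pow X h).trans (by rw [pow_add]; exact mul_dvd_mul hf hg)

lemma ord_mono {a c : ℕ} {f : PS p} (hf : X ^ a ∣ f) (h : c ≤ a) : X ^ c ∣ f :=
  (pow_dvd_pow X h).trans hf

lemma coeff_ord {a i : ℕ} {f : PS p} (hf : X ^ a ∣ f) (h : i < a) : coeff i f = 0 :=
  X_pow_dvd_iff.1 hf i h

lemma pow_sub_one {c : ℕ} (hc : 1 ≤ c) {h : PS p} (hh : X ^ c ∣ h - 1) (m : ℕ) :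
    X ^ c ∣ h ^ m - 1 ∧ coeff c (h ^ m - 1) = (m : ZMod p) * coeff c (h - 1) := by
  induction m with
  | zero => simp
  | succ m ih =>
    have e : h ^ (m + 1) - 1 = (h ^ m - 1) * (h - 1) + (h ^ m - 1) + (h - 1) := by ring
    have h1 : X ^ (c + 1) ∣ (h ^ m - 1) * (h - 1) := dvd_mul_ord ih.1 hh (by omega)
    rw [e]
    refine ⟨((ord_mono h1 (by omega)).add ih.1).add hh, ?_⟩
    rw [map_add, map_add, coeff_ord h1 (by omega), ih.2]; push_cast; ring

variable (r : ℕ)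

noncomputable def sig (v : PS p) : PS p := X * v ^ p ^ r

lemma sig_has (v : PS p) : HasSubst (sig r v) :=
  HasSubst.of_constantCoeff_zero' (by simp [sig])

noncomputable def act (v : PS p) : PS p →ₐ[ZMod p] PS p := substAlgHom (sig_has r v)

lemma act_eq (v f : PS p) : act r v f = f.subst (sig r v) := by
  rw [act, coe_substAlgHom]

lemma act_X (v : PS p) : act r v X = sig r v := substAlgHom_X _

lemma act_one (f : PS p) : act r 1 f = f := by rw [act_eq]; simp [sig]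

lemma act_act (u v f : PS p) : act r (v * act r v u) f = act r v (act r u f) := by
  rw [act_eq r v (act r u f), act_eq r u, subst_comp_subst_apply (sig_has r u) (sig_has r v),
    act_eq, ← act_eq r v (sig r u)]
  congr 1
  rw [sig, sig, map_mul, map_pow, act_X, sig, mul_pow, mul_assoc]

lemma coeff_act (v f : PS p) (W : ℕ) : coeff W (act r v f) =
    ∑ n ∈ Finset.range (W + 1), coeff n f * coeff (W - n) (v ^ (p ^ r * n)) := by
  rw [act_eq, coeff_subst' (sig_has r v), finsum_eq_sum_of_support_subset (s := Finset.range (W + 1))]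
  · refine Finset.sum_congr rfl fun n hn => ?_
    rw [sig, mul_pow, coeff_X_pow_mul', if_pos (by simp at hn; omega), ← pow_mul, smul_eq_mul]
  · intro n hn
    by_contra h
    apply hn
    simp only [Finset.coe_range, Set.mem_Iio] at h
    simp only [sig, mul_pow]
    rw [coeff_X_pow_mul', if_neg (by omega), smul_zero]

lemma coeff_act_sub (v f : PS p) (W : ℕ) : coeff W (act r v f - f) =
    ∑ n ∈ Finset.range (W + 1), coeff n f * coeff (W - n) (v ^ (p ^ r * n) - 1) := by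
  simp only [map_sub, coeff_act, mul_sub, Finset.sum_sub_distrib]
  congr 1
  rw [Finset.sum_eq_single W]
  · simp
  · intro n hn hne
    rw [coeff_one, if_neg (by simp at hn; omega), mul_zero]
  · simp

lemma act_ord (v : PS p) {n : ℕ} {f : PS p} (hf : X ^ n ∣ f) : X ^ n ∣ act r v f := by
  obtain ⟨f, rfl⟩ := hf
  rw [map_mul, map_pow, act_X, sig, mul_pow, mul_assoc]
  exact dvd_mul_right _ _

lemma pow_expand (h : PS p) (s m : ℕ) : h ^ (p ^ r * (p ^ s * m)) - 1 =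
    expand (p ^ (r + s)) (pow_ne_zero _ hp.out.ne_zero) (h ^ m - 1) := by
  rw [map_sub, map_one, ← frob, ← pow_mul, pow_add]; congr 2; ring

lemma coeff_pow_top {c : ℕ} (hc : 1 ≤ c) {h : PS p} (hh : X ^ c ∣ h - 1) (s m : ℕ) :
    coeff (p ^ r * p ^ s * c) (h ^ (p ^ r * (p ^ s * m)) - 1) =
      (m : ZMod p) * coeff c (h - 1) := by
  rw [pow_expand, ← pow_add, coeff_expand_mul, (pow_sub_one hc hh m).2]

lemma term_ne {c : ℕ} (hc : 1 ≤ c) {h : PS p} (hh : X ^ c ∣ h - 1) {n j : ℕ}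
    (h0 : coeff j (h ^ (p ^ r * n) - 1) ≠ 0) :
    ∃ s, p ^ s ∣ n ∧ ¬ p ^ (s + 1) ∣ n ∧ p ^ r * p ^ s ∣ j ∧ p ^ r * p ^ s * c ≤ j := by
  have hn : n ≠ 0 := by rintro rfl; simp at h0
  obtain ⟨⟨m, hm⟩, h2⟩ := val_spec (p := p) hn
  refine ⟨_, ⟨m, hm⟩, h2, ?_⟩
  rw [hm, pow_expand, coeff_expand] at h0
  rw [← pow_add]
  split_ifs at h0 with h3
  · refine ⟨h3, ?_⟩
    obtain ⟨j', rfl⟩ := h3
    rw [Nat.mul_div_cancel_left _ (Nat.pos_of_ne_zero (pow_ne_zero _ hp.out.ne_zero))] at h0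
    refine Nat.mul_le_mul_left _ ?_
    by_contra h4
    exact h0 (coeff_ord (pow_sub_one hc hh m).1 (by omega))
  · exact absurd rfl h0

lemma act_sub_ord {c : ℕ} (hc : 1 ≤ c) {h : PS p} (hh : X ^ c ∣ h - 1) {n : ℕ} {f : PS p}
    (hf : X ^ n ∣ f) : X ^ (n + p ^ r * c) ∣ act r h f - f := by
  rw [X_pow_dvd_iff]
  intro W hW
  rw [coeff_act_sub]
  refine Finset.sum_eq_zero fun n' hn' => ?_
  by_cases h1 : n' < n
  · rw [coeff_ord hf h1, zero_mul]
  by_contra h2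
  obtain ⟨s, -, -, -, h3⟩ := term_ne r hc hh (right_ne_zero_of_mul h2)
  have : p ^ r * 1 * c ≤ p ^ r * p ^ s * c := by
    gcongr; exact Nat.one_le_pow _ _ hp.out.pos
  simp at hn'; rw [mul_one] at this; omega

lemma act_sub_top {c : ℕ} (hc : 1 ≤ c) {h : PS p} (hh : X ^ c ∣ h - 1) {n : ℕ} {f : PS p}
    (hf : X ^ n ∣ f) :
    coeff (n + p ^ r * c) (act r h f - f) = (n : ZMod p) * coeff n f * coeff c (h - 1) := by
  rw [coeff_act_sub, Finset.sum_eq_single n]
  · have := coeff_pow_top r hc hh 0 n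
    simp only [pow_zero, one_mul, mul_one] at this
    rw [Nat.add_sub_cancel_left, this]; ring
  · intro n' hn' hne
    by_cases h1 : n' < n
    · rw [coeff_ord hf h1, zero_mul]
    by_contra h2
    obtain ⟨s, -, -, -, h3⟩ := term_ne r hc hh (right_ne_zero_of_mul h2)
    have : p ^ r * 1 * c ≤ p ^ r * p ^ s * c := by
      gcongr; exact Nat.one_le_pow _ _ hp.out.pos
    simp at hn'; rw [mul_one] at this; omega
  · intro h; simp at h

variable {r}

lemma term_val (hr : 1 ≤ r) {c : ℕ} (hc : 1 ≤ c) {h : PS p} (hh : X ^ c ∣ h - 1) {n W s : ℕ}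
    (hn : n ≤ W) (h1 : p ^ s ∣ W) (h2 : ¬ p ^ (s + 1) ∣ W)
    (h0 : coeff (W - n) (h ^ (p ^ r * n) - 1) ≠ 0) :
    p ^ s ∣ n ∧ ¬ p ^ (s + 1) ∣ n ∧ n + p ^ r * p ^ s * c ≤ W := by
  obtain ⟨s', h3, h4, ⟨l, hl⟩, h5⟩ := term_ne r hc hh h0
  have hpq : p ∣ p ^ r := dvd_pow_self p (by omega)
  have hW : W = n + p ^ r * p ^ s' * l := by omega
  have e1 := val_eq h1 h2
  have e2 := val_eq (hW ▸ (val_shift hpq l).1.2 h3) (hW ▸ mt (val_shift hpq l).2.1 h4)
  obtain rfl : s = s' := by omega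
  exact ⟨h3, h4, by omega⟩

lemma act_sub_val (hr : 1 ≤ r) {c : ℕ} (hc : 1 ≤ c) {h : PS p} (hh : X ^ c ∣ h - 1) {n s : ℕ}
    {f : PS p} (hf : ∀ m < n, p ^ s ∣ m → ¬ p ^ (s + 1) ∣ m → coeff m f = 0) :
    ∀ m < n + p ^ r * p ^ s * c, p ^ s ∣ m → ¬ p ^ (s + 1) ∣ m → coeff m (act r h f - f) = 0 := by
  intro W hW h1 h2
  rw [coeff_act_sub]
  refine Finset.sum_eq_zero fun n' hn' => ?_
  by_contra h3
  obtain ⟨h4, h5, h6⟩ := term_val hr hc hh (by simp at hn'; omega) h1 h2 (right_ne_zero_of_mul h3)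
  exact left_ne_zero_of_mul h3 (hf n' (by omega) h4 h5)

lemma act_sub_val_top (hr : 1 ≤ r) {c : ℕ} (hc : 1 ≤ c) {h : PS p} (hh : X ^ c ∣ h - 1)
    {n s m : ℕ} (hn : n = p ^ s * m) (hm : ¬ p ∣ m) {f : PS p} (hf : X ^ n ∣ f) :
    coeff (n + p ^ r * p ^ s * c) (act r h f - f) =
      (m : ZMod p) * coeff n f * coeff c (h - 1) := by
  have hpq : p ∣ p ^ r := dvd_pow_self p (by omega)
  have h1 : p ^ s ∣ n := ⟨m, hn⟩
  have h2 : ¬ p ^ (s + 1) ∣ n := by
    rw [hn, pow_succ]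
    exact fun h => hm (Nat.dvd_of_mul_dvd_mul_left (Nat.pos_of_ne_zero
      (pow_ne_zero _ hp.out.ne_zero)) h)
  rw [coeff_act_sub, Finset.sum_eq_single n]
  · rw [Nat.add_sub_cancel_left]
    conv_lhs => enter [2, 2]; rw [hn]
    rw [coeff_pow_top r hc hh s m]; ring
  · intro n' hn' hne
    by_cases h3 : n' < n
    · rw [coeff_ord hf h3, zero_mul]
    by_contra h4
    obtain ⟨-, -, h6⟩ := term_val hr hc hh (by simp at hn'; omega) ((val_shift hpq c).1.2 h1)
      (mt (val_shift hpq c).2.1 h2) (right_ne_zero_of_mul h4)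
    omega
  · intro h; simp at h

/-- multiply the coefficients by a function of the exponent modulo `q` -/
noncomputable def diag {q : ℕ} (φ : ZMod q → ZMod p) : PS p →ₗ[ZMod p] PS p where
  toFun f := mk fun i => φ i * coeff i f
  map_add' f g := by ext; simp [mul_add]
  map_smul' c f := by ext; simp [mul_left_comm]

@[simp] lemma coeff_diag {q : ℕ} (φ : ZMod q → ZMod p) (f : PS p) (i : ℕ) :
    coeff i (diag φ f) = φ i * coeff i f := by simp [diag]

lemma diag_ord {q : ℕ} (φ : ZMod q → ZMod p) {n : ℕ} {f : PS p} (hf : X ^ n ∣ f) :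
    X ^ n ∣ diag φ f := X_pow_dvd_iff.2 fun m hm => by rw [coeff_diag, coeff_ord hf hm, mul_zero]

lemma act_diag (φ : ZMod (p ^ r) → ZMod p) (v f : PS p) :
    act r v (diag φ f) = diag φ (act r v f) := by
  ext W
  rw [coeff_diag, coeff_act, coeff_act, Finset.mul_sum]
  refine Finset.sum_congr rfl fun n hn => ?_
  by_cases h : p ^ r ∣ W - n
  · have : (n : ZMod (p ^ r)) = W := by
      obtain ⟨l, hl⟩ := h
      obtain rfl : W = n + p ^ r * l := by simp at hn; omega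
      rw [Nat.cast_add, Nat.cast_mul, ZMod.natCast_self, zero_mul, add_zero]
    rw [coeff_diag, this, mul_assoc]
  · rw [mul_comm (p ^ r), pow_mul, frob, coeff_expand_of_not_dvd _ _ _ h]; simp

end Cd3
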