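import Pool.Agent.P.MP_013f39_al.B1

/-! The group of series `u` with constant term one under `u * v = v(y) u(y v(y)^q)`. -/

namespace Cd3

open PowerSeries

variable {p : ℕ} [hp : Fact p.Prime] {r : ℕ}

lemma cc_act (v f : PS p) : constantCoeff (act r v f) = constantCoeff f := by
  rw [← coeff_zero_eq_constantCoeff_apply, coeff_act]; simp

@[ext] structure GG (p r : ℕ) [Fact p.Prime] where
  val : PS p
  cc : constantCoeff val = 1

noncomputable instance : Mul (GG p r) :=
  ⟨fun u v => ⟨v.val * act r v.val u.val, by rw [map_mul, cc_act, u.cc, v.cc, one_mul]⟩⟩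

noncomputable instance : One (GG p r) := ⟨⟨1, by simp⟩⟩

lemma mul_val (u v : GG p r) : (u * v).val = v.val * act r v.val u.val := rfl

lemma one_val : (1 : GG p r).val = 1 := rfl

lemma exists_inv (v : GG p r) : ∃ u : GG p r, u * v = 1 := by
  have h0 : constantCoeff (sig r v.val) = 0 := by simp [sig]
  have h1 : IsUnit (coeff 1 (sig r v.val)) := by
    rw [sig, coeff_succ_X_mul, coeff_zero_eq_constantCoeff_apply, map_pow, v.cc]; simp
  have h2 : act r v.val (v.val⁻¹.subst ((sig r v.val).substInvOfIsUnit h1)) = v.val⁻¹ := by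
    rw [act_eq, subst_comp_subst_apply (HasSubst.substInvOfIsUnit _ h1) (sig_has r _),
      subst_substInvOfIsUnit_left _ h0 h1, X_subst]
  refine ⟨⟨v.val⁻¹.subst ((sig r v.val).substInvOfIsUnit h1), ?_⟩, ?_⟩
  · rw [← cc_act (r := r) v.val, h2, constantCoeff_inv, v.cc, inv_one]
  · ext1
    rw [mul_val, h2, one_val, PowerSeries.mul_inv_cancel _ (by rw [v.cc]; exact one_ne_zero)]

noncomputable instance : _root_.Inv (GG p r) := ⟨fun v => Classical.choose (exists_inv v)⟩

noncomputable instance : Group (GG p r) :=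
  Group.ofLeftAxioms
    (fun u v z => by ext1; simp only [mul_val, map_mul, act_act, mul_assoc])
    (fun u => by ext1; simp [mul_val, one_val])
    (fun v => Classical.choose_spec (exists_inv v))

lemma GG.ord1 (u : GG p r) : X ^ 1 ∣ u.val - 1 := by
  rw [pow_one, X_dvd_iff, map_sub, u.cc]; simp

lemma act_sub_one (v f : PS p) : act r v (f - 1) - (f - 1) = act r v f - f := by
  rw [map_sub, map_one]; ring

lemma qle (hr : 1 ≤ r) : 2 ≤ p ^ r := hp.out.two_le.trans (Nat.le_self_pow (by omega) p)

noncomputable def SS (p : ℕ) [Fact p.Prime] (r : ℕ) : NG p (GG p r) where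
  a i u := coeff i (u.val - 1)
  a_zero u := coeff_ord u.ord1 (by omega)
  a_one i := by simp [one_val]
  mulR d c x i hc hi := by
    have hq : 1 ≤ p ^ r := Nat.one_le_pow _ _ (Fact.out : p.Prime).pos
    rcases Nat.eq_zero_or_pos i with rfl | hi0
    · simp only [coeff_ord (GG.ord1 _) zero_lt_one, add_zero]
    have hc' : X ^ d ∣ c.val - 1 := X_pow_dvd_iff.2 hc
    have e : (x * c).val - 1 = (x.val - 1) + (c.val - 1) + (c.val - 1) * act r c.val (x.val - 1) +
        (act r c.val (x.val - 1) - (x.val - 1)) := by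
      rw [mul_val, map_sub, map_one]; ring
    have h1 := act_sub_ord r (by omega) hc' x.ord1
    rw [e, map_add, map_add, map_add, coeff_ord (dvd_mul_ord hc' (act_ord r _ x.ord1) le_rfl)
      (by omega), coeff_ord h1 (by nlinarith), add_zero, add_zero]
  mulL d c x i hc hi := by
    have hq : 1 ≤ p ^ r := Nat.one_le_pow _ _ (Fact.out : p.Prime).pos
    have hc' : X ^ d ∣ c.val - 1 := X_pow_dvd_iff.2 hc
    have e : (c * x).val - 1 = (x.val - 1) + (c.val - 1) + (x.val - 1) * act r x.val (c.val - 1) +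
        (act r x.val (c.val - 1) - (c.val - 1)) := by
      rw [mul_val, map_sub, map_one]; ring
    have h1 := act_sub_ord r le_rfl x.ord1 hc'
    rw [e, map_add, map_add, map_add, coeff_ord (dvd_mul_ord x.ord1 (act_ord r _ hc') le_rfl)
      (by omega), coeff_ord h1 (by omega), add_zero, add_zero]
  surj t ht := ⟨⟨1 + mk t, by simp [ht]⟩, fun i => by simp⟩

lemma SS_a (i : ℕ) (u : GG p r) : (SS p r).a i u = coeff i (u.val - 1) := rfl

lemma NG.D.ord {d : ℕ} {u : GG p r} (h : (SS p r).D d u) : X ^ d ∣ u.val - 1 := X_pow_dvd_iff.2 h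

/-- series of order at least `n` -/
def OS (p : ℕ) [Fact p.Prime] (n : ℕ) : Submodule (ZMod p) (PS p) where
  carrier := {f | X ^ n ∣ f}
  zero_mem' := dvd_zero _
  add_mem' := dvd_add
  smul_mem' c f h := by
    change X ^ n ∣ c • f
    rw [smul_eq_C_mul]; exact Dvd.dvd.mul_left h _

/-- the twisted action -/
noncomputable def tw (h : GG p r) : PS p →ₗ[ZMod p] PS p :=
  LinearMap.mulLeft (ZMod p) h.val ∘ₗ (act r h.val).toLinearMap

lemma tw_apply (h : GG p r) (f : PS p) : tw h f = h.val * act r h.val f := rfl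

lemma tw_mul (g h : GG p r) (f : PS p) : tw (g * h) f = tw h (tw g f) := by
  simp only [tw_apply, mul_val, act_act, map_mul, mul_assoc]

lemma tw_step (h : GG p r) (f : PS p) : lin (p := p) tw (o h - 1) f =
    (h.val - 1) * act r h.val f + (act r h.val f - f) := by
  rw [map_sub, lin_o, lin_one, LinearMap.sub_apply, tw_apply, tw_apply, one_val, act_one]; ring

lemma tw_ord (hr : 1 ≤ r) {d n : ℕ} (hd : 1 ≤ d) {h : GG p r} (hh : (SS p r).D d h) {f : PS p}
    (hf : X ^ n ∣ f) : X ^ (n + d) ∣ lin (p := p) tw (o h - 1) f ∧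
      coeff (n + d) (lin (p := p) tw (o h - 1) f) = (SS p r).a d h * coeff n f := by
  have hq := qle (p := p) hr
  have h1 := act_sub_ord r hd hh.ord hf
  have h2 : 2 * d ≤ p ^ r * d := Nat.mul_le_mul_right _ hq
  rw [tw_step]
  refine ⟨(dvd_mul_ord hh.ord (act_ord r _ hf) (by omega)).add (ord_mono h1 (by omega)), ?_⟩
  have h3 := coeff_ord h1 (show n < n + p ^ r * d by omega)
  rw [map_sub, sub_eq_zero] at h3
  rw [map_add, coeff_ord h1 (by omega), add_comm n d, coeff_lead hh.ord (act_ord r _ hf), h3,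
    add_zero, SS_a]

lemma lin_a_tw (d : ℕ) (x : Alg p (GG p r)) : lin ((SS p r).a d) x =
    coeff d (lin (p := p) tw x 1) - eps x * coeff d (1 : PS p) := by
  induction x using alg_ind with
  | h0 => simp
  | ho g => simp [SS_a, tw_apply, eps]
  | hadd x y hx hy => simp only [map_add, LinearMap.add_apply, hx, hy]; ring
  | hs c x hx => simp only [map_smul, LinearMap.smul_apply, hx, smul_eq_mul]; ring

lemma good (hr : 1 ≤ r) : Good (SS p r) (p ^ r) where
  hq := qle hr
  comm i j u v hj hij hu hv := by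
    have hq := qle (p := p) hr
    have e : (u * v).val - 1 = ((v * u).val - 1) +
        (act r v.val (u.val - 1) - (u.val - 1)) +
          (v.val - 1) * (act r v.val (u.val - 1) - (u.val - 1)) +
          (-u.val) * (act r u.val (v.val - 1) - (v.val - 1)) := by
      simp only [mul_val, map_sub, map_one]; ring
    have h1 := act_sub_ord r hj hv.ord hu.ord
    have h2 := act_sub_top r hj hv.ord hu.ord
    have h3 : X ^ (i + p ^ r * j + 1) ∣ (v.val - 1) * (act r v.val (u.val - 1) - (u.val - 1)) :=
      dvd_mul_ord v.ord1 h1 (by omega)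
    have h4 : X ^ (i + p ^ r * j + 1) ∣ (-u.val) * (act r u.val (v.val - 1) - (v.val - 1)) :=
      Dvd.dvd.mul_left (ord_mono (act_sub_ord r (by omega) hu.ord hv.ord) (by nlinarith)) _
    have h5 : (SS p r).D (i + p ^ r * j) ((v * u)⁻¹ * (u * v)) := NG.eqv_iff_R.1 fun l hl => by
      rw [SS_a, SS_a, e, map_add, map_add, map_add, coeff_ord h1 hl, coeff_ord h3 (by omega),
        coeff_ord h4 (by omega)]; simp
    refine ⟨h5, ?_⟩
    have h6 := h5.a_mul (v * u) le_rfl
    rw [mul_inv_cancel_left, SS_a, e, map_add, map_add, map_add, h2, coeff_ord h3 (by omega),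
      coeff_ord h4 (by omega), SS_a _ (v * u)] at h6
    rw [SS_a i, SS_a j]
    linear_combination -h6
  pow d u hd hu := by
    have : CharP (Alg p (GG p r)) p := charP_of_injective_algebraMap' (ZMod p) p
    have key : ∀ m : ℕ, X ^ (m * d) ∣ lin (p := p) tw ((o u - 1) ^ m) 1 ∧
        coeff (m * d) (lin (p := p) tw ((o u - 1) ^ m) 1) = (SS p r).a d u ^ m := by
      intro m
      induction m with
      | zero => simp [lin_one, tw_apply, one_val]
      | succ m ih =>
        obtain ⟨h1, h2⟩ := tw_ord hr hd hu ih.1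
        rw [pow_succ, lin_rep_mul _ tw_mul, add_mul, one_mul, h2, ih.2]
        exact ⟨h1, by ring⟩
    have h1 := key p
    rw [sub_pow_char_of_commute _ (Commute.one_right _), one_pow, ← o_pow, map_sub, lin_o, lin_one,
      ZMod.pow_card] at h1
    simp only [LinearMap.sub_apply, tw_apply, map_one, mul_one, one_val] at h1
    exact ⟨X_pow_dvd_iff.1 h1.1, h1.2⟩
  lev N d x hN hx := by
    have h1 := hx.act (lin (p := p) tw) (fun v => by rw [lin_one, tw_apply, one_val, act_one, one_mul])
      (lin_rep_mul _ tw_mul) (OS p) (fun n n' h f hf => ord_mono hf h) 1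
      (fun d h n v hd hh hv => by rw [one_mul]; exact (tw_ord hr (by omega) hh hv).1)
      (n := 0) (v := 1) (by simp [OS])
    rw [lin_a_tw, hx.eps (by omega), coeff_ord h1 (by omega)]; simp

end Cd3
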