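import Pool.Agent.P.MP_013f39_al.B2

/-! The explicit cochains built from the logarithmic derivative. -/

namespace Cd3

open PowerSeries

variable {p : ℕ} [hp : Fact p.Prime] {r : ℕ}

/-- the Euler operator -/
noncomputable def th : PS p →ₗ[ZMod p] PS p := diag (q := p) id

lemma coeff_th (f : PS p) (i : ℕ) : coeff i (th f) = i * coeff i f := by simp [th]

lemma th_mul (f g : PS p) : th (f * g) = th f * g + f * th g := by
  ext n
  simp only [coeff_th, map_add, coeff_mul, Finset.mul_sum, ← Finset.sum_add_distrib]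
  refine Finset.sum_congr rfl fun x hx => ?_
  rw [← Finset.HasAntidiagonal.mem_antidiagonal.1 hx]; push_cast; ring

lemma act_th (hr : 1 ≤ r) (v f : PS p) : act r v (th f) = th (act r v f) := by
  have : (th : PS p →ₗ[ZMod p] PS p) =
      diag (q := p ^ r) (ZMod.castHom (dvd_pow_self p (by omega)) (ZMod p)) := by
    ext f i; simp only [coeff_th, coeff_diag, map_natCast]
  rw [this, act_diag]

/-- the logarithmic derivative -/
noncomputable def ww (u : GG p r) : PS p := th u.val * u.val⁻¹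

lemma GG.ne (u : GG p r) : constantCoeff u.val ≠ 0 := by rw [u.cc]; exact one_ne_zero

lemma ww_mul_val (u : GG p r) : ww u * u.val = th u.val := by
  rw [ww, mul_assoc, PowerSeries.inv_mul_cancel _ u.ne, mul_one]

lemma ww_mul (hr : 1 ≤ r) (u v : GG p r) : ww (u * v) = act r v.val (ww u) + ww v := by
  have h0 : (u * v).val ≠ 0 := fun h => (u * v).ne (by rw [h, map_zero])
  apply mul_right_cancel₀ h0
  rw [ww_mul_val, mul_val, th_mul, ← act_th hr, ← ww_mul_val u, ← ww_mul_val v, map_mul]; ring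

lemma th_one : th (1 : PS p) = 0 := by
  ext i; rw [coeff_th, coeff_one]; split_ifs with h <;> simp [h]

lemma ww_one : ww (1 : GG p r) = 0 := by rw [ww, one_val, th_one, zero_mul]

lemma ww_ord {d : ℕ} {u : GG p r} (hu : (SS p r).D d u) :
    X ^ d ∣ ww u ∧ coeff d (ww u) = d * (SS p r).a d u := by
  have e : th u.val = th (u.val - 1) := by rw [map_sub, th_one, sub_zero]
  have h1 : X ^ d ∣ th (u.val - 1) := diag_ord _ hu.ord
  rw [ww, e]
  refine ⟨Dvd.dvd.mul_right h1 _, ?_⟩
  have := coeff_lead h1 (show X ^ 0 ∣ u.val⁻¹ by simp)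
  rw [add_zero] at this
  rw [this, coeff_th, coeff_zero_eq_constantCoeff_apply, constantCoeff_inv, u.cc, SS_a]; simp

variable (p r) in
noncomputable def RR : Alg p (GG p r) →ₗ[ZMod p] PS p →ₗ[ZMod p] PS p :=
  lin fun h => (act r h.val).toLinearMap

lemma RR_o (h : GG p r) (f : PS p) : RR p r (o h) f = act r h.val f := by simp [RR]

lemma RR_one (f : PS p) : RR p r 1 f = f := by rw [← o_one, RR_o, one_val, act_one]

lemma RR_mul (x y : Alg p (GG p r)) (f : PS p) : RR p r (x * y) f = RR p r y (RR p r x f) :=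
  lin_rep_mul _ (fun g h f => by simp [mul_val, act_act]) x y f

lemma RR_step (h : GG p r) (f : PS p) : RR p r (o h - 1) f = act r h.val f - f := by
  rw [map_sub, LinearMap.sub_apply, RR_o, RR_one]

lemma RR_ord {N δ n : ℕ} (hN : 1 ≤ N) {x : Alg p (GG p r)} (hx : F (SS p r) N δ x) {f : PS p}
    (hf : X ^ n ∣ f) : X ^ (n + p ^ r * δ) ∣ RR p r x f :=
  hx.act (RR p r) RR_one RR_mul (OS p) (fun _ _ h _ hf => ord_mono hf h) (p ^ r)
    (fun d h n v hd hh hv => by rw [RR_step]; exact act_sub_ord r (by omega) hh.ord hv) hf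

/-- series whose coefficients at exponents of valuation `s` vanish below `n` -/
def VS (p : ℕ) [Fact p.Prime] (s n : ℕ) : Submodule (ZMod p) (PS p) where
  carrier := {f | ∀ m < n, p ^ s ∣ m → ¬ p ^ (s + 1) ∣ m → coeff m f = 0}
  zero_mem' := fun _ _ _ _ => by simp
  add_mem' := fun {f g} hf hg m h1 h2 h3 => by rw [map_add, hf m h1 h2 h3, hg m h1 h2 h3, add_zero]
  smul_mem' c f hf m h1 h2 h3 := by rw [map_smul, hf m h1 h2 h3, smul_zero]

lemma RR_val (hr : 1 ≤ r) {N δ n : ℕ} (s : ℕ) (hN : 1 ≤ N) {x : Alg p (GG p r)}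
    (hx : F (SS p r) N δ x) {f : PS p} (hf : X ^ n ∣ f) :
    RR p r x f ∈ VS p s (n + p ^ r * p ^ s * δ) :=
  hx.act (RR p r) RR_one RR_mul (VS p s) (fun _ _ h _ hf m hm => hf m (by omega)) (p ^ r * p ^ s)
    (fun d h n v hd hh hv => by rw [RR_step]; exact act_sub_val hr (by omega) hh.ord hv)
    (fun m hm _ _ => coeff_ord hf hm)

variable (p r) in
noncomputable def wL : Alg p (GG p r) →ₗ[ZMod p] PS p := lin ww

lemma wL_mul (hr : 1 ≤ r) (x y : Alg p (GG p r)) :
    wL p r (x * y) = RR p r y (wL p r x) + eps x • wL p r y := by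
  induction x using alg_ind with
  | h0 => simp
  | hadd x x' hx hx' => simp only [add_mul, map_add, hx, hx', add_smul]; abel
  | hs c x hx => simp only [smul_mul_assoc, map_smul, hx, smul_add, smul_eq_mul, mul_smul]
  | ho g =>
    induction y using alg_ind with
    | h0 => simp
    | hadd y y' hy hy' =>
      simp only [mul_add, map_add, LinearMap.add_apply, hy, hy', smul_add]; abel
    | hs c y hy =>
      simp only [mul_smul_comm, map_smul, LinearMap.smul_apply, hy, smul_add, smul_comm c]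
    | ho h => rw [← o_mul]; simp [wL, RR_o, ww_mul hr, eps]

lemma wL_step (h : GG p r) : wL p r (o h - 1) = ww h := by
  rw [map_sub, wL, lin_o, lin_one, ww_one, sub_zero]

lemma wL_ord (hr : 1 ≤ r) {N δ : ℕ} (hN : 1 ≤ N) {x : Alg p (GG p r)} (hx : F (SS p r) N δ x) :
    X ^ δ ∣ wL p r x := by
  have hq := qle (p := p) hr
  induction hx with
  | one => simp
  | @step δ x d h hx hd hh ih =>
    have h1 := act_sub_ord r (by omega) hh.ord ih
    have h2 : 2 * d ≤ p ^ r * d := Nat.mul_le_mul_right _ hq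
    rw [wL_mul hr, RR_step, wL_step]
    refine (ord_mono h1 (by omega)).add ?_
    rcases Nat.eq_zero_or_pos δ with rfl | h0
    · rw [zero_add]; exact (OS p d).smul_mem _ (ww_ord hh).1
    · rw [hx.eps h0, zero_smul]; exact dvd_zero _
  | mono _ hle ih => exact ord_mono ih hle
  | zero => simp
  | add _ _ ih ih' => rw [map_add]; exact ih.add ih'
  | smul c _ ih => rw [map_smul]; exact (OS p _).smul_mem _ ih

noncomputable def mask (c : ZMod (p ^ r)) : PS p →ₗ[ZMod p] PS p :=
  diag fun i => if i = c then 1 else 0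

noncomputable def rhoE (c : ZMod (p ^ r)) (h : GG p r) : PS p × PS p →ₗ[ZMod p] PS p × PS p where
  toFun v := (act r h.val v.1, act r h.val v.2 + mask c (act r h.val v.1) * ww h)
  map_add' v v' := by ext1 <;> simp only [Prod.fst_add, Prod.snd_add, map_add]; ring
  map_smul' a v := by
    ext1 <;> simp only [Prod.smul_fst, Prod.smul_snd, map_smul, RingHom.id_apply, smul_add,
      smul_mul_assoc]

lemma rhoE_apply (c : ZMod (p ^ r)) (h : GG p r) (v : PS p × PS p) :
    rhoE c h v = (act r h.val v.1, act r h.val v.2 + mask c (act r h.val v.1) * ww h) := rfl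

noncomputable def RE (c : ZMod (p ^ r)) :
    Alg p (GG p r) →ₗ[ZMod p] (PS p × PS p) →ₗ[ZMod p] PS p × PS p := lin (rhoE c)

lemma RE_one (c : ZMod (p ^ r)) (v : PS p × PS p) : RE c 1 v = v := by
  rw [RE, lin_one, rhoE_apply, one_val, act_one, act_one, ww_one]; simp

lemma RE_mul (hr : 1 ≤ r) (c : ZMod (p ^ r)) (x y : Alg p (GG p r)) (v : PS p × PS p) :
    RE c (x * y) v = RE c y (RE c x v) :=
  lin_rep_mul _ (fun g h v => by
    simp only [rhoE_apply, mul_val, act_act, ww_mul hr, map_add, map_mul, mask, act_diag]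
    congr 1; ring) x y v

lemma RE_fst (c : ZMod (p ^ r)) (y : Alg p (GG p r)) (v : PS p × PS p) :
    (RE c y v).1 = RR p r y v.1 := by
  induction y using alg_ind with
  | h0 => simp
  | ho g => simp [RE, RR_o, rhoE_apply]
  | hadd x y hx hy => simp [hx, hy]
  | hs a x hx => simp [hx]

lemma RE_snd (c : ZMod (p ^ r)) (y : Alg p (GG p r)) (f z : PS p) :
    (RE c y (f, z)).2 = (RE c y (f, 0)).2 + RR p r y z := by
  induction y using alg_ind with
  | h0 => simp
  | ho g => simp [RE, RR_o, rhoE_apply, add_comm]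
  | hadd x y hx hy => simp only [map_add, LinearMap.add_apply, Prod.snd_add, hx, hy]; abel
  | hs a x hx => simp [hx]

lemma RE_step (c : ZMod (p ^ r)) (h : GG p r) (v : PS p × PS p) : RE c (o h - 1) v =
    (act r h.val v.1 - v.1, act r h.val v.2 - v.2 + mask c (act r h.val v.1) * ww h) := by
  rw [map_sub, LinearMap.sub_apply, RE_one, RE, lin_o, rhoE_apply]
  ext1
  · rfl
  · simp only [Prod.snd_sub]; ring

noncomputable def zeta (c : ZMod (p ^ r)) (x y : Alg p (GG p r)) : PS p :=
  (RE c y (wL p r x, 0)).2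

lemma zeta_ord (hr : 1 ≤ r) (c : ZMod (p ^ r)) {N a b : ℕ} (hN : 1 ≤ N) {x y : Alg p (GG p r)}
    (hx : F (SS p r) N a x) (hy : F (SS p r) N b y) : X ^ (a + b) ∣ zeta c x y := by
  have hq := qle (p := p) hr
  have := hy.act (RE c) (RE_one c) (RE_mul hr c) (fun n => (OS p n).prod (OS p n))
    (fun _ _ h _ hf => ⟨ord_mono hf.1 h, ord_mono hf.2 h⟩) 1
    (fun d h n v hd hh hv => by
      have h2 : 2 * d ≤ p ^ r * d := Nat.mul_le_mul_right _ hq
      rw [RE_step]
      exact ⟨ord_mono (act_sub_ord r (by omega) hh.ord hv.1) (by omega),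
        (ord_mono (act_sub_ord r (by omega) hh.ord hv.2) (by omega)).add
          (dvd_mul_ord (diag_ord _ (act_ord r _ hv.1)) (ww_ord hh).1 (by omega))⟩)
    (n := a) (v := (wL p r x, 0)) ⟨wL_ord hr hN hx, dvd_zero _⟩
  rw [one_mul] at this
  exact this.2

lemma zeta_top (hr : 1 ≤ r) (c : ZMod (p ^ r)) {i j : ℕ} (hi : 1 ≤ i) (hj : 1 ≤ j) :
    coeff (i + j) (zeta c (e (SS p r) i) (e (SS p r) j)) =
      if (i : ZMod (p ^ r)) = c then (i * j : ZMod p) else 0 := by
  have hq := qle (p := p) hr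
  obtain ⟨h1, h2⟩ := ww_ord (NG.D_g (S := SS p r) hi)
  obtain ⟨h3, h4⟩ := ww_ord (NG.D_g (S := SS p r) hj)
  have h5 := coeff_ord (act_sub_ord r hj (NG.D_g (S := SS p r) hj).ord h1)
    (show i < i + p ^ r * j by nlinarith)
  rw [map_sub, sub_eq_zero] at h5
  rw [zeta, e, e, RE_step, wL_step]
  simp only [map_zero, sub_zero, zero_add]
  rw [mask, coeff_lead (diag_ord _ (act_ord r _ h1)) h3, coeff_diag, h5, h2, h4, NG.a_g_self hi,
    NG.a_g_self hj]
  split_ifs <;> simp

noncomputable def BB (t : ℕ) (c : ZMod (p ^ r)) : Bil p (GG p r) :=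
  ((RE c).flip ∘ₗ LinearMap.inl (ZMod p) (PS p) (PS p) ∘ₗ wL p r).compr₂
    (coeff t ∘ₗ LinearMap.snd (ZMod p) (PS p) (PS p))

lemma BB_apply (t : ℕ) (c : ZMod (p ^ r)) (x y : Alg p (GG p r)) :
    BB t c x y = coeff t (zeta c x y) := rfl

lemma dd_BB (hr : 1 ≤ r) (t : ℕ) (c : ZMod (p ^ r)) {x : Alg p (GG p r)} (hx : eps x = 0)
    (y z : Alg p (GG p r)) : dd (BB t c) x y z = - coeff t (RR p r z (zeta c x y)) := by
  have e1 : RE c y (wL p r x, 0) = (RR p r y (wL p r x), zeta c x y) := by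
    ext1
    · rw [RE_fst]
    · rfl
  rw [dd, BB_apply, BB_apply, zeta, zeta, wL_mul hr, hx, zero_smul, add_zero, RE_mul hr, e1,
    RE_snd c z _ (zeta c x y), map_add]
  ring

noncomputable def coch (hr : 1 ≤ r) (N : ℕ) (hN : 1 ≤ N) : Coch (SS p r) (p ^ r) N where
  B := BB
  C t := coeff t ∘ₗ wL p r
  levB t c a b x y _ ht hx hy := coeff_ord (zeta_ord hr c hN hx hy) ht
  topB c i j hi hj := zeta_top hr c (by omega) (by omega)
  levD t c s a b a' x y z h1 h2 ha ht hx hy hz := by
    rw [dd_BB hr _ _ (hx.eps ha), RR_val hr s hN hz (zeta_ord hr c hN hx hy) t ht h1 h2, neg_zero]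
  topD c s m i j l hm hm' hi hj hl := by
    rw [dd_BB hr _ _ ((F_e hN hi).eps (by omega)), e.eq_def _ l, RR_step,
      act_sub_val_top hr (by omega) (NG.D_g (S := SS p r) (d := l) (by omega)).ord hm hm'
        (zeta_ord hr c hN (F_e hN hi) (F_e hN hj)), zeta_top hr c (by omega) (by omega), ← SS_a,
      NG.a_g_self (by omega), mul_one]
  levC t a b x y ha ht hx hy := by
    rw [LinearMap.comp_apply, wL_mul hr, hx.eps ha, zero_smul, add_zero]
    exact coeff_ord (RR_ord hN hy (wL_ord hr hN hx)) ht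
  topC i j hi hj := by
    obtain ⟨h1, h2⟩ := ww_ord (NG.D_g (S := SS p r) (d := i) (by omega))
    rw [LinearMap.comp_apply, wL_mul hr, (F_e hN hi).eps (by omega), zero_smul, add_zero, e, e,
      RR_step, wL_step, act_sub_top r (by omega) (NG.D_g (S := SS p r) (d := j) (by omega)).ord h1,
      h2, ← SS_a, NG.a_g_self (by omega), NG.a_g_self (by omega)]
    ring

theorem GG_main (hp2 : p ≠ 2) (hr : 1 ≤ r) : ¬ H3Zero (SS p r) := by
  have : NeZero (p ^ r) := ⟨pow_ne_zero _ hp.out.ne_zero⟩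
  have h3 : 3 ≤ p := by have := hp.out.two_le; omega
  exact abstract_main (good hr) hp2 (dvd_pow_self p (by omega))
    (h3.trans (Nat.le_self_pow (by omega) p)) (coch hr)

end Cd3
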