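import Pool.Agent.P.MP_013f39_al.A3

/-! The Jacobi equations on the top part of a 2-cochain. -/

namespace Cd3

variable {p : ℕ} [hp : Fact p.Prime]

/-- periodicity of the top part, from the Jacobi equations -/
lemma periodic {q N W : ℕ} [NeZero q] (hpq : p ∣ q) (hq : 3 ≤ q) (hN : 1 ≤ N)
    (hW : 8 * (q * N + 2 * q) ≤ W) (φ : ℕ → ZMod p) (ρ : ZMod q → ZMod p)
    (anti : ∀ i ≤ W, φ (W - i) = - φ i)
    (E1 : ∀ i, N + 1 < i → i + q * (N + 1) + (N + 1) < W →
      i * φ (i + q * (N + 1)) + (W - i) * φ i = 0)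
    (E2 : ∀ i, N + 2 < i → i + q * (N + 2) + (N + 2) < W →
      i * φ (i + q * (N + 2)) + (W - i) * φ i = 0)
    (E0 : ∀ i, N < i → i + q * N + N < W →
      i * φ (i + q * N) + (W - i) * φ i = i * (W - i) * ρ i) :
    ∃ f : ZMod q → ZMod p,
      (∀ c, ZMod.castHom hpq (ZMod p) c ≠ 0 → W * f c = 0) ∧
      (∀ c, ZMod.castHom hpq (ZMod p) c ≠ 0 → (W : ZMod p) = 0 → f (W - c) = - f c) ∧
      (∀ c, ZMod.castHom hpq (ZMod p) c ≠ 0 → (W : ZMod p) = 0 → ρ c = 0) ∧
      ((∀ c, ρ c = 0) → ∀ m : ℕ, (m : ZMod p) ≠ 0 → W ≤ 2 * m → m + N < W → φ m = f m) := by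
  have hq0 : (q : ZMod p) = 0 := (ZMod.natCast_eq_zero_iff _ _).2 hpq
  have hQ1 : 3 * N ≤ q * N := Nat.mul_le_mul_right _ hq
  have hQ2 : q ≤ q * N := Nat.le_mul_of_pos_right _ hN
  have m1 : q * (N + 1) = q * N + q := by ring
  have m2 : q * (N + 2) = q * N + 2 * q := by ring
  have step : ∀ m : ℕ, (m : ZMod p) ≠ 0 → q * N + 2 * q + N + 3 ≤ m → m + q + N + 2 < W →
      φ (m + q) = φ m := by
    intro m hm h1 h2
    obtain ⟨i, rfl⟩ : ∃ i, m = i + q * (N + 1) := ⟨m - q * (N + 1), by omega⟩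
    have hi : (i : ZMod p) ≠ 0 := by simpa [hq0] using hm
    have e1 := E1 i (by omega) (by omega)
    have e2 := E2 i (by omega) (by omega)
    rw [show i + q * (N + 1) + q = i + q * (N + 2) by ring]
    apply mul_left_cancel₀ hi
    linear_combination e2 - e1
  have per : ∀ k m : ℕ, (m : ZMod p) ≠ 0 → q * N + 2 * q + N + 3 ≤ m → m + q * k + N + 2 < W →
      φ (m + q * k) = φ m := by
    intro k
    induction k with
    | zero => intros; simp
    | succ k ih =>
      intro m hm h1 h2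
      have m3 : q * (k + 1) = q * k + q := by ring
      rw [m3, ← add_assoc, step _ (by simpa [hq0] using hm) (by omega) (by omega),
        ih m hm h1 (by omega)]
  have zone : ∀ m m' : ℕ, (m : ZMod p) ≠ 0 → (m : ZMod q) = m' → q * N + 2 * q + N + 3 ≤ m →
      m + N + 2 < W → q * N + 2 * q + N + 3 ≤ m' → m' + N + 2 < W → φ m = φ m' := by
    intro m m' hm hmm h1 h2 h3 h4
    have hm' : (m' : ZMod p) ≠ 0 := by
      have := congrArg (ZMod.castHom hpq (ZMod p)) hmm
      simp only [map_natCast] at this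
      rwa [← this]
    rw [ZMod.natCast_eq_natCast_iff] at hmm
    rcases le_total m m' with h | h
    · obtain ⟨k, hk⟩ := (Nat.modEq_iff_dvd' h).1 hmm
      obtain rfl : m' = m + q * k := by omega
      exact (per k m hm h1 h4).symm
    · obtain ⟨k, hk⟩ := (Nat.modEq_iff_dvd' h).1 hmm.symm
      obtain rfl : m = m' + q * k := by omega
      exact per k m' hm' h3 h2
  let rep : ZMod q → ℕ := fun c => 2 * (q * N + 2 * q) + c.val
  have rep_lt : ∀ c, rep c < 2 * (q * N + 2 * q) + q := fun c => by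
    have := ZMod.val_lt c; simp only [rep]; omega
  have rep_ge : ∀ c, 2 * (q * N + 2 * q) ≤ rep c := fun c => by simp only [rep]; omega
  have rep_q : ∀ c, (rep c : ZMod q) = c := fun c => by simp [rep]
  have rep_p : ∀ c, (rep c : ZMod p) = ZMod.castHom hpq (ZMod p) c := fun c => by
    conv_rhs => rw [← rep_q c]
    simp only [map_natCast]
  have hWf : ∀ c, ZMod.castHom hpq (ZMod p) c ≠ 0 → W * φ (rep c) = 0 := by
    intro c hc
    have h1 := rep_lt c
    have h2 := rep_ge c
    have e1 := E1 (rep c) (by omega) (by omega)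
    rw [per (N + 1) _ (by rwa [rep_p]) (by omega) (by omega)] at e1
    linear_combination e1
  refine ⟨fun c => φ (rep c), hWf, ?_, ?_, ?_⟩
  · intro c hc hW0
    have h1 := rep_lt c
    have h2 := rep_ge c
    have h3 := rep_lt (W - c)
    have h4 := rep_ge (W - c)
    simp only
    rw [← anti _ (by omega)]
    refine zone _ _ ?_ ?_ (by omega) (by omega) (by omega) (by omega)
    · rw [rep_p, map_sub, map_natCast, hW0, zero_sub]; exact neg_ne_zero.2 hc
    · rw [rep_q, Nat.cast_sub (by omega), rep_q]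
  · intro c hc hW0
    have h1 := rep_lt c
    have h2 := rep_ge c
    have e0 := E0 (rep c) (by omega) (by omega)
    rw [per N _ (by rwa [rep_p]) (by omega) (by omega), hW0, rep_q, rep_p] at e0
    have : (ZMod.castHom hpq (ZMod p) c) ^ 2 * ρ c = 0 := by linear_combination e0
    exact (mul_eq_zero.1 this).resolve_left (pow_ne_zero _ hc)
  · intro hρ m hm h1 h2
    obtain ⟨i, rfl⟩ : ∃ i, m = i + q * N := ⟨m - q * N, by omega⟩
    have hi : (i : ZMod p) ≠ 0 := by simpa [hq0] using hm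
    have e0 := E0 i (by omega) (by omega)
    have h3 := rep_lt (i + q * N : ℕ)
    have h4 := rep_ge (i + q * N : ℕ)
    have h5 : φ i = φ (rep (i + q * N : ℕ)) :=
      zone _ _ hi (by rw [rep_q]; simp) (by omega) (by omega) (by omega) (by omega)
    have h6 := hWf (i + q * N : ℕ) (by rwa [map_natCast])
    rw [hρ, h5] at e0
    apply mul_left_cancel₀ hi
    linear_combination e0 - h6

variable {Γ : Type} [Group Γ] {S : NG p Γ} {N q : ℕ}

/-- the differential of a bilinear form, on the augmentation ideal -/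
noncomputable def dd (η : Bil p Γ) (x y z : Alg p Γ) : ZMod p := η (x * y) z - η x (y * z)

def alt (T : Alg p Γ → Alg p Γ → Alg p Γ → ZMod p) (x y z : Alg p Γ) : ZMod p :=
  T x y z + T y z x + T z x y - T y x z - T z y x - T x z y

noncomputable def psi (η : Bil p Γ) (x y : Alg p Γ) : ZMod p := η x y - η y x

lemma jacobi (η : Bil p Γ) (x y z : Alg p Γ) : alt (dd η) x y z =
    psi η (x * y - y * x) z + psi η (y * z - z * y) x + psi η (z * x - x * z) y := by
  simp only [alt, dd, psi, map_sub, LinearMap.sub_apply]; ring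

lemma Lev.psi {η : Bil p Γ} {W : ℕ} (hL : Lev S N η W) {a b : ℕ} {x y : Alg p Γ} (ha : 1 ≤ a)
    (hb : 1 ≤ b) (hW : W < a + b) (hx : F S N a x) (hy : F S N b y) : psi η x y = 0 := by
  rw [Cd3.psi, hL a b x y ha hb hW hx hy, hL b a y x hb ha (by omega) hy hx, sub_zero]

lemma psi_comm (G : Good S q) (hN : 1 ≤ N) {η : Bil p Γ} {W : ℕ} (hL : Lev S N η W)
    {i j l : ℕ} (hj : N ≤ j) (hij : j < i) (hl : N ≤ l) (hW : W ≤ i + q * j + l) :
    psi η (e S i * e S j - e S j * e S i) (e S l) = i * psi η (e S (i + q * j)) (e S l) := by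
  have := hL.psi (by omega) (by omega) (by omega) (F_comm_exact G hN hj hij) (F_e hN hl)
  simp only [psi, map_sub, LinearMap.sub_apply, map_smul, LinearMap.smul_apply, smul_eq_mul]
    at this ⊢
  linear_combination this

lemma psi_neg (η : Bil p Γ) (x x' y : Alg p Γ) : psi η (x - x') y = - psi η (x' - x) y := by
  simp only [psi, map_sub, LinearMap.sub_apply]; ring

lemma psi_deep (G : Good S q) (hN : 1 ≤ N) {η : Bil p Γ} {W : ℕ} (hL : Lev S N η W)
    {i j l : ℕ} (hi : N ≤ i) (hj : N ≤ j) (hl : N ≤ l) (h1 : j < i → W < i + q * j + l)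
    (h2 : i < j → W < j + q * i + l) :
    psi η (e S i * e S j - e S j * e S i) (e S l) = 0 := by
  rcases lt_trichotomy i j with h | rfl | h
  · rw [psi_neg, hL.psi (by omega) (by omega) (h2 h) (F_comm_deep G hN hi h) (F_e hN hl), neg_zero]
  · simp [psi]
  · exact hL.psi (by omega) (by omega) (h1 h) (F_comm_deep G hN hj h) (F_e hN hl)

lemma jacobi_eq (G : Good S q) (hpq : p ∣ q) (hN : 1 ≤ N) {η : Bil p Γ} {W : ℕ}
    (hL : Lev S N η W) {i i' j : ℕ} (hj : N ≤ j) (hi : j < i) (hi' : j < i')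
    (hW : i + i' + q * j = W) :
    alt (dd η) (e S i) (e S i') (e S j) =
      - (i * psi η (e S (i + q * j)) (e S (W - (i + q * j))) +
        (W - i) * psi η (e S i) (e S (W - i))) := by
  have hq0 : (q : ZMod p) = 0 := (ZMod.natCast_eq_zero_iff _ _).2 hpq
  have hq := G.hq
  have hWi : (W : ZMod p) - i = i' := by rw [← hW]; simp [hq0]
  rw [jacobi, psi_deep G hN hL (by omega) (by omega) hj (by intro; nlinarith) (by intro; nlinarith),
    psi_comm G hN hL hj hi' (by omega) (by omega), psi_neg,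
    psi_comm G hN hL hj hi (by omega) (by omega), hWi, show W - (i + q * j) = i' by omega,
    show W - i = i' + q * j by omega]
  simp only [psi]; ring

lemma rank_lemma {X κ ι : Type} [AddCommMonoid X] [Module (ZMod p) X] [Fintype κ] [Fintype ι]
    (H : Submodule (ZMod p) (X × (κ → ZMod p))) (r : X →ₗ[ZMod p] (ι → ZMod p))
    (C' : Submodule (ZMod p) (κ → ZMod p)) (h : ∀ x c, (x, c) ∈ H → r x = 0 → c ∈ C') :
    Module.finrank (ZMod p) (H.map (LinearMap.snd (ZMod p) X (κ → ZMod p))) ≤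
      Module.finrank (ZMod p) C' + Fintype.card ι := by
  set T := H.map (LinearMap.snd (ZMod p) X (κ → ZMod p))
  let π : H →ₗ[ZMod p] T :=
    (LinearMap.snd (ZMod p) X (κ → ZMod p)).restrict (fun x hx => Submodule.mem_map_of_mem hx)
  have hπ : LinearMap.range π = ⊤ := by
    rw [LinearMap.range_eq_top]
    rintro ⟨c, x, hx, rfl⟩
    exact ⟨⟨x, hx⟩, rfl⟩
  obtain ⟨s, hs⟩ := π.exists_rightInverse_of_surjective hπ
  let ρ : T →ₗ[ZMod p] (ι → ZMod p) :=
    r ∘ₗ LinearMap.fst (ZMod p) X (κ → ZMod p) ∘ₗ H.subtype ∘ₗ s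
  have h1 := ρ.finrank_range_add_finrank_ker
  have h2 : Module.finrank (ZMod p) (LinearMap.range ρ) ≤ Fintype.card ι := by
    simpa using Submodule.finrank_le (LinearMap.range ρ)
  have h3 : Module.finrank (ZMod p) (LinearMap.ker ρ) ≤ Module.finrank (ZMod p) C' := by
    rw [← Submodule.finrank_map_subtype_eq]
    refine Submodule.finrank_mono ?_
    rintro _ ⟨t, ht, rfl⟩
    have h4 : ((s t : H) : X × (κ → ZMod p)).2 = t :=
      congrArg Subtype.val (LinearMap.congr_fun hs t)
    refine h ((s t : H) : X × (κ → ZMod p)).1 _ ?_ ht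
    change (((s t : H) : X × (κ → ZMod p)).1, (t : κ → ZMod p)) ∈ H
    rw [← h4]; exact (s t).2
  omega

end Cd3
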