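import Pool.Agent.P.MP_013f39_al.C1

/-! Descent of the level of a 2-cochain, high levels. -/

namespace Cd3

variable {p : ℕ} [hp : Fact p.Prime] {Γ : Type} [Group Γ]

/-- explicit cochains -/
structure Coch (S : NG p Γ) (q N : ℕ) where
  B : ℕ → ZMod q → Bil p Γ
  C : ℕ → Alg p Γ →ₗ[ZMod p] ZMod p
  levB : ∀ t c a b x y, 1 ≤ a → t < a + b → F S N a x → F S N b y → B t c x y = 0
  topB : ∀ c i j, N ≤ i → N ≤ j →
    B (i + j) c (e S i) (e S j) = if (i : ZMod q) = c then (i * j : ZMod p) else 0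
  levD : ∀ t c s a b a' x y z, p ^ s ∣ t → ¬ p ^ (s + 1) ∣ t → 1 ≤ a → t < a + b + q * p ^ s * a' →
    F S N a x → F S N b y → F S N a' z → dd (B t c) x y z = 0
  topD : ∀ c s m i j l, i + j = p ^ s * m → ¬ p ∣ m → N ≤ i → N ≤ j → N ≤ l →
    dd (B (i + j + q * p ^ s * l) c) (e S i) (e S j) (e S l) =
      - (m * if (i : ZMod q) = c then (i * j : ZMod p) else 0)
  levC : ∀ t a b x y, 1 ≤ a → t < a + q * b → F S N a x → F S N b y → C t (x * y) = 0
  topC : ∀ i j, N ≤ i → N ≤ j → C (i + q * j) (e S i * e S j) = i * i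

variable {S : NG p Γ} {N q : ℕ}

noncomputable def mulBil (ν : Alg p Γ →ₗ[ZMod p] ZMod p) : Bil p Γ :=
  (LinearMap.mul (ZMod p) (Alg p Γ)).compr₂ ν

@[simp] lemma mulBil_apply (ν : Alg p Γ →ₗ[ZMod p] ZMod p) (x y : Alg p Γ) :
    mulBil ν x y = ν (x * y) := rfl

lemma dd_mulBil (ν : Alg p Γ →ₗ[ZMod p] ZMod p) (x y z : Alg p Γ) : dd (mulBil ν) x y z = 0 := by
  simp [dd, mul_assoc]

lemma dd_add (η η' : Bil p Γ) (x y z : Alg p Γ) :
    dd (η + η') x y z = dd η x y z + dd η' x y z := by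
  simp only [dd, LinearMap.add_apply]; ring

lemma dd_smul (c : ZMod p) (η : Bil p Γ) (x y z : Alg p Γ) :
    dd (c • η) x y z = c * dd η x y z := by
  simp only [dd, LinearMap.smul_apply, smul_eq_mul]; ring

lemma dd_sum {ι : Type} (s : Finset ι) (η : ι → Bil p Γ) (x y z : Alg p Γ) :
    dd (∑ i ∈ s, η i) x y z = ∑ i ∈ s, dd (η i) x y z := by
  simp only [dd, LinearMap.sum_apply, Finset.sum_sub_distrib]

variable (p q N) in
/-- level of the tracked cochain with index `n` -/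
def tt (n : ℕ) : ℕ := n + q * p ^ padicValNat p n * N

lemma val_spec {n : ℕ} (hn : n ≠ 0) :
    p ^ padicValNat p n ∣ n ∧ ¬ p ^ (padicValNat p n + 1) ∣ n :=
  ⟨pow_padicValNat_dvd, pow_succ_padicValNat_not_dvd hn⟩

omit hp in
lemma val_shift (hpq : p ∣ q) {n s : ℕ} (l : ℕ) :
    (p ^ s ∣ n + q * p ^ s * l ↔ p ^ s ∣ n) ∧
      (p ^ (s + 1) ∣ n + q * p ^ s * l ↔ p ^ (s + 1) ∣ n) := by
  obtain ⟨q', rfl⟩ := hpq
  exact ⟨Nat.dvd_add_left ⟨p * q' * l, by ring⟩, Nat.dvd_add_left ⟨q' * l, by ring⟩⟩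

lemma val_eq {n s : ℕ} (h1 : p ^ s ∣ n) (h2 : ¬ p ^ (s + 1) ∣ n) : padicValNat p n = s := by
  have hn : n ≠ 0 := by rintro rfl; simp at h2
  have a1 := (padicValNat_dvd_iff_le hn).1 h1
  have a2 := mt (padicValNat_dvd_iff_le hn).2 h2
  omega

lemma Coch.levT (K : Coch S q N) (hpq : p ∣ q) {n : ℕ} (hn : n ≠ 0) (c : ZMod q) {a b a' : ℕ}
    {x y z : Alg p Γ} (ha : 1 ≤ a) (h : tt p N q n < a + b + q * p ^ padicValNat p n * a')
    (hx : F S N a x) (hy : F S N b y) (hz : F S N a' z) : dd (K.B (tt p N q n) c) x y z = 0 :=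
  K.levD _ c _ a b a' x y z ((val_shift hpq N).1.2 (val_spec hn).1)
    (mt (val_shift hpq N).2.1 (val_spec hn).2) ha h hx hy hz

/-- invariants of the tracked data -/
def Inv (hpq : p ∣ q) (N W : ℕ) (Φ : ℕ → ZMod q → ZMod p) : Prop :=
  (∀ n c, Φ n c ≠ 0 → p ∣ n ∧ n ≠ 0 ∧ n + q * N ≤ W ∧ ZMod.castHom hpq (ZMod p) c ≠ 0) ∧
    ∀ n c, Φ n (n - c) = - Φ n c

variable [NeZero q]

/-- the equation satisfied by the cochain -/
def Eqn (K : Coch S q N) (ω : Alg p Γ → Alg p Γ → Alg p Γ → ZMod p) (W : ℕ) (η : Bil p Γ)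
    (Φ : ℕ → ZMod q → ZMod p) : Prop :=
  ∀ x y z, F S N 1 x → F S N 1 y → F S N 1 z → dd η x y z =
    ω x y z + ∑ n ∈ Finset.range W, ∑ c, Φ n c * dd (K.B (tt p N q n) c) x y z

def Low (S : NG p Γ) (N L : ℕ) (ω : Alg p Γ → Alg p Γ → Alg p Γ → ZMod p) : Prop :=
  ∀ a b c x y z, L < a + b + c → F S N a x → F S N b y → F S N c z → ω x y z = 0

lemma alt_eqn {K : Coch S q N} {ω : Alg p Γ → Alg p Γ → Alg p Γ → ZMod p} {W : ℕ} {η : Bil p Γ}
    {Φ : ℕ → ZMod q → ZMod p} (h : Eqn K ω W η Φ) {x y z : Alg p Γ} (hx : F S N 1 x)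
    (hy : F S N 1 y) (hz : F S N 1 z) : alt (dd η) x y z = alt ω x y z +
      ∑ n ∈ Finset.range W, ∑ c, Φ n c * alt (dd (K.B (tt p N q n) c)) x y z := by
  simp only [alt, h _ _ _ hx hy hz, h _ _ _ hy hz hx, h _ _ _ hz hx hy, h _ _ _ hy hx hz,
    h _ _ _ hz hy hx, h _ _ _ hx hz hy, mul_add, mul_sub, Finset.sum_add_distrib,
    Finset.sum_sub_distrib]
  ring

omit [NeZero q] in
lemma alt_T (K : Coch S q N) (hpq : p ∣ q) (hq : 2 ≤ q) (hN : 1 ≤ N) {n W : ℕ} (hn : n ≠ 0)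
    (hnW : n + q * N ≤ W) (c : ZMod q) {i i' j : ℕ} (hj : N ≤ j) (hi : j < i) (hi' : j < i')
    (hW : i + i' + q * j = W) :
    alt (dd (K.B (tt p N q n) c)) (e S i) (e S i') (e S j) =
      dd (K.B (tt p N q n) c) (e S i) (e S i') (e S j) -
        dd (K.B (tt p N q n) c) (e S i') (e S i) (e S j) := by
  have hP : 1 ≤ p ^ padicValNat p n := Nat.one_le_pow _ _ hp.out.pos
  have key : ∀ i i', j < i → j < i' → i + i' + q * j = W →
      tt p N q n < i' + j + q * p ^ padicValNat p n * i := by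
    intro i i' hi hi' hW
    unfold tt
    generalize p ^ padicValNat p n = P at hP
    obtain ⟨u, rfl⟩ := Nat.exists_eq_add_of_le hj
    obtain ⟨w, rfl⟩ := Nat.exists_eq_add_of_lt hi
    obtain ⟨P', rfl⟩ := Nat.exists_eq_add_of_le hP
    obtain ⟨q', rfl⟩ := Nat.exists_eq_add_of_le hq
    nlinarith [Nat.zero_le (q' * w), Nat.zero_le (q' * P' * w), Nat.zero_le (q' * P' * u),
      Nat.zero_le (P' * w), Nat.zero_le (P' * u), Nat.zero_le (q' * P')]
  have Fi := F_e (S := S) hN (show N ≤ i by omega)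
  have Fi' := F_e (S := S) hN (show N ≤ i' by omega)
  have Fj := F_e (S := S) hN hj
  rw [alt, K.levT hpq hn c (by omega) (key i i' hi hi' hW) Fi' Fj Fi,
    K.levT hpq hn c (by omega) (by have := key i' i hi' hi (by omega); omega) Fj Fi Fi',
    K.levT hpq hn c (by omega) (by have := key i i' hi hi' hW; omega) Fj Fi' Fi,
    K.levT hpq hn c (by omega) (key i' i hi' hi (by omega)) Fi Fj Fi']
  ring

lemma rhs_eval {K : Coch S q N} (hpq : p ∣ q) (hq : 2 ≤ q) (hN : 1 ≤ N) {W : ℕ}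
    {Φ : ℕ → ZMod q → ZMod p} (hI : Inv hpq N W Φ) {i i' j : ℕ} (hj : N ≤ j) (hi : j < i)
    (hi' : j < i') (hW : i + i' + q * j = W) :
    ∑ n ∈ Finset.range W, ∑ c, Φ n c * alt (dd (K.B (tt p N q n) c)) (e S i) (e S i') (e S j) =
      if j = N then - (i * i' * (2 * ((W - q * N) / p ^ padicValNat p (W - q * N) : ℕ) *
        Φ (W - q * N) i)) else 0 := by
  have Fi := F_e (S := S) hN (show N ≤ i by omega)
  have Fi' := F_e (S := S) hN (show N ≤ i' by omega)
  have Fj := F_e (S := S) hN hj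
  have van : ∀ n c, ¬ (j = N ∧ n = W - q * N) →
      Φ n c * alt (dd (K.B (tt p N q n) c)) (e S i) (e S i') (e S j) = 0 := by
    intro n c hne
    by_cases h0 : Φ n c = 0
    · rw [h0, zero_mul]
    obtain ⟨h1, h2, h3, -⟩ := hI.1 n c h0
    have hP : 2 ≤ p ^ padicValNat p n := by
      have := one_le_padicValNat_of_dvd h2 h1
      exact hp.out.two_le.trans (Nat.le_self_pow (by omega) p)
    have key : tt p N q n < i + i' + q * p ^ padicValNat p n * j := by
      unfold tt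
      generalize p ^ padicValNat p n = P at hP
      obtain ⟨u, rfl⟩ := Nat.exists_eq_add_of_le hj
      obtain ⟨P', rfl⟩ := Nat.exists_eq_add_of_le hP
      rcases Nat.eq_zero_or_pos u with rfl | hu
      · simp only [add_zero, true_and] at hne hW ⊢
        omega
      · have : q * 1 ≤ q * u := Nat.mul_le_mul_left _ hu
        nlinarith [Nat.zero_le (q * P' * u)]
    rw [alt_T K hpq hq hN h2 h3 c hj hi hi' hW, K.levT hpq h2 c (by omega) key Fi Fi' Fj,
      K.levT hpq h2 c (by omega) (by omega) Fi' Fi Fj, sub_zero, mul_zero]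
  split_ifs with hjN
  swap
  · exact Finset.sum_eq_zero fun n _ => Finset.sum_eq_zero fun c _ => van n c (by tauto)
  subst hjN
  have hqN : 1 ≤ q * j := Nat.mul_pos (by omega) hN
  have hn0 : W - q * j = i + i' := by omega
  rw [Finset.sum_eq_single (W - q * j)]
  rotate_left
  · intro n _ hn; exact Finset.sum_eq_zero fun c _ => van n c (by tauto)
  · intro h; simp at h; omega
  rw [hn0]
  have hn : i + i' ≠ 0 := by omega
  obtain ⟨⟨m, hm⟩, h2⟩ := val_spec (p := p) hn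
  have hm' : ¬ p ∣ m := by
    rintro ⟨m', rfl⟩; exact h2 ⟨m', hm.trans (by ring)⟩
  have hdiv : (i + i') / p ^ padicValNat p (i + i') = m := by
    conv_lhs => enter [1]; rw [hm]
    exact Nat.mul_div_cancel_left _ (Nat.pos_of_ne_zero (pow_ne_zero _ hp.out.ne_zero))
  have e1 : ∀ c, alt (dd (K.B (tt p j q (i + i')) c)) (e S i) (e S i') (e S j) =
      - (m * if (i : ZMod q) = c then (i * i' : ZMod p) else 0) +
        (m * if (i' : ZMod q) = c then (i' * i : ZMod p) else 0) := by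
    intro c
    rw [alt_T K hpq hq hN hn (by omega) c hj hi hi' hW, tt,
      K.topD c _ m i i' j hm hm' (by omega) (by omega) le_rfl]
    have := K.topD c _ m i' i j (by rw [add_comm]; exact hm) hm' (by omega) (by omega) le_rfl
    rw [add_comm i' i] at this
    rw [this]; ring
  have e2 := hI.2 (i + i') i
  simp only [Nat.cast_add, add_sub_cancel_left] at e2
  simp only [e1, hdiv, mul_add, mul_neg, mul_ite, mul_zero, Finset.sum_add_distrib,
    Finset.sum_neg_distrib, Finset.sum_ite_eq, Finset.mem_univ, if_true, e2]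
  ring

end Cd3
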