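import Pool.Agent.P.MP_013f39_al.C2

/-! The descent step at high levels. -/

namespace Cd3

variable {p : ℕ} [hp : Fact p.Prime] {Γ : Type} [Group Γ]
variable {S : NG p Γ} {N q : ℕ} [NeZero q]

omit [NeZero q] in
lemma letter_prim (hpq : p ∣ q) (hq : 1 ≤ q) {m : ℕ} (hm : Letter p N m) (h : q * N ≤ m) :
    (m : ZMod p) ≠ 0 := by
  rw [Ne, ZMod.natCast_eq_zero_iff]
  rintro ⟨d, rfl⟩
  have h1 := hm d rfl
  have h2 : p ≤ q := Nat.le_of_dvd hq hpq
  rcases Nat.eq_zero_or_pos p with rfl | hp0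
  · omega
  have : p * d < p * N := Nat.mul_lt_mul_of_pos_left h1 hp0
  have : p * N ≤ q * N := Nat.mul_le_mul_right _ h2
  omega

theorem step_high (G : Good S q) (K : Coch S q N) (hp2 : p ≠ 2) (hpq : p ∣ q) (hq : 3 ≤ q)
    (hN : 1 ≤ N) {ω : Alg p Γ → Alg p Γ → Alg p Γ → ZMod p} (hω : Low S N (5 * N) ω) {W : ℕ}
    (hW : 8 * (q * N + 2 * q) ≤ W + 1) {η : Bil p Γ} {Φ : ℕ → ZMod q → ZMod p}
    (hL : Lev S N η (W + 1)) (hE : Eqn K ω (W + 1) η Φ) (hI : Inv hpq N (W + 1) Φ) :
    ∃ η' Φ', Lev S N η' W ∧ Eqn K ω W η' Φ' ∧ Inv hpq N W Φ' := by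
  set V := W + 1 with hV
  have hq0 : (q : ZMod p) = 0 := (ZMod.natCast_eq_zero_iff _ _).2 hpq
  have hQ1 : 3 * N ≤ q * N := Nat.mul_le_mul_right _ hq
  have hQ2 : q ≤ q * N := Nat.le_mul_of_pos_right _ hN
  have m1 : q * (N + 1) = q * N + q := by ring
  have m2 : q * (N + 2) = q * N + 2 * q := by ring
  have h2 : (2 : ZMod p) ≠ 0 := by
    intro h
    have : p ∣ 2 := (ZMod.natCast_eq_zero_iff 2 p).1 (by simpa using h)
    exact hp2 ((Nat.prime_dvd_prime_iff_eq hp.out Nat.prime_two).1 this)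
  have F1 : ∀ i, N ≤ i → F S N 1 (e S i) := fun i hi => (F_e hN hi).mono (by omega)
  let φ : ℕ → ZMod p := fun i => psi η (e S i) (e S (V - i))
  let m0 : ℕ := (V - q * N) / p ^ padicValNat p (V - q * N)
  have EE : ∀ i j, N ≤ j → j ≤ N + 2 → j < i → i + q * j + j < V →
      i * φ (i + q * j) + (V - i) * φ i =
        if j = N then i * (V - i) * (2 * m0 * Φ (V - q * N) i) else 0 := by
    intro i j hj hj2 hi hV'
    have hqj : q * j ≤ q * (N + 2) := Nat.mul_le_mul_left _ hj2
    obtain ⟨i', hi'⟩ : ∃ i', i + i' + q * j = V := ⟨V - (i + q * j), by omega⟩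
    have Fi := F_e (S := S) hN (show N ≤ i by omega)
    have Fi' := F_e (S := S) hN (show N ≤ i' by omega)
    have Fj := F_e (S := S) hN hj
    have e1 := jacobi_eq G hpq hN hL hj hi (show j < i' by omega) hi'
    have e2 := alt_eqn hE (F1 i (by omega)) (F1 i' (by omega)) (F1 j hj)
    have e3 := rhs_eval (K := K) hpq (by omega) hN hI hj hi (show j < i' by omega) hi'
    have e4 : alt ω (e S i) (e S i') (e S j) = 0 := by
      rw [alt, hω _ _ _ _ _ _ (by omega) Fi Fi' Fj, hω _ _ _ _ _ _ (by omega) Fi' Fj Fi,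
        hω _ _ _ _ _ _ (by omega) Fj Fi Fi', hω _ _ _ _ _ _ (by omega) Fi' Fi Fj,
        hω _ _ _ _ _ _ (by omega) Fj Fi' Fi, hω _ _ _ _ _ _ (by omega) Fi Fj Fi']
      ring
    have hVi : (V : ZMod p) - i = i' := by rw [← hi']; simp [hq0]
    rw [e2, e3, e4, zero_add] at e1
    simp only [φ, m0]
    split_ifs at e1 ⊢
    · rw [hVi] at e1 ⊢; linear_combination e1
    · linear_combination e1
  obtain ⟨f, hf1, hf2, hf3, hf4⟩ := periodic hpq hq hN hW φ (fun c => 2 * m0 * Φ (V - q * N) c)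
    (fun i hi => by
      simp only [φ, psi]; rw [show V - (V - i) = i by omega]; ring)
    (fun i h1 h2 => by simpa using EE i (N + 1) (by omega) (by omega) h1 h2)
    (fun i h1 h2 => by simpa using EE i (N + 2) (by omega) (by omega) h1 h2)
    (fun i h1 h2 => by simpa using EE i N (by omega) (by omega) h1 h2)
  have hcrit : ∀ c, Φ (V - q * N) c = 0 := by
    intro c
    by_contra h0
    obtain ⟨h1, h3, -, h4⟩ := hI.1 _ c h0
    have hV0 : (V : ZMod p) = 0 := by
      have := (ZMod.natCast_eq_zero_iff _ _).2 h1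
      rw [Nat.cast_sub (by omega)] at this
      simpa [hq0] using this
    have h5 := hf3 c h4 hV0
    have hm0 : (m0 : ZMod p) ≠ 0 := by
      rw [Ne, ZMod.natCast_eq_zero_iff]
      rintro ⟨m', hm'⟩
      obtain ⟨h6, h7⟩ := val_spec (p := p) h3
      refine h7 ⟨m', ?_⟩
      conv_lhs => rw [← Nat.mul_div_cancel' h6]
      rw [show (V - q * N) / p ^ padicValNat p (V - q * N) = p * m' from hm']; ring
    exact mul_ne_zero (mul_ne_zero h2 hm0) h0 h5
  have hf5 := hf4 fun c => by simp only [hcrit, mul_zero]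
  let π := ZMod.castHom hpq (ZMod p)
  let Φ' : ZMod q → ZMod p := fun c => f c / (2 * π c ^ 2)
  have hΦ1 : ∀ c, Φ' c ≠ 0 → π c ≠ 0 ∧ (V : ZMod p) = 0 := by
    intro c hc
    have h3 : π c ≠ 0 := by intro h; apply hc; simp [Φ', h]
    refine ⟨h3, (mul_eq_zero.1 (hf1 c h3)).resolve_right fun h => hc (by simp [Φ', h])⟩
  have hΦ2 : ∀ c, Φ' (V - c) = - Φ' c := by
    intro c
    by_cases hV0 : (V : ZMod p) = 0
    · have h3 : π (V - c) = - π c := by rw [map_sub, map_natCast, hV0, zero_sub]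
      by_cases hc : π c = 0
      · simp [Φ', h3, hc]
      · simp only [Φ', h3, hf2 c hc hV0]; ring
    · have : ∀ c, Φ' c = 0 := fun c => by by_contra h; exact hV0 (hΦ1 c h).2
      simp [this]
  let η1 : Bil p Γ := η + ∑ c, Φ' c • K.B V c
  have hL1 : Lev S N η1 V := by
    intro a b x y ha hb hab hx hy
    simp only [η1, LinearMap.add_apply, LinearMap.sum_apply, LinearMap.smul_apply,
      hL a b x y ha hb hab hx hy, K.levB V _ a b x y ha hab hx hy, smul_zero, Finset.sum_const_zero,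
      add_zero]
  have hpsi1 : ∀ i m, N < i → i ≤ m → i + m = V → Letter p N m → psi η1 (e S i) (e S m) = 0 := by
    intro i m hi him hs hm
    have hm' := letter_prim hpq (by omega) hm (by omega)
    have e1 := fun c : ZMod q => K.topB c i m (by omega) (by omega)
    have e2 := fun c : ZMod q => K.topB c m i (by omega) (by omega)
    rw [add_comm m i] at e2
    rw [hs] at e1 e2
    have e3 : psi η (e S m) (e S i) = f m := by
      have := hf5 m hm' (by omega) (by omega)
      simp only [φ] at this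
      rwa [show V - m = i by omega] at this
    have e4 : Φ' i = - Φ' m := by rw [← hΦ2, ← hs]; simp
    have e5 := hf1 m (by rwa [map_natCast])
    have e6 : 2 * (m : ZMod p) ^ 2 * Φ' m = f m := by
      simp only [Φ', map_natCast]; field_simp
    rw [← hs] at e5
    simp only [psi] at e3
    simp only [psi, η1, LinearMap.add_apply, LinearMap.sum_apply, LinearMap.smul_apply, e1, e2,
      smul_eq_mul, mul_ite, mul_zero, Finset.sum_ite_eq, Finset.mem_univ, if_true, e4]
    apply mul_left_cancel₀ hm'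
    push_cast at e5
    linear_combination (-(m : ZMod p)) * e3 - (i : ZMod p) * e6 - e5
  obtain ⟨m1', hm1⟩ : ∃ m, m + N = V := ⟨V - N, by omega⟩
  let lam : ZMod p := - psi η1 (e S m1') (e S N) / ((m1' : ZMod p) * m1')
  let η2 : Bil p Γ := η1 + lam • mulBil (K.C (m1' + q * N))
  have hC : ∀ a b x y, 1 ≤ a → 1 ≤ b → V < a + b ∨ (V ≤ a + b ∧ N < b) → F S N a x → F S N b y →
      K.C (m1' + q * N) (x * y) = 0 := by
    intro a b x y ha hb hab hx hy
    refine K.levC _ a (max b N) x y ha ?_ hx (hy.max hb)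
    have h3 : b ≤ max b N := le_max_left _ _
    have h4 : N ≤ max b N := le_max_right _ _
    generalize max b N = b' at h3 h4
    obtain ⟨u, rfl⟩ := Nat.exists_eq_add_of_le h4
    have : 3 * u ≤ q * u := Nat.mul_le_mul_right _ hq
    rw [mul_add]; omega
  have hL2 : Lev S N η2 V := by
    intro a b x y ha hb hab hx hy
    simp only [η2, LinearMap.add_apply, LinearMap.smul_apply, hL1 a b x y ha hb hab hx hy,
      mulBil_apply, hC a b x y ha hb (Or.inl hab) hx hy, smul_zero, add_zero]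
  have hsym0 : ∀ i m, N ≤ i → i ≤ m → i + m = V → Letter p N m →
      η2 (e S i) (e S m) = η2 (e S m) (e S i) := by
    intro i m hi him hs hm
    have Fi := F_e (S := S) hN hi
    have Fm := F_e (S := S) hN (show N ≤ m by omega)
    have e0 := hC i m _ _ (by omega) (by omega) (Or.inr ⟨by omega, by omega⟩) Fi Fm
    rcases hi.eq_or_lt with rfl | hi'
    · obtain rfl : m1' = m := by omega
      have hm' := letter_prim hpq (by omega) hm (by omega)
      simp only [η2, LinearMap.add_apply, LinearMap.smul_apply, mulBil_apply, e0,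
        K.topC m1' N (by omega) le_rfl, smul_eq_mul, lam, psi]
      field_simp; ring
    · have e1 := hC m i _ _ (by omega) (by omega) (Or.inr ⟨by omega, by omega⟩) Fm Fi
      have e2 := hpsi1 i m hi' him hs hm
      simp only [η2, LinearMap.add_apply, LinearMap.smul_apply, mulBil_apply, e0, e1]
      rw [sub_eq_zero.1 e2]
  have hdd2 : ∀ x y z, F S N 1 x → F S N 1 y → F S N 1 z → dd η2 x y z = ω x y z +
      ∑ n ∈ Finset.range V, ∑ c, Φ n c * dd (K.B (tt p N q n) c) x y z +
        ∑ c, Φ' c * dd (K.B V c) x y z := by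
    intro x y z hx hy hz
    simp only [η2, η1, dd_add, dd_smul, dd_sum, dd_mulBil, mul_zero, add_zero, hE x y z hx hy hz]
  obtain ⟨hs1, hs2⟩ := val_spec (p := p) (show V ≠ 0 by omega)
  set s := padicValNat p V with hs
  have hP : 1 ≤ p ^ s := Nat.one_le_pow _ _ hp.out.pos
  obtain ⟨ν, hν⟩ := descent G hN η2 hL2 (by
    intro a b c x y z ha hb hc habc hx hy hz
    rw [← sub_eq_zero]
    change dd η2 x y z = 0
    rw [hdd2 x y z (hx.mono ha) (hy.mono hb) (hz.mono hc), hω a b c x y z (by omega) hx hy hz,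
      Finset.sum_eq_zero, Finset.sum_eq_zero, add_zero, add_zero]
    · intro c' _
      rw [K.levD V c' s a b c x y z hs1 hs2 ha ?_ hx hy hz, mul_zero]
      have : 3 * 1 * c ≤ q * p ^ s * c := by gcongr
      omega
    · intro n _
      refine Finset.sum_eq_zero fun c' _ => ?_
      by_cases h0 : Φ n c' = 0
      · rw [h0, zero_mul]
      obtain ⟨-, h3, h4, -⟩ := hI.1 n c' h0
      rw [K.levT hpq h3 c' ha ?_ hx hy (hz.max hc), mul_zero]
      have hP' : 1 ≤ p ^ padicValNat p n := Nat.one_le_pow _ _ hp.out.pos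
      unfold tt
      generalize p ^ padicValNat p n = P at hP'
      have h5 : c ≤ max c N := le_max_left _ _
      have h6 : N ≤ max c N := le_max_right _ _
      generalize max c N = c'' at h5 h6
      obtain ⟨u, rfl⟩ := Nat.exists_eq_add_of_le h6
      have : 3 * 1 * u ≤ q * P * u := by gcongr
      rw [mul_add]; omega) (by
    intro i j hi hj hs hli hlj
    rcases le_total i j with h | h
    · exact hsym0 i j hi h hs hlj
    · exact (hsym0 j i hj h (by omega) hli).symm)
  have hL3 : Lev S N (η2 + (-1 : ZMod p) • mulBil ν) W := by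
    intro a b x y ha hb hab hx hy
    simp only [LinearMap.add_apply, LinearMap.smul_apply, mulBil_apply,
      hν a b x y ha hb (by omega) hx hy, smul_eq_mul]
    ring
  have hold : ∀ n c, Φ n c ≠ 0 →
      p ∣ n ∧ n ≠ 0 ∧ n + q * N ≤ W ∧ ZMod.castHom hpq (ZMod p) c ≠ 0 := by
    intro n c h0
    obtain ⟨h3, h4, h5, h6⟩ := hI.1 n c h0
    refine ⟨h3, h4, ?_, h6⟩
    by_contra h7
    obtain rfl : n = V - q * N := by omega
    exact h0 (hcrit c)
  have hlast : ∀ c, Φ W c = 0 := fun c => by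
    by_contra h; have := (hold _ _ h).2.2.1; omega
  have hdd3 : ∀ x y z, F S N 1 x → F S N 1 y → F S N 1 z →
      dd (η2 + (-1 : ZMod p) • mulBil ν) x y z = ω x y z +
      ∑ n ∈ Finset.range W, ∑ c, Φ n c * dd (K.B (tt p N q n) c) x y z +
        ∑ c, Φ' c * dd (K.B V c) x y z := by
    intro x y z hx hy hz
    rw [dd_add, dd_smul, dd_mulBil, mul_zero, add_zero, hdd2 x y z hx hy hz, hV,
      Finset.sum_range_succ]
    simp [hlast]
  by_cases hcase : V < N + N + q * p ^ s * N
  · refine ⟨_, Φ, hL3, ?_, hold, hI.2⟩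
    intro x y z hx hy hz
    rw [hdd3 x y z hx hy hz, Finset.sum_eq_zero (s := Finset.univ), add_zero]
    intro c _
    rw [K.levD V c s N N N x y z hs1 hs2 hN hcase (hx.pos le_rfl) (hy.pos le_rfl) (hz.pos le_rfl),
      mul_zero]
  obtain ⟨n1, hn1⟩ : ∃ n1, n1 + q * p ^ s * N = V := ⟨V - q * p ^ s * N, by omega⟩
  have hv1 : padicValNat p n1 = s := val_eq ((val_shift hpq N).1.1 (hn1 ▸ hs1))
    (mt (val_shift hpq N).2.2 (hn1 ▸ hs2))
  have htt : tt p N q n1 = V := by rw [tt, hv1, hn1]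
  have hqP : q * 1 * N ≤ q * p ^ s * N := by gcongr
  rw [mul_one] at hqP
  refine ⟨_, fun n c => Φ n c + if n = n1 then Φ' c else 0, hL3, ?_, ?_, ?_⟩
  · intro x y z hx hy hz
    rw [hdd3 x y z hx hy hz, add_assoc]
    congr 1
    simp only [add_mul, Finset.sum_add_distrib]
    congr 1
    rw [Finset.sum_eq_single n1]
    · simp [htt]
    · intro n _ hn; simp [hn]
    · intro h; simp at h; omega
  · intro n c h0
    by_cases h3 : Φ n c = 0
    swap
    · exact hold n c h3
    simp only [h3, zero_add, ne_eq, ite_eq_right_iff, not_forall] at h0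
    obtain ⟨rfl, h0⟩ := h0
    obtain ⟨h4, h5⟩ := hΦ1 c h0
    have h6 : p ∣ V := (ZMod.natCast_eq_zero_iff _ _).1 h5
    have h7 : 1 ≤ s := one_le_padicValNat_of_dvd (by omega) h6
    have h8 : 2 ≤ p ^ s := hp.out.two_le.trans (Nat.le_self_pow (by omega) p)
    have h9 : q * 2 * N ≤ q * p ^ s * N := by gcongr
    refine ⟨?_, by omega, by nlinarith, h4⟩
    have := (val_shift (s := 0) (n := n) hpq (p ^ s * N)).2.1 (by
      simpa [← hn1, mul_assoc] using h6)
    simpa using this
  · intro n c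
    simp only [hI.2 n c]
    split_ifs with h
    · subst h
      have : (n : ZMod q) = V := by rw [← hn1]; simp
      rw [this, hΦ2]; ring
    · simp

end Cd3
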