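import Pool.Agent.P.MP_013f39_al.C3

/-! The counting argument: not all cup products of three low letters are coboundaries. -/

namespace Cd3

variable {p : ℕ} [hp : Fact p.Prime] {Γ : Type} [Group Γ]
variable {S : NG p Γ} {q : ℕ}

abbrev Idx (M : ℕ) := Fin M × Fin M × Fin M

variable (S) in
noncomputable def om (M : ℕ) (c : Idx M → ZMod p) (x y z : Alg p Γ) : ZMod p :=
  ∑ t : Idx M, c t * (lin (S.a (4 * M + t.1)) x * lin (S.a (5 * M + t.2.1)) y *
    lin (S.a (6 * M + t.2.2)) z)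

lemma om_add {M : ℕ} (c c' : Idx M → ZMod p) (x y z : Alg p Γ) :
    om S M (c + c') x y z = om S M c x y z + om S M c' x y z := by
  simp [om, add_mul, Finset.sum_add_distrib]

lemma om_smul {M : ℕ} (r : ZMod p) (c : Idx M → ZMod p) (x y z : Alg p Γ) :
    om S M (r • c) x y z = r * om S M c x y z := by
  simp [om, Finset.mul_sum, mul_assoc]

lemma om1 (G : Good S q) {M : ℕ} (hM : 1 ≤ M) (c : Idx M → ZMod p) {a : ℕ} {x : Alg p Γ}
    (hx : F S (4 * M) a x) (ha : 5 * M ≤ a) (y z : Alg p Γ) : om S M c x y z = 0 :=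
  Finset.sum_eq_zero fun t _ => by
    rw [G.lev (4 * M) _ x (by omega) (hx.mono (by have := t.1.2; omega))]; simp

lemma om2 (G : Good S q) {M : ℕ} (hM : 1 ≤ M) (c : Idx M → ZMod p) {a : ℕ} {y : Alg p Γ}
    (hx : F S (4 * M) a y) (ha : 6 * M ≤ a) (x z : Alg p Γ) : om S M c x y z = 0 :=
  Finset.sum_eq_zero fun t _ => by
    rw [G.lev (4 * M) _ y (by omega) (hx.mono (by have := t.2.1.2; omega))]; simp

lemma om3 (G : Good S q) {M : ℕ} (hM : 1 ≤ M) (c : Idx M → ZMod p) {a : ℕ} {z : Alg p Γ}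
    (hx : F S (4 * M) a z) (ha : 7 * M ≤ a) (x y : Alg p Γ) : om S M c x y z = 0 :=
  Finset.sum_eq_zero fun t _ => by
    rw [G.lev (4 * M) _ z (by omega) (hx.mono (by have := t.2.2.2; omega))]; simp

lemma om_low (G : Good S q) {M : ℕ} (hM : 1 ≤ M) (c : Idx M → ZMod p) {L : ℕ} (hL : 18 * M ≤ L) :
    Low S (4 * M) L (om S M c) := by
  intro a b a' x y z h hx hy hz
  by_cases h1 : 5 * M ≤ a
  · exact om1 G hM c hx h1 _ _
  by_cases h2 : 6 * M ≤ b
  · exact om2 G hM c hy h2 _ _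
  exact om3 G hM c hz (by omega) _ _

lemma lin_a_e {d i : ℕ} (hi : 1 ≤ i) : lin (S.a d) (e S i) = if d = i then 1 else 0 := by
  rw [e, map_sub, lin_o, lin_one, S.a_one, sub_zero, NG.a_g hi]

variable (S) in
/-- the cup products that are coboundaries of cochains of level at most `W` -/
def SW (M W : ℕ) : Submodule (ZMod p) (Bil p Γ × (Idx M → ZMod p)) where
  carrier := {u | Lev S (4 * M) u.1 W ∧ ∀ x y z, F S (4 * M) 1 x → F S (4 * M) 1 y →
    F S (4 * M) 1 z → dd u.1 x y z = om S M u.2 x y z}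
  zero_mem' := ⟨fun _ _ _ _ _ _ _ _ _ => rfl, fun x y z _ _ _ => by simp [dd, om]⟩
  add_mem' := by
    rintro u v ⟨h1, h2⟩ ⟨h3, h4⟩
    refine ⟨fun a b x y ha hb h hx hy => ?_, fun x y z hx hy hz => ?_⟩
    · simp [h1 a b x y ha hb h hx hy, h3 a b x y ha hb h hx hy]
    · rw [Prod.fst_add, Prod.snd_add, dd_add, om_add, h2 x y z hx hy hz, h4 x y z hx hy hz]
  smul_mem' := by
    rintro r u ⟨h1, h2⟩
    refine ⟨fun a b x y ha hb h hx hy => ?_, fun x y z hx hy hz => ?_⟩
    · simp [h1 a b x y ha hb h hx hy]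
    · rw [Prod.smul_fst, Prod.smul_snd, dd_smul, om_smul, h2 x y z hx hy hz]

lemma SW_bot (G : Good S q) (hq : 3 ≤ q) {M : ℕ} (hM : 1 ≤ M) :
    (SW S M (18 * M)).map (LinearMap.snd _ _ _) = ⊥ := by
  rw [eq_bot_iff]
  rintro _ ⟨⟨η, c⟩, ⟨hL, hd⟩, rfl⟩
  simp only [LinearMap.snd_apply, Submodule.mem_bot] at hL hd ⊢
  ext ⟨i, j, l⟩
  have hN : 1 ≤ 4 * M := by omega
  have hi := i.2
  have hj := j.2
  have hl := l.2
  have Fi := F_e (S := S) hN (show 4 * M ≤ 4 * M + i by omega)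
  have Fj := F_e (S := S) hN (show 4 * M ≤ 5 * M + j by omega)
  have Fl := F_e (S := S) hN (show 4 * M ≤ 6 * M + l by omega)
  have Fi1 := Fi.mono (show 1 ≤ _ by omega)
  have Fj1 := Fj.mono (show 1 ≤ _ by omega)
  have Fl1 := Fl.mono (show 1 ≤ _ by omega)
  have big : ∀ a b c : ℕ, 4 * M ≤ a → 4 * M ≤ b → 4 * M ≤ c → 18 * M < a + q * b + c := by
    intro a b c _ _ _
    have : 3 * b ≤ q * b := Nat.mul_le_mul_right _ hq
    omega
  have e1 := jacobi η (e S (4 * M + i)) (e S (5 * M + j)) (e S (6 * M + l))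
  rw [psi_deep G hN hL (by omega) (by omega) (by omega) (fun _ => big _ _ _ (by omega) (by omega)
      (by omega)) (fun _ => big _ _ _ (by omega) (by omega) (by omega)),
    psi_deep G hN hL (by omega) (by omega) (by omega) (fun _ => big _ _ _ (by omega) (by omega)
      (by omega)) (fun _ => big _ _ _ (by omega) (by omega) (by omega)),
    psi_deep G hN hL (by omega) (by omega) (by omega) (fun _ => big _ _ _ (by omega) (by omega)
      (by omega)) (fun _ => big _ _ _ (by omega) (by omega) (by omega)),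
    alt, hd _ _ _ Fi1 Fj1 Fl1, hd _ _ _ Fj1 Fl1 Fi1, hd _ _ _ Fl1 Fi1 Fj1, hd _ _ _ Fj1 Fi1 Fl1,
    hd _ _ _ Fl1 Fj1 Fi1, hd _ _ _ Fi1 Fl1 Fj1, om1 G hM c Fj (by omega), om1 G hM c Fl (by omega),
    om1 G hM c Fj (by omega), om1 G hM c Fl (by omega), om2 G hM c Fl (by omega), om,
    Finset.sum_eq_single (i, j, l)] at e1
  · simpa [lin_a_e (S := S) (show 1 ≤ 4 * M + i by omega), lin_a_e (S := S)
      (show 1 ≤ 5 * M + j by omega), lin_a_e (S := S) (show 1 ≤ 6 * M + l by omega)] using e1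
  · rintro ⟨i', j', l'⟩ _ hne
    rw [lin_a_e (by omega), lin_a_e (by omega), lin_a_e (by omega)]
    by_cases h1 : i' = i
    · by_cases h2 : j' = j
      · have h3 : l' ≠ l := by rintro rfl; subst h1 h2; exact hne rfl
        rw [if_neg (c := 6 * M + _ = _) (by intro h; apply h3; ext; simpa using h)]; simp
      · rw [if_neg (c := 5 * M + _ = _) (by intro h; apply h2; ext; simpa using h)]; simp
    · rw [if_neg (c := 4 * M + _ = _) (by intro h; apply h1; ext; simpa using h)]; simp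
  · simp

lemma SW_step (G : Good S q) {M : ℕ} (hM : 1 ≤ M) {W : ℕ} (hW : 18 * M ≤ W) :
    Module.finrank (ZMod p) ((SW S M (W + 1)).map (LinearMap.snd _ _ _)) ≤
      Module.finrank (ZMod p) ((SW S M W).map (LinearMap.snd _ _ _)) + (W + 2) := by
  let r : Bil p Γ →ₗ[ZMod p] (Fin (W + 2) → ZMod p) :=
    { toFun := fun η i => psi η (e S i) (e S (W + 1 - i))
      map_add' := fun η η' => by ext i; simp only [psi, LinearMap.add_apply, Pi.add_apply]; ring
      map_smul' := fun c η => by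
        ext i
        simp only [psi, LinearMap.smul_apply, Pi.smul_apply, smul_eq_mul, RingHom.id_apply]; ring }
  have key : ∀ η c, (η, c) ∈ SW S M (W + 1) → r η = 0 →
      c ∈ (SW S M W).map (LinearMap.snd _ _ _) := by
    rintro η c ⟨hL, hd⟩ hr
    simp only at hL hd
    obtain ⟨ν, hν⟩ := descent G (by omega) η hL (by
      intro a b a' x y z ha hb ha' h hx hy hz
      rw [← sub_eq_zero]
      exact (hd x y z (hx.mono ha) (hy.mono hb) (hz.mono ha')).trans
        (om_low G hM c hW a b a' x y z (by omega) hx hy hz)) (by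
      intro i j _ _ hs _ _
      have := congrFun hr ⟨i, by omega⟩
      simp only [r, LinearMap.coe_mk, AddHom.coe_mk, Pi.zero_apply, psi] at this
      rw [show W + 1 - i = j by omega] at this
      exact sub_eq_zero.1 this)
    refine ⟨(η + (-1 : ZMod p) • mulBil ν, c), ⟨?_, ?_⟩, rfl⟩
    · intro a b x y ha hb hab hx hy
      simp only [LinearMap.add_apply, LinearMap.smul_apply, mulBil_apply,
        hν a b x y ha hb (by omega) hx hy, smul_eq_mul]
      ring
    · intro x y z hx hy hz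
      simp only [dd_add, dd_smul, dd_mulBil, mul_zero, add_zero, hd x y z hx hy hz]
  simpa using rank_lemma (SW S M (W + 1)) r _ key

lemma SW_bound (G : Good S q) (hq : 3 ≤ q) {M : ℕ} (hM : 1 ≤ M) {W : ℕ} (hW : 18 * M ≤ W) :
    Module.finrank (ZMod p) ((SW S M W).map (LinearMap.snd _ _ _)) ≤ (W + 1) ^ 2 := by
  induction W, hW using Nat.le_induction with
  | base => rw [SW_bot G hq hM]; simp
  | succ W hW ih => have := SW_step G hM hW; nlinarith

variable [NeZero q]

/-- states with tracked data -/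
def HW {M : ℕ} (K : Coch S q (4 * M)) (W : ℕ) :
    Submodule (ZMod p) ((Bil p Γ × (ℕ → ZMod q → ZMod p)) × (Idx M → ZMod p)) where
  carrier := {u | Lev S (4 * M) u.1.1 W ∧ Eqn K (om S M u.2) W u.1.1 u.1.2}
  zero_mem' := ⟨fun _ _ _ _ _ _ _ _ _ => rfl, fun x y z _ _ _ => by simp [dd, om]⟩
  add_mem' := by
    rintro u v ⟨h1, h2⟩ ⟨h3, h4⟩
    refine ⟨fun a b x y ha hb h hx hy => ?_, fun x y z hx hy hz => ?_⟩
    · simp [h1 a b x y ha hb h hx hy, h3 a b x y ha hb h hx hy]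
    · simp only [Prod.fst_add, Prod.snd_add, dd_add, om_add, h2 x y z hx hy hz, h4 x y z hx hy hz,
        Pi.add_apply, add_mul, Finset.sum_add_distrib]
      ring
  smul_mem' := by
    rintro r u ⟨h1, h2⟩
    refine ⟨fun a b x y ha hb h hx hy => ?_, fun x y z hx hy hz => ?_⟩
    · simp [h1 a b x y ha hb h hx hy]
    · simp only [Prod.smul_fst, Prod.smul_snd, dd_smul, om_smul, h2 x y z hx hy hz,
        Pi.smul_apply, smul_eq_mul, mul_add, Finset.mul_sum, mul_assoc]

theorem not_all (G : Good S q) (hp2 : p ≠ 2) (hpq : p ∣ q) (hq : 3 ≤ q) {M : ℕ}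
    (hM : 3000 * q ^ 2 ≤ M) (K : Coch S q (4 * M)) :
    ¬ ∀ c : Idx M → ZMod p, ∃ η W, (η, c) ∈ SW S M W := by
  intro h
  have hM1 : 1 ≤ M := by nlinarith
  set W1 := 8 * (q * (4 * M) + 2 * q) with hW1
  have htop : (HW K W1).map (LinearMap.snd _ _ _) = ⊤ := by
    rw [eq_top_iff]
    intro c _
    obtain ⟨η, W, hL, hd⟩ := h c
    simp only at hL hd
    have key : ∀ n η Φ, Lev S (4 * M) η (W1 + n) → Eqn K (om S M c) (W1 + n) η Φ →
        Inv hpq (4 * M) (W1 + n) Φ → c ∈ (HW K W1).map (LinearMap.snd _ _ _) := by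
      intro n
      induction n with
      | zero => intro η Φ h1 h2 _; exact ⟨((η, Φ), c), ⟨h1, h2⟩, rfl⟩
      | succ n ih =>
        intro η Φ h1 h2 h3
        obtain ⟨η', Φ', h4, h5, h6⟩ := step_high G K hp2 hpq hq (by omega)
          (om_low G hM1 c (by omega)) (W := W1 + n) (by omega) h1 h2 h3
        exact ih η' Φ' h4 h5 h6
    refine key W η 0 (fun a b x y ha hb hab => hL a b x y ha hb (by omega)) ?_ ⟨by simp, by simp⟩
    intro x y z hx hy hz
    simp [hd x y z hx hy hz]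
  let r : (Bil p Γ × (ℕ → ZMod q → ZMod p)) →ₗ[ZMod p] (Fin W1 × ZMod q → ZMod p) :=
    { toFun := fun u t => u.2 t.1 t.2
      map_add' := fun _ _ => rfl
      map_smul' := fun _ _ => rfl }
  have key : ∀ u c, (u, c) ∈ HW K W1 → r u = 0 →
      c ∈ (SW S M W1).map (LinearMap.snd _ _ _) := by
    rintro ⟨η, Φ⟩ c ⟨hL, hd⟩ hr
    refine ⟨(η, c), ⟨hL, fun x y z hx hy hz => ?_⟩, rfl⟩
    rw [hd x y z hx hy hz, Finset.sum_eq_zero, add_zero]
    intro n hn
    refine Finset.sum_eq_zero fun c' _ => ?_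
    have : Φ n c' = 0 := congrFun hr (⟨n, Finset.mem_range.1 hn⟩, c')
    simp [this]
  have h1 := rank_lemma (HW K W1) r _ key
  have h2 := SW_bound G hq hM1 (W := W1) (by nlinarith)
  rw [htop] at h1
  simp only [finrank_top, Module.finrank_fintype_fun_eq_card, Fintype.card_prod, Fintype.card_fin,
    ZMod.card] at h1
  have h3 : W1 + 1 ≤ 49 * (q * M) := by nlinarith
  have h4 : (W1 + 1) ^ 2 ≤ (49 * (q * M)) ^ 2 := Nat.pow_le_pow_left h3 2
  have h5 : W1 * q ≤ 49 * (q * M) * (q * M) := by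
    apply Nat.mul_le_mul (by omega); nlinarith
  have h6 : 3000 * q ^ 2 * (M * M) ≤ M * (M * M) := Nat.mul_le_mul_right _ hM
  have h7 : 1 ≤ (q * M) ^ 2 := Nat.one_le_pow _ _ (by positivity)
  nlinarith

end Cd3
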