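import Pool.Agent.P.MP_013f39_al.E1

/-! The third continuous cohomology of `H_r` with coefficients in `F_p` is non-zero (`p` odd). -/

namespace Pool.Agent.Results.MP_013f39_al.CdGeThree

open PowerSeries
open scoped PowerSeries.WithPiTopology

/-- The group `H_r`: all series `x (a_0 + a_1 x^q + a_2 x^(2q) + ...)` with `a_0 = 1`, `q = p^r`. -/
def H (p r : ℕ) : Set (PowerSeries (ZMod p)) :=
  {f | ∃ a : ℕ → ZMod p, a 0 = 1 ∧
    f = X * (PowerSeries.mk a).subst (X ^ p ^ r : PowerSeries (ZMod p))}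

/-- Composition of series: `comp f g = f(g(x))`. -/
noncomputable def comp {p : ℕ} (f g : PowerSeries (ZMod p)) : PowerSeries (ZMod p) := f.subst g

theorem result (p r : ℕ) (hp : p.Prime) (hp2 : p ≠ 2) (hr : 1 ≤ r) :
    ∃ c : PowerSeries (ZMod p) → PowerSeries (ZMod p) → PowerSeries (ZMod p) → ZMod p,
      ContinuousOn
        (fun t : PowerSeries (ZMod p) × PowerSeries (ZMod p) × PowerSeries (ZMod p) =>
          c t.1 t.2.1 t.2.2) (H p r ×ˢ H p r ×ˢ H p r) ∧
      (∀ f ∈ H p r, ∀ g ∈ H p r, ∀ h ∈ H p r, ∀ k ∈ H p r,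
        c g h k - c (comp f g) h k + c f (comp g h) k - c f g (comp h k) + c f g h = 0) ∧
      ¬ ∃ b : PowerSeries (ZMod p) → PowerSeries (ZMod p) → ZMod p,
        ContinuousOn (fun t : PowerSeries (ZMod p) × PowerSeries (ZMod p) => b t.1 t.2)
          (H p r ×ˢ H p r) ∧
        ∀ f ∈ H p r, ∀ g ∈ H p r, ∀ h ∈ H p r,
          c f g h = b g h - b (comp f g) h + b f (comp g h) - b f g := by
  have : Fact p.Prime := ⟨hp⟩
  refine Cd3.final hp2 hr (H p r) fun f => ⟨?_, ?_⟩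
  · rintro ⟨a, ha, rfl⟩
    exact ⟨⟨PowerSeries.mk a, by simpa using ha⟩, rfl⟩
  · rintro ⟨u, rfl⟩
    refine ⟨fun n => coeff n u.val, by simpa using u.cc, ?_⟩
    have : (PowerSeries.mk fun n => coeff n u.val) = u.val := by ext; simp
    rw [this]; rfl

end Pool.Agent.Results.MP_013f39_al.CdGeThree
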