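import Pool.Agent.P.MP_013f39_al.C4

/-! From the vanishing of the third cohomology of the group to that of its open subgroups. -/

namespace Cd3

variable {p : ℕ} [hp : Fact p.Prime] {Γ : Type} [Group Γ]

section gen

variable (S : NG p Γ) (n : ℕ)

/-- continuous homogeneous cochains invariant under `D d` -/
def CC (d : ℕ) : Submodule (ZMod p) ((Fin n → Γ) → ZMod p) where
  carrier := {f | (∃ K, ∀ x x' : Fin n → Γ, (∀ i, S.Eqv K (x i) (x' i)) → f x = f x') ∧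
    ∀ h, S.D d h → ∀ x, f (fun i => h * x i) = f x}
  zero_mem' := ⟨⟨0, fun _ _ _ => rfl⟩, fun _ _ _ => rfl⟩
  add_mem' := by
    rintro f f' ⟨⟨K, h1⟩, h2⟩ ⟨⟨K', h3⟩, h4⟩
    refine ⟨⟨K + K', fun x x' h => ?_⟩, fun h hh x => ?_⟩
    · simp only [Pi.add_apply]
      rw [h1 x x' fun i => (h i).anti (by omega), h3 x x' fun i => (h i).anti (by omega)]
    · simp only [Pi.add_apply, h2 h hh, h4 h hh]
  smul_mem' := by
    rintro c f ⟨⟨K, h1⟩, h2⟩
    refine ⟨⟨K, fun x x' h => ?_⟩, fun h hh x => ?_⟩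
    · simp only [Pi.smul_apply, h1 x x' h]
    · simp only [Pi.smul_apply, h2 h hh]

variable (p) in
def tau (γ : Γ) : Module.End (ZMod p) ((Fin n → Γ) → ZMod p) where
  toFun f x := f fun i => γ * x i
  map_add' _ _ := rfl
  map_smul' _ _ := rfl

variable {S n}

lemma tau_pow (γ : Γ) (m : ℕ) (f : (Fin n → Γ) → ZMod p) (x : Fin n → Γ) :
    (tau p n γ ^ m) f x = f fun i => γ ^ m * x i := by
  induction m generalizing x with
  | zero => simp
  | succ m ih =>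
    rw [pow_succ', Module.End.mul_apply]
    change (tau p n γ ^ m) f (fun i => γ * x i) = _
    rw [ih]; simp [pow_succ, mul_assoc]

lemma T_apply (γ : Γ) (f : (Fin n → Γ) → ZMod p) (x : Fin n → Γ) :
    (tau p n γ - 1) f x = f (fun i => γ * x i) - f x := rfl

lemma T_mem {d : ℕ} (γ : Γ) {f : (Fin n → Γ) → ZMod p} (hf : f ∈ CC S n d) :
    (tau p n γ - 1) f ∈ CC S n d := by
  refine sub_mem ?_ hf
  obtain ⟨⟨K, h1⟩, h2⟩ := hf
  refine ⟨⟨K, fun x x' h => h1 _ _ fun i => (h i).mul_left γ⟩, fun h hh x => ?_⟩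
  have := h2 _ (hh.conj γ) fun i => γ * x i
  simpa [tau, mul_assoc] using this

lemma T_pow_mem {d : ℕ} (γ : Γ) (m : ℕ) {f : (Fin n → Γ) → ZMod p} (hf : f ∈ CC S n d) :
    ((tau p n γ - 1) ^ m) f ∈ CC S n d := by
  induction m with
  | zero => simpa using hf
  | succ m ih => rw [pow_succ', Module.End.mul_apply]; exact T_mem γ ih

lemma a_g_pow {d : ℕ} (hd : 1 ≤ d) (m : ℕ) : S.a d (S.g d ^ m) = m := by
  induction m with
  | zero => simp [S.a_one]
  | succ m ih => rw [pow_succ, (NG.D_g hd).a_mul _ le_rfl, ih, NG.a_g_self hd]; simp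

lemma T_pow_p {d : ℕ} (hd : 1 ≤ d) {f : (Fin n → Γ) → ZMod p} (hf : f ∈ CC S n (d + 1)) :
    ((tau p n (S.g d) - 1) ^ p) f = 0 := by
  have : CharP (Module.End (ZMod p) ((Fin n → Γ) → ZMod p)) p :=
    charP_of_injective_algebraMap' (ZMod p) p
  rw [sub_pow_char_of_commute _ (Commute.one_right _), one_pow]
  ext x
  rw [LinearMap.sub_apply, Pi.sub_apply, tau_pow,
    hf.2 _ (((NG.D_g hd).pow p).succ (by rw [a_g_pow hd]; simp))]
  simp

lemma mem_of_T {d : ℕ} (hd : 1 ≤ d) {f : (Fin n → Γ) → ZMod p} (hf : f ∈ CC S n (d + 1))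
    (h0 : (tau p n (S.g d) - 1) f = 0) : f ∈ CC S n d := by
  refine ⟨hf.1, fun h hh x => ?_⟩
  have h1 : ∀ (m : ℕ) (x : Fin n → Γ), f (fun i => S.g d ^ m * x i) = f x := by
    intro m
    induction m with
    | zero => simp
    | succ m ih =>
      intro x
      have := congrFun h0 x
      rw [T_apply, Pi.zero_apply, sub_eq_zero] at this
      rw [← this, ← ih fun i => S.g d * x i]; simp [pow_succ, mul_assoc]
  have hg := (NG.D_g (S := S) hd).pow (S.a d h).val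
  have h2 : S.D (d + 1) (h * (S.g d ^ (S.a d h).val)⁻¹) := (hh.mul hg.inv).succ (by
    rw [hg.inv.a_mul _ le_rfl, hg.a_inv le_rfl, a_g_pow hd]; simp)
  rw [← h1 (S.a d h).val x, ← hf.2 _ h2 fun i => S.g d ^ (S.a d h).val * x i]
  simp [mul_assoc]

lemma exists_lift {d : ℕ} (hd : 1 ≤ d) {y : (Fin (n + 1) → Γ) → ZMod p} (hy : y ∈ CC S (n + 1) d)
    {m : ℕ} (hm : m < p) :
    ∃ y' ∈ CC S (n + 1) (d + 1), ((tau p (n + 1) (S.g d) - 1) ^ m) y' = y := by
  have key : ∀ (j : ℕ) (β : ZMod p → ZMod p), ((tau p (n + 1) (S.g d) - 1) ^ j)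
      (fun x => β (S.a d (x 0)) * y x) = fun x => (fwdDiff 1)^[j] β (S.a d (x 0)) * y x := by
    intro j
    induction j with
    | zero => intro β; simp
    | succ j ih =>
      intro β
      rw [pow_succ, Module.End.mul_apply, Function.iterate_succ_apply, ← ih]
      congr 1
      ext x
      rw [T_apply, hy.2 _ (NG.D_g hd), (NG.D_g hd).a_mulL _ le_rfl, NG.a_g_self hd, fwdDiff]
      ring
  have hf : ((m.factorial : ℕ) : ZMod p) ≠ 0 := by
    rw [Ne, ZMod.natCast_eq_zero_iff, hp.out.dvd_factorial]; omega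
  refine ⟨((m.factorial : ℕ) : ZMod p)⁻¹ • fun x => S.a d (x 0) ^ m * y x,
    Submodule.smul_mem _ _ ?_, ?_⟩
  · obtain ⟨⟨K, h1⟩, h2⟩ := hy
    refine ⟨⟨K + d + 1, fun x x' h => ?_⟩, fun h hh x => ?_⟩
    · simp only [h1 x x' fun i => (h i).anti (by omega), h 0 d (by omega)]
    · simp only [h2 h (hh.anti (by omega)), hh.a_mulL _ (Nat.le_succ d), hh d (by omega), add_zero]
  · rw [map_smul, key m fun r => r ^ m, fwdDiff_iter_eq_factorial]
    ext x
    simp only [Pi.smul_apply, Pi.natCast_apply, smul_eq_mul]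
    field_simp

end gen

variable (p Γ) in
def d2 : ((Fin 3 → Γ) → ZMod p) →ₗ[ZMod p] ((Fin 4 → Γ) → ZMod p) where
  toFun f x := f ![x 1, x 2, x 3] - f ![x 0, x 2, x 3] + f ![x 0, x 1, x 3] - f ![x 0, x 1, x 2]
  map_add' _ _ := by ext; simp only [Pi.add_apply]; ring
  map_smul' _ _ := by ext; simp only [Pi.smul_apply, smul_eq_mul, RingHom.id_apply]; ring

variable (p Γ) in
def d3 : ((Fin 4 → Γ) → ZMod p) →ₗ[ZMod p] ((Fin 5 → Γ) → ZMod p) where
  toFun f x := f ![x 1, x 2, x 3, x 4] - f ![x 0, x 2, x 3, x 4] + f ![x 0, x 1, x 3, x 4] -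
    f ![x 0, x 1, x 2, x 4] + f ![x 0, x 1, x 2, x 3]
  map_add' _ _ := by ext; simp only [Pi.add_apply]; ring
  map_smul' _ _ := by ext; simp only [Pi.smul_apply, smul_eq_mul, RingHom.id_apply]; ring

omit hp in
lemma mul_vec3 (h a b c : Γ) : (fun i => h * ![a, b, c] i) = ![h * a, h * b, h * c] := by
  ext i; fin_cases i <;> rfl

omit hp in
lemma mul_vec4 (h a b c d : Γ) :
    (fun i => h * ![a, b, c, d] i) = ![h * a, h * b, h * c, h * d] := by
  ext i; fin_cases i <;> rfl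

omit [Group Γ] in
lemma d3_d2 (f : (Fin 3 → Γ) → ZMod p) : d3 p Γ (d2 p Γ f) = 0 := by
  ext x; simp [d3, d2]; ring

lemma d2_T (γ : Γ) (m : ℕ) (f : (Fin 3 → Γ) → ZMod p) :
    d2 p Γ (((tau p 3 γ - 1) ^ m) f) = ((tau p 4 γ - 1) ^ m) (d2 p Γ f) := by
  induction m with
  | zero => simp
  | succ m ih =>
    rw [pow_succ', pow_succ', Module.End.mul_apply, Module.End.mul_apply, ← ih]
    ext x
    simp only [d2, LinearMap.coe_mk, AddHom.coe_mk, T_apply, mul_vec3]; ring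

lemma d3_T (γ : Γ) (m : ℕ) (f : (Fin 4 → Γ) → ZMod p) :
    d3 p Γ (((tau p 4 γ - 1) ^ m) f) = ((tau p 5 γ - 1) ^ m) (d3 p Γ f) := by
  induction m with
  | zero => simp
  | succ m ih =>
    rw [pow_succ', pow_succ', Module.End.mul_apply, Module.End.mul_apply, ← ih]
    ext x
    simp only [d3, LinearMap.coe_mk, AddHom.coe_mk, T_apply, mul_vec4]; ring

variable {S : NG p Γ}

lemma d2_mem {d : ℕ} {f : (Fin 3 → Γ) → ZMod p} (hf : f ∈ CC S 3 d) : d2 p Γ f ∈ CC S 4 d := by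
  obtain ⟨⟨K, h1⟩, h2⟩ := hf
  refine ⟨⟨K, fun x x' h => ?_⟩, fun h hh x => ?_⟩
  · have h3 : ∀ i j l, f ![x i, x j, x l] = f ![x' i, x' j, x' l] := fun i j l =>
      h1 _ _ fun t => by fin_cases t <;> exact h _
    simp only [d2, LinearMap.coe_mk, AddHom.coe_mk, h3]
  · simp only [d2, LinearMap.coe_mk, AddHom.coe_mk, ← mul_vec3, h2 h hh]

variable (S) in
def Van (d : ℕ) : Prop := ∀ f ∈ CC S 4 d, d3 p Γ f = 0 → ∃ y ∈ CC S 3 d, d2 p Γ y = f

lemma Van.succ {d : ℕ} (hd : 1 ≤ d) (h : Van S d) : Van S (d + 1) := by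
  have key : ∀ m ≤ p, ∀ f ∈ CC S 4 (d + 1), d3 p Γ f = 0 → ((tau p 4 (S.g d) - 1) ^ m) f = 0 →
      ∃ y ∈ CC S 3 (d + 1), d2 p Γ y = f := by
    intro m
    induction m with
    | zero => intro _ f _ _ h0; exact ⟨0, zero_mem _, by simpa using h0.symm⟩
    | succ m ih =>
      intro hm f hf hdf h0
      rw [pow_succ', Module.End.mul_apply] at h0
      obtain ⟨y, hy, hy'⟩ := h _ (mem_of_T hd (T_pow_mem _ m hf) h0) (by rw [d3_T, hdf, map_zero])
      obtain ⟨y', h1, h2⟩ := exists_lift hd hy (show m < p by omega)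
      obtain ⟨z, h3, h4⟩ := ih (by omega) (f - d2 p Γ y') (sub_mem hf (d2_mem h1))
        (by rw [map_sub, hdf, d3_d2, sub_zero]) (by rw [map_sub, ← d2_T, h2, hy', sub_self])
      exact ⟨z + y', add_mem h3 h1, by rw [map_add, h4, sub_add_cancel]⟩
  exact fun f hf hdf => key p le_rfl f hf hdf (T_pow_p hd hf)

variable (S) in
/-- vanishing of the third continuous cohomology, inhomogeneous form -/
def H3Zero : Prop := ∀ f : Γ → Γ → Γ → ZMod p,
  (∃ K, ∀ g h l g' h' l', S.Eqv K g g' → S.Eqv K h h' → S.Eqv K l l' → f g h l = f g' h' l') →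
  (∀ g h l m, f h l m - f (g * h) l m + f g (h * l) m - f g h (l * m) + f g h l = 0) →
  ∃ b : Γ → Γ → ZMod p, (∃ K, ∀ g h g' h', S.Eqv K g g' → S.Eqv K h h' → b g h = b g' h') ∧
    ∀ g h l, f g h l = b h l - b (g * h) l + b g (h * l) - b g h

lemma van_one (h : H3Zero S) : Van S 1 := by
  rintro f ⟨⟨K, h1⟩, h2⟩ hd
  have h3 : ∀ γ a b c d, f ![γ * a, γ * b, γ * c, γ * d] = f ![a, b, c, d] := fun γ a b c d => by
    rw [← mul_vec4, h2 γ (NG.D_all γ)]
  obtain ⟨b, ⟨K', h4⟩, h5⟩ := h (fun g h l => f ![1, g, g * h, g * h * l])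
    ⟨K, fun g h l g' h' l' hg hh hl => h1 _ _ fun t => by
      fin_cases t
      exacts [NG.Eqv.refl _ _, hg, hg.mul hh, (hg.mul hh).mul hl]⟩ (by
    intro g h l m
    have e1 := congrFun hd ![1, g, g * h, g * h * l, g * h * l * m]
    have e2 := h3 g 1 h (h * l) (h * l * m)
    simp only [d3, LinearMap.coe_mk, AddHom.coe_mk, Pi.zero_apply] at e1
    simp only [mul_assoc, mul_one] at e1 e2 ⊢
    rw [← e2]; simpa using e1)
  refine ⟨fun x => b ((x 0)⁻¹ * x 1) ((x 1)⁻¹ * x 2), ⟨⟨K', fun x x' h => h4 _ _ _ _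
    ((h 0).inv.mul (h 1)) ((h 1).inv.mul (h 2))⟩, fun h _ x => by simp [mul_assoc]⟩, ?_⟩
  ext x
  have e1 := h5 ((x 0)⁻¹ * x 1) ((x 1)⁻¹ * x 2) ((x 2)⁻¹ * x 3)
  have e2 := h3 (x 0)⁻¹ (x 0) (x 1) (x 2) (x 3)
  have e3 : ![x 0, x 1, x 2, x 3] = x := by ext i; fin_cases i <;> rfl
  simp only [mul_assoc, mul_inv_cancel_left, inv_mul_cancel] at e1 e2
  rw [e2, e3] at e1
  rw [e1]; simp [d2]

lemma van_all (h : H3Zero S) {d : ℕ} (hd : 1 ≤ d) : Van S d := by
  induction d, hd using Nat.le_induction with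
  | base => exact van_one h
  | succ d hd ih => exact ih.succ hd

end Cd3
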