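import Pool.Agent.P.MP_013f39_al.D1

/-! The abstract theorem: the third cohomology does not vanish. -/

namespace Cd3

variable {p : ℕ} [hp : Fact p.Prime] {Γ : Type} [Group Γ] {S : NG p Γ} {q N : ℕ}

lemma F.ind {δ : ℕ} {x : Alg p Γ} (hx : F S N δ x) {P : Alg p Γ → Prop} (h0 : P 0)
    (ho : ∀ g, S.D N g → P (o g)) (hadd : ∀ x y, P x → P y → P (x + y))
    (hs : ∀ (c : ZMod p) x, P x → P (c • x)) : P x := by
  let T : Submodule (ZMod p) (Alg p Γ) :=
    { carrier := {x | P x}
      zero_mem' := h0
      add_mem' := fun {x y} hx hy => hadd x y hx hy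
      smul_mem' := fun c x hx => hs c x hx }
  have := hx.kill T.mkQ fun u hu => (Submodule.Quotient.mk_eq_zero T).2 (ho u hu)
  exact (Submodule.Quotient.mk_eq_zero T).1 this

lemma kill3 (Q : Alg p Γ → Alg p Γ → Alg p Γ → ZMod p)
    (a1 : ∀ x x' y z, Q (x + x') y z = Q x y z + Q x' y z)
    (a2 : ∀ x y y' z, Q x (y + y') z = Q x y z + Q x y' z)
    (a3 : ∀ x y z z', Q x y (z + z') = Q x y z + Q x y z')
    (s1 : ∀ (c : ZMod p) x y z, Q (c • x) y z = c * Q x y z)
    (s2 : ∀ (c : ZMod p) x y z, Q x (c • y) z = c * Q x y z)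
    (s3 : ∀ (c : ZMod p) x y z, Q x y (c • z) = c * Q x y z)
    (h : ∀ g h l, S.D N g → S.D N h → S.D N l → Q (o g) (o h) (o l) = 0)
    {a b c : ℕ} {x y z : Alg p Γ} (hx : F S N a x) (hy : F S N b y) (hz : F S N c z) :
    Q x y z = 0 := by
  refine hx.ind (P := fun x => Q x y z = 0) (by simpa using s1 0 0 y z) (fun g hg => ?_)
    (fun x x' h1 h2 => by rw [a1, h1, h2, add_zero]) (fun c x h1 => by rw [s1, h1, mul_zero])
  refine hy.ind (P := fun y => Q (o g) y z = 0) (by simpa using s2 0 (o g) 0 z) (fun g' hg' => ?_)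
    (fun x x' h1 h2 => by rw [a2, h1, h2, add_zero]) (fun c x h1 => by rw [s2, h1, mul_zero])
  exact hz.ind (P := fun z => Q (o g) (o g') z = 0) (by simpa using s3 0 (o g) (o g') 0)
    (fun g'' hg'' => h _ _ _ hg hg' hg'')
    (fun x x' h1 h2 => by rw [a3, h1, h2, add_zero]) (fun c x h1 => by rw [s3, h1, mul_zero])

lemma hom2 (G : Good S q) (hN : 1 ≤ N) {u v : Γ} (hu : S.D N u) (hv : S.D N v) {i : ℕ}
    (hi : i < 2 * N) : S.a i (u * v) = S.a i u + S.a i v := by
  have := G.lev N i _ hN ((F.of_sub le_rfl hu).mul' (F.of_sub le_rfl hv) (by omega))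
  simp only [mul_sub, sub_mul, ← o_mul, mul_one, one_mul, map_sub, lin_o, lin_one, S.a_one] at this
  linear_combination this

lemma exists_beta (G : Good S q) (hN : 1 ≤ N) : ∃ β : ℕ → Γ → ZMod p,
    (∀ i < 2 * N, ∀ u g, S.D N u → β i (u * g) = S.a i u + β i g) ∧
    ∀ i < 2 * N, ∀ g g', S.Eqv (2 * N) g g' → β i g = β i g' := by
  choose σ hσ using S.surj
  let τ : Γ → Γ := fun g => σ (fun i => if i < N then S.a i g else 0) (by simp [S.a_zero])
  have h1 : ∀ g g', S.Eqv N g g' → τ g = τ g' := by
    intro g g' h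
    simp only [τ]; congr 1; ext i
    split_ifs with hi
    · exact h i hi
    · rfl
  have h2 : ∀ g, S.D N (g * (τ g)⁻¹) := fun g =>
    NG.eqv_iff_L.1 fun i hi => by simp only [τ, hσ, if_pos hi]
  refine ⟨fun i g => S.a i (g * (τ g)⁻¹), fun i hi u g hu => ?_, fun i hi g g' h => ?_⟩
  · have : τ (u * g) = τ g := h1 _ _ fun j hj => by rw [hu.a_mulL _ hj.le, hu j hj, add_zero]
    simp only [this, mul_assoc]
    exact hom2 G hN hu (h2 g) hi
  · simp only [h1 g g' (h.anti (by omega))]
    exact h.mul_right _ i hi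

theorem abstract_main [NeZero q] (G : Good S q) (hp2 : p ≠ 2) (hpq : p ∣ q) (hq : 3 ≤ q)
    (K : ∀ N, 1 ≤ N → Coch S q N) : ¬ H3Zero S := by
  intro H
  set M := 3000 * q ^ 2 with hM
  have hM1 : 1 ≤ M := by nlinarith
  have hN : 1 ≤ 4 * M := by omega
  refine not_all G hp2 hpq hq hM.ge (K _ hN) fun c => ?_
  obtain ⟨β, hβ1, hβ2⟩ := exists_beta G hN
  have b1 : ∀ t : Idx M, 4 * M + t.1 < 2 * (4 * M) := fun t => by have := t.1.2; omega
  have b2 : ∀ t : Idx M, 5 * M + t.2.1 < 2 * (4 * M) := fun t => by have := t.2.1.2; omega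
  have b3 : ∀ t : Idx M, 6 * M + t.2.2 < 2 * (4 * M) := fun t => by have := t.2.2.2; omega
  let f : (Fin 4 → Γ) → ZMod p := fun x => ∑ t : Idx M, c t *
    ((β (4 * M + t.1) (x 1) - β (4 * M + t.1) (x 0)) *
      (β (5 * M + t.2.1) (x 2) - β (5 * M + t.2.1) (x 1)) *
      (β (6 * M + t.2.2) (x 3) - β (6 * M + t.2.2) (x 2)))
  obtain ⟨y, ⟨⟨K0, hy1⟩, hy2⟩, hy⟩ := van_all H hN f
    ⟨⟨2 * (4 * M), fun x x' h => Finset.sum_congr rfl fun t _ => by
      simp only [fun i => hβ2 _ (b1 t) _ _ (h i), fun i => hβ2 _ (b2 t) _ _ (h i),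
        fun i => hβ2 _ (b3 t) _ _ (h i)]⟩,
      fun h hh x => Finset.sum_congr rfl fun t _ => by
        simp only [hβ1 _ (b1 t) _ _ hh, hβ1 _ (b2 t) _ _ hh, hβ1 _ (b3 t) _ _ hh]; ring⟩ (by
    ext x
    simp only [d3, LinearMap.coe_mk, AddHom.coe_mk, Pi.zero_apply, f, ← Finset.sum_sub_distrib,
      ← Finset.sum_add_distrib]
    refine Finset.sum_eq_zero fun t _ => ?_
    simp
    ring)
  let η0 : Γ → Γ → ZMod p := fun g h => - y ![1, g, g * h]
  let η : Bil p Γ := lin fun g => lin (η0 g)
  have hη : ∀ g h, η (o g) (o h) = η0 g h := fun g h => by simp [η]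
  obtain ⟨δ, hδ⟩ := unif_level G hN K0
  refine ⟨η, 2 * δ, fun a b x z ha hb hab hx hz => ?_, fun x z w hx hz hw => ?_⟩
  · by_cases h : δ ≤ a
    · have : η x = 0 := lin_ext fun h' => by
        have e1 : η.flip (o h') = lin fun g => η0 g h' := lin_ext fun g => by simp [hη]
        have := hδ (fun g => η0 g h') (fun u v huv => by
          simp only [η0]; congr 1
          refine hy1 _ _ fun t => ?_
          fin_cases t
          exacts [NG.Eqv.refl _ _, huv, huv.mul_right _]) x (hx.mono h)
        rw [← e1] at this; simpa using this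
      simp [this]
    · have : η.flip z = 0 := lin_ext fun g => by
        have := hδ (η0 g) (fun u v huv => by
          simp only [η0]; congr 1
          refine hy1 _ _ fun t => ?_
          fin_cases t
          exacts [NG.Eqv.refl _ _, NG.Eqv.refl _ _, huv.mul_left _]) z (hz.mono (by omega))
        simpa [η] using this
      exact LinearMap.congr_fun this x
  · have := kill3 (S := S) (N := 4 * M)
      (fun x z w => dd η x z w - eps x * η z w + η x z * eps w - om S M c x z w)
      (by
        intros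
        simp only [dd, om, map_add, add_mul, mul_add, LinearMap.add_apply, Finset.sum_add_distrib]
        ring)
      (by
        intros
        simp only [dd, om, map_add, add_mul, mul_add, LinearMap.add_apply, Finset.sum_add_distrib]
        ring)
      (by
        intros
        simp only [dd, om, map_add, add_mul, mul_add, LinearMap.add_apply, Finset.sum_add_distrib]
        ring)
      (by
        intros
        simp only [dd, om, map_smul, smul_mul_assoc, mul_smul_comm, LinearMap.smul_apply,
          smul_eq_mul, mul_sub, mul_add, Finset.mul_sum]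
        congr 1
        · ring
        · exact Finset.sum_congr rfl fun _ _ => by ring)
      (by
        intros
        simp only [dd, om, map_smul, smul_mul_assoc, mul_smul_comm, LinearMap.smul_apply,
          smul_eq_mul, mul_sub, mul_add, Finset.mul_sum]
        congr 1
        · ring
        · exact Finset.sum_congr rfl fun _ _ => by ring)
      (by
        intros
        simp only [dd, om, map_smul, smul_mul_assoc, mul_smul_comm, LinearMap.smul_apply,
          smul_eq_mul, mul_sub, mul_add, Finset.mul_sum]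
        congr 1
        · ring
        · exact Finset.sum_congr rfl fun _ _ => by ring)
      (by
        intro g h l hg hh hl
        have e1 := congrFun hy ![1, g, g * h, g * h * l]
        have e2 := hy2 g hg ![1, h, h * l]
        rw [mul_vec3] at e2
        have e3 : f ![1, g, g * h, g * h * l] = om S M c (o g) (o h) (o l) := by
          refine Finset.sum_congr rfl fun t _ => ?_
          have c1 := hβ1 _ (b1 t) g 1 hg
          have c2 := hβ1 _ (b2 t) g 1 hg
          have c3 := hβ1 _ (b2 t) _ 1 (hg.mul hh)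
          have c4 := hβ1 _ (b3 t) _ 1 (hg.mul hh)
          have c5 := hβ1 _ (b3 t) _ 1 ((hg.mul hh).mul hl)
          rw [hom2 G hN hg hh (b2 t)] at c3
          rw [hom2 G hN (hg.mul hh) hl (b3 t)] at c5
          rw [mul_one] at c1 c2 c3 c4 c5
          simp [c1, c2, c3, c4, c5]
        rw [e3] at e1
        simp only [dd, ← o_mul, hη, η0, eps, lin_o, ← e1]
        simp only [mul_one, mul_assoc] at e2 ⊢
        simp [d2, e2, mul_assoc]
        ring) hx hz hw
    rw [hx.eps le_rfl, hw.eps le_rfl] at this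
    simpa [sub_eq_zero] using this

end Cd3
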