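import Pool.Agent.P.MP_013f39_al.B3

/-! Transfer to the group of series `x u(x^q)` under composition, with the product topology. -/

namespace Cd3

open PowerSeries Topology
open scoped PowerSeries.WithPiTopology

lemma unif_cont {α β : Type} [TopologicalSpace α] [DiscreteTopology α] [Finite α]
    [TopologicalSpace β] [DiscreteTopology β] (B : (ℕ → α) → β) (hB : Continuous B) :
    ∃ K, ∀ t t' : ℕ → α, (∀ i < K, t i = t' i) → B t = B t' := by
  let O : ℕ → Set (ℕ → α) := fun K => {t | ∀ t', (∀ i < K, t i = t' i) → B t = B t'}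
  have hopen : ∀ K, IsOpen (O K) := by
    intro K
    rw [isOpen_iff_forall_mem_open]
    intro t ht
    refine ⟨PiNat.cylinder t K, fun s hs t' h => ?_, PiNat.isOpen_cylinder _ _ _,
      PiNat.self_mem_cylinder _ _⟩
    rw [← ht s fun i hi => (hs i hi).symm, ht t' fun i hi => (hs i hi).symm.trans (h i hi)]
  have hcov : Set.univ ⊆ ⋃ K, O K := by
    intro t _
    have h1 : {s | B s = B t} ∈ 𝓝 t :=
      hB.continuousAt.preimage_mem_nhds ((isOpen_discrete {B t}).mem_nhds rfl)
    obtain ⟨_, ⟨x, n, rfl⟩, h2, h3⟩ := (PiNat.isTopologicalBasis_cylinders _).mem_nhds_iff.1 h1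
    refine Set.mem_iUnion.2 ⟨n, fun t' h => (h3 fun i hi => ?_).symm⟩
    rw [← h i hi]; exact h2 i hi
  obtain ⟨K, hK⟩ := isCompact_univ.elim_directed_cover O hopen hcov
    (Monotone.directed_le fun K K' h t ht t' h' => ht t' fun i hi => h' i (by omega))
  exact ⟨K, fun t t' h => hK (Set.mem_univ t) t' h⟩

variable {p : ℕ} [hp : Fact p.Prime] {r : ℕ}

lemma qne : p ^ r ≠ 0 := pow_ne_zero _ hp.out.ne_zero

noncomputable def iota (u : GG p r) : PS p := X * u.val.subst (X ^ p ^ r : PS p)

lemma iota_has (u : GG p r) : HasSubst (iota u) :=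
  HasSubst.of_constantCoeff_zero' (by simp [iota])

lemma iota_mul (u v : GG p r) : iota (u * v) = (iota u).subst (iota v) := by
  have hX : HasSubst (X ^ p ^ r : PS p) := HasSubst.X_pow qne
  have e1 : (sig r v.val).subst (X ^ p ^ r : PS p) = (X ^ p ^ r : PS p).subst (iota v) := by
    rw [subst_pow (iota_has v), subst_X (iota_has v), sig, subst_mul hX, subst_pow hX, subst_X hX,
      iota, mul_pow]
  rw [iota.eq_def (u * v), iota.eq_def u, subst_mul (iota_has v), subst_X (iota_has v),
    subst_comp_subst_apply hX (iota_has v), mul_val, subst_mul hX, act_eq,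
    subst_comp_subst_apply (sig_has r _) hX, e1, iota, mul_assoc]

variable (r) in
noncomputable def mkG (t : ℕ → ZMod p) : GG p r :=
  ⟨1 + mk fun i => if i = 0 then 0 else t i, by simp⟩

lemma a_mkG (t : ℕ → ZMod p) (i : ℕ) : (SS p r).a i (mkG r t) = if i = 0 then 0 else t i := by
  simp [SS_a, mkG]

lemma mkG_a (u : GG p r) : mkG r (fun i => (SS p r).a i u) = u := by
  ext i
  simp only [mkG, map_add, coeff_mk, SS_a]
  split_ifs with h
  · subst h; simp [u.cc]
  · simp

variable (r) in
noncomputable def kappa (f : PS p) : GG p r := mkG r fun i => coeff (p ^ r * i + 1) f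

lemma kappa_iota (u : GG p r) : kappa r (iota u) = u := by
  ext i
  simp only [kappa, mkG, map_add, coeff_mk, iota, coeff_succ_X_mul]
  split_ifs with h
  · subst h; simp [u.cc]
  · rw [← expand_apply _ qne, coeff_expand_mul, coeff_one, if_neg h, zero_add]

lemma kappa_ev (f : PS p) (K : ℕ) : ∀ᶠ g in 𝓝 f, (SS p r).Eqv K (kappa r g) (kappa r f) := by
  have : ∀ᶠ g in 𝓝 f, ∀ i ∈ Set.Iio K, coeff (p ^ r * i + 1) g = coeff (p ^ r * i + 1) f := by
    rw [(Set.finite_Iio K).eventually_all]
    intro i _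
    exact (WithPiTopology.continuous_coeff (ZMod p) _).continuousAt.preimage_mem_nhds
      ((isOpen_discrete {coeff (p ^ r * i + 1) f}).mem_nhds rfl)
  filter_upwards [this] with g hg i hi
  simp only [kappa, a_mkG, hg i hi]

lemma cont_iota : Continuous fun t : ℕ → ZMod p => iota (mkG r t) := by
  rw [continuous_iff_continuousAt]
  intro t
  rw [ContinuousAt, WithPiTopology.tendsto_iff_coeff_tendsto]
  intro n
  refine Continuous.tendsto (f := fun t : ℕ → ZMod p => coeff n (iota (mkG r t))) ?_ t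
  rcases n with _ | n
  · simp only [iota, coeff_zero_X_mul]; exact continuous_const
  · simp only [iota, coeff_succ_X_mul, ← expand_apply _ qne, coeff_expand, mkG, map_add, coeff_mk]
    split_ifs
    · exact continuous_const
    · exact continuous_const.add (continuous_apply _)
    · exact continuous_const

theorem final (hp2 : p ≠ 2) (hr : 1 ≤ r) (H : Set (PS p))
    (hH : ∀ f, f ∈ H ↔ ∃ u : GG p r, f = iota u) :
    ∃ c : PS p → PS p → PS p → ZMod p,
      ContinuousOn (fun t : PS p × PS p × PS p => c t.1 t.2.1 t.2.2) (H ×ˢ H ×ˢ H) ∧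
      (∀ f ∈ H, ∀ g ∈ H, ∀ h ∈ H, ∀ k ∈ H,
        c g h k - c (f.subst g) h k + c f (g.subst h) k - c f g (h.subst k) + c f g h = 0) ∧
      ¬ ∃ b : PS p → PS p → ZMod p,
        ContinuousOn (fun t : PS p × PS p => b t.1 t.2) (H ×ˢ H) ∧
        ∀ f ∈ H, ∀ g ∈ H, ∀ h ∈ H,
          c f g h = b g h - b (f.subst g) h + b f (g.subst h) - b f g := by
  by_contra hcon
  refine GG_main hp2 hr fun f ⟨K, hK⟩ hf => ?_
  have hmem : ∀ u : GG p r, iota u ∈ H := fun u => (hH _).2 ⟨u, rfl⟩
  have : ∃ b : PS p → PS p → ZMod p,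
      ContinuousOn (fun t : PS p × PS p => b t.1 t.2) (H ×ˢ H) ∧
      ∀ f' ∈ H, ∀ g ∈ H, ∀ h ∈ H, f (kappa r f') (kappa r g) (kappa r h) =
        b g h - b (f'.subst g) h + b f' (g.subst h) - b f' g := by
    by_contra hb
    refine hcon ⟨fun a b c => f (kappa r a) (kappa r b) (kappa r c), ?_, ?_, hb⟩
    · refine Continuous.continuousOn (IsLocallyConstant.continuous ?_)
      rw [IsLocallyConstant.iff_eventually_eq]
      rintro ⟨a, b, c⟩
      rw [nhds_prod_eq, nhds_prod_eq]
      filter_upwards [(kappa_ev (r := r) a K).prod_mk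
        ((kappa_ev (r := r) b K).prod_mk (kappa_ev (r := r) c K))] with t ht
      exact hK _ _ _ _ _ _ ht.1 ht.2.1 ht.2.2
    · intro a ha b hb c hc d hd
      obtain ⟨a, rfl⟩ := (hH _).1 ha
      obtain ⟨b, rfl⟩ := (hH _).1 hb
      obtain ⟨c, rfl⟩ := (hH _).1 hc
      obtain ⟨d, rfl⟩ := (hH _).1 hd
      simp only [← iota_mul, kappa_iota]
      exact hf a b c d
  obtain ⟨b, hb1, hb2⟩ := this
  refine ⟨fun u v => b (iota u) (iota v), ?_, fun u v w => ?_⟩
  · obtain ⟨K', hK'⟩ := unif_cont (fun t : ℕ → ZMod p × ZMod p =>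
      b (iota (mkG r fun i => (t i).1)) (iota (mkG r fun i => (t i).2)))
      (hb1.comp_continuous (f := fun t : ℕ → ZMod p × ZMod p =>
        (iota (mkG r fun i => (t i).1), iota (mkG r fun i => (t i).2)))
        ((cont_iota.comp (by fun_prop)).prodMk (cont_iota.comp (by fun_prop)))
        fun t => ⟨hmem _, hmem _⟩)
    refine ⟨K', fun g h g' h' hg hh => ?_⟩
    have := hK' (fun i => ((SS p r).a i g, (SS p r).a i h))
      (fun i => ((SS p r).a i g', (SS p r).a i h')) fun i hi => by rw [hg i hi, hh i hi]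
    simpa only [mkG_a] using this
  · have := hb2 _ (hmem u) _ (hmem v) _ (hmem w)
    simpa only [← iota_mul, kappa_iota] using this

end Cd3
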